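import Pool.Agent.Lib.MP_b1b13a_lc.Dk.Defs

set_option autoImplicit false

noncomputable section

namespace Pool.Agent.Lib.MP_b1b13a_lc.Dk

open Complex Set Filter Topology

-- BEGIN A1
section
variable {R : Type} [CommRing R] {c : Cx R} {A : Type} [AddCommGroup A]

/-- `P` is the section with Gaussian coordinates `p, q` -/
def Mdl.at (M : Mdl c A) (P : R × R) (p q : ℤ) : Prop := M.pt P (p • M.a0 + q • M.J M.a0)

/-- `P` codes the integer `x` -/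
def Mdl.en (M : Mdl c A) (P : R × R) (x : ℤ) : Prop := M.pt P ((-(4 * x + 2)) • M.a0)

theorem Mdl.gz (M : Mdl c A) {p q : ℤ} (h : p • M.a0 + q • M.J M.a0 = 0) : p = 0 ∧ q = 0 := by
  have h1 := congrArg M.J h
  rw [map_add, map_zsmul, map_zsmul, M.JJ, map_zero] at h1
  have h2 : (p ^ 2 + q ^ 2) • M.a0 = 0 := by
    have : (p ^ 2 + q ^ 2) • M.a0 =
        p • (p • M.a0 + q • M.J M.a0) - q • (p • M.J M.a0 + q • -M.a0) := by module
    rw [this, h, h1, smul_zero, smul_zero, sub_zero]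
  have h3 := M.nt _ h2
  constructor <;> nlinarith [sq_nonneg p, sq_nonneg q]

theorem Mdl.at_ex (M : Mdl c A) {p q : ℤ} (h : p ≠ 0 ∨ q ≠ 0) : ∃ P, M.at P p q := by
  refine M.new _ fun e => ?_
  have : (2 * p) • M.a0 + (2 * q) • M.J M.a0 = 0 := by rw [← e]; module
  have := M.gz this
  omega

theorem Mdl.at_of (M : Mdl c A) {P : R × R} {p : ℤ} (h : M.pt P (p • M.a0)) : M.at P p 0 := by
  simpa [Mdl.at] using h

theorem Mdl.of_at (M : Mdl c A) {P : R × R} {p : ℤ} (h : M.at P p 0) : M.pt P (p • M.a0) := by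
  simpa [Mdl.at] using h

theorem Mdl.at_ad (M : Mdl c A) {P Q S : R × R} {p q p' q' p'' q'' : ℤ} (hP : M.at P p q)
    (hQ : M.at Q p' q') (hS : M.at S p'' q'') (e1 : p'' = p + p') (e2 : q'' = q + q')
    (h1 : p ≠ p' ∨ q ≠ q') (h2 : p'' ≠ 0 ∨ q'' ≠ 0) : Ad c P Q S := by
  subst e1 e2
  refine M.ad' P Q S _ _ hP hQ ?_ (fun e => ?_) fun e => ?_
  · have : p • M.a0 + q • M.J M.a0 + (p' • M.a0 + q' • M.J M.a0) =
        (p + p') • M.a0 + (q + q') • M.J M.a0 := by module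
    rw [this]; exact hS
  · have : (p - p') • M.a0 + (q - q') • M.J M.a0 = 0 := by
      rw [← sub_eq_zero.2 e]; module
    have := M.gz this
    omega
  · have : (p + p') • M.a0 + (q + q') • M.J M.a0 = 0 := by rw [← e]; module
    have := M.gz this
    omega

theorem Mdl.en_ex (M : Mdl c A) (x : ℤ) : ∃ P, M.en P x := by
  obtain ⟨P, hP⟩ := M.at_ex (p := -(4 * x + 2)) (q := 0) (Or.inl (by omega))
  exact ⟨P, M.of_at hP⟩

theorem Mdl.en_inj (M : Mdl c A) {P : R × R} {x y : ℤ} (h : M.en P x) (k : M.en P y) :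
    x = y := by
  have h1 := M.inj _ _ _ h k
  have h2 : (-(4 * x + 2) - -(4 * y + 2)) • M.a0 = 0 := by rw [sub_smul, h1, sub_self]
  have := M.nt _ h2
  omega

theorem Mdl.ok2_ex (M : Mdl c A) :
    ∃ r0 b0, Ok2 ⟨c.i, c.τ, c.l, c.δ, c.p0, r0, b0⟩ := by
  obtain ⟨r0, hr⟩ := M.at_ex (p := 0) (q := 1) (by simp)
  obtain ⟨S, hS⟩ := M.at_ex (p := 1) (q := 1) (by simp)
  obtain ⟨T, hT⟩ := M.at_ex (p := -1) (q := 1) (by simp)
  obtain ⟨b0, hb⟩ := M.at_ex (p := -2) (q := 0) (by simp)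
  have hp : M.at c.p0 1 0 := by simpa [Mdl.at] using M.p0
  have hn : M.at (S.1, -S.2) (-1) (-1) := by
    have := M.neg _ _ hS
    have e : -((1 : ℤ) • M.a0 + (1 : ℤ) • M.J M.a0) =
        (-1 : ℤ) • M.a0 + (-1 : ℤ) • M.J M.a0 := by module
    rwa [e] at this
  refine ⟨r0, b0, M.sec _ _ hr, M.sec _ _ hb, (M.jm _ _ _ _ hp hr).2 (by simp), S, T,
    M.sec _ _ hS, M.sec _ _ hT, M.at_ad hp hr hS (by simp) (by simp) (by simp) (by simp),
    (M.jm _ _ _ _ hS hT).2 ?_, M.at_ad hT hn hb (by simp) (by simp) (by simp) (by simp)⟩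
  rw [map_add, map_zsmul, map_zsmul, M.JJ]
  module

theorem Mdl.ok2_sound (M : Mdl c A) (h : Ok2 c) : M.pt c.r0 (M.J M.a0) ∧ M.en c.b0 0 := by
  obtain ⟨h1, h2, h3, S, T, hS, hT, h4, h5, h6⟩ := h
  obtain ⟨r, hr⟩ := M.ex _ h1
  obtain ⟨b, hb⟩ := M.ex _ h2
  obtain ⟨s, hs⟩ := M.ex _ hS
  obtain ⟨t, ht⟩ := M.ex _ hT
  have e1 := (M.jm _ _ _ _ M.p0 hr).1 h3
  have e2 := M.ad _ _ _ _ _ _ M.p0 hr hs h4
  have e3 := (M.jm _ _ _ _ hs ht).1 h5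
  have e4 := M.ad _ _ _ _ _ _ ht (M.neg _ _ hs) hb h6
  subst e1 e2 e3
  refine ⟨hr, ?_⟩
  have : b = (-(4 * 0 + 2) : ℤ) • M.a0 := by
    rw [← e4, map_add, M.JJ]; module
  rw [this] at hb
  exact hb

theorem Mdl.eq4_sound (M : Mdl c A) (h : Ok2 c) {P Q S T : R × R} {a b d e : A} (hP : M.pt P a)
    (hQ : M.pt Q b) (hS : M.pt S d) (hT : M.pt T e) (k : Eq4 c P Q S T) : a + b = d + e := by
  obtain ⟨A', C', E, h1, h2, h3, k1, k2, k3, k4⟩ := k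
  have hr := (M.ok2_sound h).1
  obtain ⟨a', ha⟩ := M.ex _ h1
  obtain ⟨c', hc⟩ := M.ex _ h2
  obtain ⟨e', he⟩ := M.ex _ h3
  have e1 := M.ad _ _ _ _ _ _ hP hr ha k1
  have e2 := M.ad _ _ _ _ _ _ ha hQ he k2
  have e3 := M.ad _ _ _ _ _ _ hS hr hc k3
  have e4 := M.ad _ _ _ _ _ _ hc hT he k4
  subst e1 e3
  have := e2.trans e4.symm
  linear_combination (norm := module) this

theorem Mdl.eq4_complete (M : Mdl c A) (h : Ok2 c) {P Q S T : R × R} {a b d e : ℤ}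
    (hP : M.pt P (a • M.a0)) (hQ : M.pt Q (b • M.a0)) (hS : M.pt S (d • M.a0))
    (hT : M.pt T (e • M.a0)) (k : a + b = d + e) : Eq4 c P Q S T := by
  have hr : M.at c.r0 0 1 := by simpa [Mdl.at] using (M.ok2_sound h).1
  obtain ⟨A', ha⟩ := M.at_ex (p := a) (q := 1) (by simp)
  obtain ⟨C', hc⟩ := M.at_ex (p := d) (q := 1) (by simp)
  obtain ⟨E, he⟩ := M.at_ex (p := a + b) (q := 1) (by simp)
  exact ⟨A', C', E, M.sec _ _ ha, M.sec _ _ hc, M.sec _ _ he,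
    M.at_ad (M.at_of hP) hr ha (by simp) (by simp) (by simp) (by simp),
    M.at_ad ha (M.at_of hQ) he rfl (by simp) (by simp) (by simp),
    M.at_ad (M.at_of hS) hr hc (by simp) (by simp) (by simp) (by simp),
    M.at_ad hc (M.at_of hT) he k (by simp) (by simp) (by simp)⟩

theorem Mdl.sc_s (M : Mdl c A) {g : R} (T : A →+ A) {s : ℤ}
    (h1 : ∀ a, T (M.J a) + M.J (T a) = s • a)
    (h2 : ∀ P Q a b, M.pt P a → M.pt Q b → Cm c g P Q → b = T a) {U W : R × R} {a : A}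
    (hU : M.pt U a) (k : Sc c g U W) : M.pt W (s • a) := by
  obtain ⟨U1, U2, U3, U4, s1, s2, s3, s4, s5, k1, k2, k3, k4, k5⟩ := k
  obtain ⟨b1, p1⟩ := M.ex _ s1
  obtain ⟨b2, p2⟩ := M.ex _ s2
  obtain ⟨b3, p3⟩ := M.ex _ s3
  obtain ⟨b4, p4⟩ := M.ex _ s4
  obtain ⟨w, pw⟩ := M.ex _ s5
  have e1 := (M.jm _ _ _ _ hU p1).1 k1
  have e2 := h2 _ _ _ _ p1 p2 k2
  have e3 := h2 _ _ _ _ hU p3 k3
  have e4 := (M.jm _ _ _ _ p3 p4).1 k4
  have e5 := M.ad _ _ _ _ _ _ p2 p4 pw k5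
  subst e1 e2 e3 e4
  rwa [← h1, e5]

theorem Mdl.sc_c (M : Mdl c A) {g : R} (T : A →+ A) {s : ℤ} (hs : s ≤ -3)
    (h0 : ∀ a, T (T a) = -a) (h1 : ∀ a, T (M.J a) + M.J (T a) = s • a)
    (h2 : ∀ P Q a, M.pt P a → M.pt Q (T a) → Cm c g P Q) {U W : R × R} {n : ℤ} (hn : n ≠ 0)
    (hU : M.pt U (n • M.a0)) (hW : M.pt W (s • n • M.a0)) : Sc c g U W := by
  have nz : ∀ (F : A →+ A), (∀ a, F (F a) = -a) → ∀ a, a + a ≠ 0 → F a + F a ≠ 0 := by
    intro F hF a ha e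
    have := congrArg F e
    rw [map_add, hF, map_zero, ← neg_add, neg_eq_zero] at this
    exact ha this
  have hx : n • M.a0 + n • M.a0 ≠ 0 := fun e => by
    have := M.nt (n + n) (by rw [add_smul]; exact e)
    omega
  obtain ⟨U1, p1⟩ := M.new _ (nz _ M.JJ _ hx)
  obtain ⟨U2, p2⟩ := M.new _ (nz _ h0 _ (nz _ M.JJ _ hx))
  obtain ⟨U3, p3⟩ := M.new _ (nz _ h0 _ hx)
  obtain ⟨U4, p4⟩ := M.new _ (nz _ M.JJ _ (nz _ h0 _ hx))
  refine ⟨U1, U2, U3, U4, M.sec _ _ p1, M.sec _ _ p2, M.sec _ _ p3, M.sec _ _ p4, M.sec _ _ hW,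
    (M.jm _ _ _ _ hU p1).2 rfl, h2 _ _ _ p1 p2, h2 _ _ _ hU p3, (M.jm _ _ _ _ p3 p4).2 rfl,
    M.ad' _ _ _ _ _ p2 p4 (by rw [h1]; exact hW) (fun e => ?_) fun e => ?_⟩
  · set x := n • M.a0 with hxd
    have e1 := h1 x
    rw [e] at e1
    have e2 : M.J (T (M.J (T x))) = x := by rw [← e, h0, map_neg, M.JJ, neg_neg]
    have e3 := congrArg (fun y => M.J (T y)) e1
    simp only [map_add, map_zsmul, e2] at e3
    have e4 : (s ^ 2 - 4) • x = 0 := by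
      linear_combination (norm := module) (-2 : ℤ) • e3 - s • e1
    have := M.nt ((s ^ 2 - 4) * n) (by rw [mul_smul]; exact e4)
    rcases mul_eq_zero.1 this with h | h
    · nlinarith
    · exact hn h
  · rw [h1] at e
    have := M.nt (s * n) (by rw [mul_smul]; exact e)
    rcases mul_eq_zero.1 this with h | h
    · omega
    · exact hn h

theorem Mdl.sc_sound (M : Mdl c A) {g : R} (hg : Pt c g) : ∃ m : ℤ, ∀ U W a, M.pt U a →
    Sc c g U W → M.pt W ((-(4 * m + 2)) • a) := by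
  obtain ⟨T, m, h1, h2⟩ := M.cm g hg
  exact ⟨m, fun U W a hU k => M.sc_s T h1 h2 hU k⟩

theorem Mdl.sc_complete (M : Mdl c A) : ∃ j0 : ℤ, ∀ j : ℤ, j0 ≤ j → ∃ g, Pt c g ∧
    ∀ U W (n : ℤ), n ≠ 0 →
      M.pt U (n • M.a0) → M.pt W ((-(4 * j ^ 2 + 2) * n) • M.a0) → Sc c g U W := by
  obtain ⟨j0, hj0⟩ := M.big
  refine ⟨max j0 1, fun j hj' => ?_⟩
  have hj : j ≠ 0 := by omega
  obtain ⟨T, h0, h1, h2⟩ := M.sq j hj
  obtain ⟨g, hg, hd⟩ := hj0 j (by omega)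
  refine ⟨g, hg, fun U W n hn hU hW => M.sc_c T ?_ h0 h1 (fun P Q a hP hQ => ?_) hn hU
    (by rwa [← mul_smul])⟩
  · have := sq_pos_of_ne_zero hj
    omega
  · have := (h2 _ _ _ _ hP hQ).2 rfl
    exact ⟨hd.trans this.1, hd.trans this.2⟩

theorem Mdl.par_iff (M : Mdl c A) (n : ℕ) (P : R × R) :
    Par c (n : R) P ↔ M.en P ((n + 1) ^ 2) := by
  have hj : (n + 1 : ℤ) ≠ 0 := by omega
  obtain ⟨T, h0, h1, h2⟩ := M.sq (n + 1) hj
  have e : c.τ - c.i - 2 * ((n + 1 : ℤ) : R) = c.τ - c.i - 2 * ((n : R) + 1) := by push_cast; rfl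
  rw [e] at h2
  constructor
  · exact fun k => M.sc_s T h1 (fun P Q a b hP hQ => (h2 P Q a b hP hQ).1) M.p0 k
  · intro k
    refine M.sc_c T (n := 1) ?_ h0 h1 (fun P Q a hP hQ => (h2 _ _ _ _ hP hQ).2 rfl) one_ne_zero
      (by simpa using M.p0) (by rw [one_smul]; exact k)
    have := sq_pos_of_ne_zero hj
    omega
end
-- END A1

end Pool.Agent.Lib.MP_b1b13a_lc.Dk
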