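import Pool.Agent.Lib.MP_b1b13a_lc.Dk.A1
import Pool.Agent.Lib.Common.DPRM.Main

set_option autoImplicit false

noncomputable section

namespace Pool.Agent.Lib.MP_b1b13a_lc.Dk

open Complex Set Filter Topology

-- BEGIN A2
theorem a2_three (x j : ℤ) :
    ∃ a b d : ℤ, j ≤ a ∧ j ≤ b ∧ j ≤ d ∧ x = a ^ 2 + b ^ 2 - d ^ 2 := by
  obtain ⟨K, h1, h2, h3⟩ : ∃ K : ℤ, |x| ≤ K ∧ j ≤ K ∧ 3 ≤ K :=
    ⟨max (max |x| j) 3, by omega, by omega, by omega⟩
  obtain ⟨h4, h5⟩ := abs_le.1 h1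
  obtain ⟨t, ht⟩ := Int.even_mul_succ_self x
  refine ⟨x + 2 * K + 1, t + 2 * K * (x + K + 1), t + 2 * K * (x + K + 1) + 1, by omega, ?_, ?_,
    by linear_combination -ht⟩
  all_goals nlinarith [sq_nonneg (x + 2 * K)]

section
variable {R : Type} [CommRing R] {c : Cx R} {A : Type} [AddCommGroup A]

theorem Mdl.pl_iff (M : Mdl c A) (h : Ok2 c) {P Q S : R × R} {x y z : ℤ} (hP : M.en P x)
    (hQ : M.en Q y) (hS : M.en S z) : Pl c P Q S ↔ x + y = z := by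
  have hb := (M.ok2_sound h).2
  constructor
  · intro k
    have e := M.eq4_sound h hP hQ hS hb k
    have := M.nt (-(4 * x + 2) + -(4 * y + 2) - (-(4 * z + 2) + -(4 * 0 + 2)))
      (by linear_combination (norm := module) e)
    omega
  · intro k
    exact M.eq4_complete h hP hQ hS hb (by omega)

theorem Mdl.pl_sound (M : Mdl c A) (h : Ok2 c) {P Q S : R × R} {x y : ℤ} (hP : M.en P x)
    (hQ : M.en Q y) (hS : Sec c S) (k : Pl c P Q S) : M.en S (x + y) := by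
  obtain ⟨s, hs⟩ := M.ex _ hS
  have e := M.eq4_sound h hP hQ hs (M.ok2_sound h).2 k
  have : s = (-(4 * (x + y) + 2)) • M.a0 := by linear_combination (norm := module) -e
  rw [this] at hs
  exact hs

theorem Mdl.dom_iff (M : Mdl c A) (h : Ok2 c) (P : R × R) : Dom c P ↔ ∃ x, M.en P x := by
  constructor
  · rintro ⟨g1, g2, g3, A1, A2, A3, p1, p2, p3, s1, s2, s3, hP, k⟩
    obtain ⟨m1, h1⟩ := M.sc_sound p1
    obtain ⟨m2, h2⟩ := M.sc_sound p2
    obtain ⟨m3, h3⟩ := M.sc_sound p3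
    obtain ⟨a, ha⟩ := M.ex _ hP
    have e := M.eq4_sound h (h1 _ _ _ M.p0 s1) (h2 _ _ _ M.p0 s2) (h3 _ _ _ M.p0 s3) ha k
    have : a = (-(4 * (m1 + m2 - m3) + 2)) • M.a0 := by linear_combination (norm := module) -e
    rw [this] at ha
    exact ⟨_, ha⟩
  · rintro ⟨x, hx⟩
    obtain ⟨j0, hj0⟩ := M.sc_complete
    obtain ⟨a, b, d, ha, hb, hd, rfl⟩ := a2_three x j0
    obtain ⟨g1, p1, h1⟩ := hj0 a ha
    obtain ⟨g2, p2, h2⟩ := hj0 b hb
    obtain ⟨g3, p3, h3⟩ := hj0 d hd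
    obtain ⟨A1, e1⟩ := M.en_ex (a ^ 2)
    obtain ⟨A2, e2⟩ := M.en_ex (b ^ 2)
    obtain ⟨A3, e3⟩ := M.en_ex (d ^ 2)
    have hp : M.pt c.p0 ((1 : ℤ) • M.a0) := by simpa using M.p0
    exact ⟨g1, g2, g3, A1, A2, A3, p1, p2, p3, h1 _ _ 1 one_ne_zero hp (by rw [mul_one]; exact e1),
      h2 _ _ 1 one_ne_zero hp (by rw [mul_one]; exact e2),
      h3 _ _ 1 one_ne_zero hp (by rw [mul_one]; exact e3), M.sec _ _ hx,
      M.eq4_complete h e1 e2 e3 hx (by ring)⟩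

theorem Mdl.ml_iff (M : Mdl c A) (h : Ok2 c) {P Q : R × R} {x y : ℤ} (hP : M.en P x)
    (hQ : M.en Q y) (S : R × R) : Ml c P Q S ↔ M.en S (x * y) := by
  constructor
  · rintro ⟨g1, g2, g3, A1, A2, A3, W1, W2, W3, W, Z2, Z3, K, V1, V2, p1, p2, p3, s1, s2, s3,
      t1, t2, t3, hW, hZ2, hZ3, hK, hV1, hV2, k1, k2, hd, l1, l2, l3, a1, a2, a3⟩
    obtain ⟨m1, h1⟩ := M.sc_sound p1
    obtain ⟨m2, h2⟩ := M.sc_sound p2
    obtain ⟨m3, h3⟩ := M.sc_sound p3
    obtain ⟨w, hw⟩ := M.ex _ hW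
    obtain ⟨v1, hv1⟩ := M.ex _ hV1
    obtain ⟨v2, hv2⟩ := M.ex _ hV2
    obtain ⟨z, hz⟩ := (M.dom_iff h S).1 hd
    have e1 := M.eq4_sound h (h1 _ _ _ M.p0 s1) (h2 _ _ _ M.p0 s2) (h3 _ _ _ M.p0 s3) hP k1
    have e2 := M.eq4_sound h (h1 _ _ _ hQ t1) (h2 _ _ _ hQ t2) (h3 _ _ _ hQ t3) hw k2
    have q2 := M.pl_sound h hz hz hZ2 l1
    have q3 := M.pl_sound h q2 hP hZ3 l2
    have qK := M.pl_sound h q3 hQ hK l3
    have hr := (M.ok2_sound h).1
    have e3 := M.ad _ _ _ _ _ _ hw hr hv1 a1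
    have e4 := M.ad _ _ _ _ _ _ hv1 qK hv2 a2
    have e5 := M.ad _ _ _ _ _ _ hv2 qK hr a3
    have hx := M.nt (-(4 * m1 + 2) + -(4 * m2 + 2) - (-(4 * m3 + 2) + -(4 * x + 2)))
      (by linear_combination (norm := module) e1)
    obtain rfl : x = m1 + m2 - m3 := by omega
    have hz' := M.nt (16 * ((m1 + m2 - m3) * y - z))
      (by linear_combination (norm := module) e2 + e3 + e4 + e5)
    obtain rfl : z = (m1 + m2 - m3) * y := by omega
    exact hz
  · intro hS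
    obtain ⟨j0, hj0⟩ := M.sc_complete
    obtain ⟨a, b, d, ha, hb, hd, rfl⟩ := a2_three x j0
    obtain ⟨g1, p1, h1⟩ := hj0 a ha
    obtain ⟨g2, p2, h2⟩ := hj0 b hb
    obtain ⟨g3, p3, h3⟩ := hj0 d hd
    obtain ⟨A1, e1⟩ := M.en_ex (a ^ 2)
    obtain ⟨A2, e2⟩ := M.en_ex (b ^ 2)
    obtain ⟨A3, e3⟩ := M.en_ex (d ^ 2)
    have hp : M.pt c.p0 ((1 : ℤ) • M.a0) := by simpa using M.p0
    have hy : -(4 * y + 2) ≠ 0 := by omega
    have ex : ∀ m : ℤ, ∃ W, M.pt W ((-(4 * m + 2) * -(4 * y + 2)) • M.a0) := fun m => by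
      obtain ⟨W, hW⟩ := M.at_ex (p := -(4 * m + 2) * -(4 * y + 2)) (q := 0)
        (Or.inl (mul_ne_zero (by omega) hy))
      exact ⟨W, M.of_at hW⟩
    set x := a ^ 2 + b ^ 2 - d ^ 2 with hx
    obtain ⟨W1, w1⟩ := ex (a ^ 2)
    obtain ⟨W2, w2⟩ := ex (b ^ 2)
    obtain ⟨W3, w3⟩ := ex (d ^ 2)
    obtain ⟨W, w⟩ := ex x
    obtain ⟨Z2, z2⟩ := M.en_ex (x * y + x * y)
    obtain ⟨Z3, z3⟩ := M.en_ex (x * y + x * y + x)
    obtain ⟨K, k⟩ := M.en_ex (x * y + x * y + x + y)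
    obtain ⟨V1, v1⟩ := M.at_ex (p := -(4 * x + 2) * -(4 * y + 2)) (q := 1) (by simp)
    obtain ⟨V2, v2⟩ := M.at_ex
      (p := -(4 * x + 2) * -(4 * y + 2) + -(4 * (x * y + x * y + x + y) + 2)) (q := 1) (by simp)
    have hr : M.at c.r0 0 1 := by simpa [Mdl.at] using (M.ok2_sound h).1
    exact ⟨g1, g2, g3, A1, A2, A3, W1, W2, W3, W, Z2, Z3, K, V1, V2, p1, p2, p3,
      h1 _ _ 1 one_ne_zero hp (by rw [mul_one]; exact e1),
      h2 _ _ 1 one_ne_zero hp (by rw [mul_one]; exact e2),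
      h3 _ _ 1 one_ne_zero hp (by rw [mul_one]; exact e3),
      h1 _ _ _ hy hQ w1, h2 _ _ _ hy hQ w2, h3 _ _ _ hy hQ w3,
      M.sec _ _ w, M.sec _ _ z2, M.sec _ _ z3, M.sec _ _ k, M.sec _ _ v1, M.sec _ _ v2,
      M.eq4_complete h e1 e2 e3 hP (by rw [hx]; ring),
      M.eq4_complete h w1 w2 w3 w (by rw [hx]; ring), (M.dom_iff h S).2 ⟨_, hS⟩,
      (M.pl_iff h hS hS z2).2 rfl, (M.pl_iff h z2 hP z3).2 rfl, (M.pl_iff h z3 hQ k).2 rfl,
      M.at_ad (M.at_of w) hr v1 (by simp) (by simp) (by simp) (by simp),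
      M.at_ad v1 (M.at_of k) v2 rfl (by simp) (by simp) (by simp),
      M.at_ad v2 (M.at_of k) hr (by ring) (by simp) (by simp) (by simp)⟩

theorem Mdl.gr_iff (M : Mdl c A) (h : Ok2 c) (B : ℕ → R × R) (y : ℕ → ℤ) (e : Ex)
    (hB : ∀ j < e.bd, M.en (B j) (y j)) (W : R × R) : Gr c B e W ↔ M.en W (e.val y) := by
  have hb := (M.ok2_sound h).2
  induction e generalizing W with
  | var j =>
    have hj := hB j (Nat.lt_succ_self j)
    constructor
    · intro k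
      obtain rfl : W = B j := Prod.ext k.1 k.2
      exact hj
    · intro k
      obtain rfl := M.uniq _ _ _ k hj
      exact ⟨rfl, rfl⟩
  | one => simpa [Gr, Ex.val] using M.par_iff 0 W
  | neg a ih =>
    have ih := ih hB
    constructor
    · rintro ⟨X, h1, h2, h3⟩
      obtain ⟨w, hw⟩ := M.ex _ h2
      have e := M.eq4_sound h ((ih X).1 h1) hw hb hb h3
      have : w = (-(4 * (-a.val y) + 2)) • M.a0 := by linear_combination (norm := module) e
      rw [this] at hw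
      exact hw
    · intro k
      obtain ⟨X, hX⟩ := M.en_ex (a.val y)
      exact ⟨X, (ih X).2 hX, M.sec _ _ k, (M.pl_iff h hX k hb).2 (by simp [Ex.val])⟩
  | add a b iha ihb =>
    have iha := iha fun j hj => hB j (hj.trans_le (le_max_left _ _))
    have ihb := ihb fun j hj => hB j (hj.trans_le (le_max_right _ _))
    constructor
    · rintro ⟨X, Y, h1, h2, h3, h4⟩
      exact M.pl_sound h ((iha X).1 h1) ((ihb Y).1 h2) h3 h4
    · intro k
      obtain ⟨X, hX⟩ := M.en_ex (a.val y)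
      obtain ⟨Y, hY⟩ := M.en_ex (b.val y)
      exact ⟨X, Y, (iha X).2 hX, (ihb Y).2 hY, M.sec _ _ k, (M.pl_iff h hX hY k).2 rfl⟩
  | mul a b iha ihb =>
    have iha := iha fun j hj => hB j (hj.trans_le (le_max_left _ _))
    have ihb := ihb fun j hj => hB j (hj.trans_le (le_max_right _ _))
    constructor
    · rintro ⟨X, Y, h1, h2, h3⟩
      exact (M.ml_iff h ((iha X).1 h1) ((ihb Y).1 h2) W).1 h3
    · intro k
      obtain ⟨X, hX⟩ := M.en_ex (a.val y)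
      obtain ⟨Y, hY⟩ := M.en_ex (b.val y)
      exact ⟨X, Y, (iha X).2 hX, (ihb Y).2 hY, (M.ml_iff h hX hY W).2 k⟩

theorem Mdl.eqn_iff (M : Mdl c A) (h : Ok2 c) (e : Ex) (n : ℕ) :
    Eqn c e (n : R) ↔ ∃ y : ℕ → ℤ, y 0 = (n + 1) ^ 2 ∧ e.val y = 0 := by
  have hb := (M.ok2_sound h).2
  constructor
  · rintro ⟨-, B, h1, h2, h3⟩
    choose! y hy using fun j hj => (M.dom_iff h (B j)).1 (h1 j hj)
    refine ⟨y, M.en_inj (hy 0 (Nat.succ_pos _)) ((M.par_iff n _).1 h2), ?_⟩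
    exact M.en_inj ((M.gr_iff h B y e (fun j hj => hy j (by omega)) _).1 h3) hb
  · rintro ⟨y, h1, h2⟩
    choose B hB using fun j => M.en_ex (y j)
    exact ⟨h, B, fun j _ => (M.dom_iff h _).2 ⟨_, hB j⟩, (M.par_iff n _).2 (h1 ▸ hB 0),
      (M.gr_iff h B y e (fun j _ => hB j) _).2 (h2 ▸ hb)⟩
end

theorem a2_int (a : ℤ) : ∃ e : Ex, ∀ y, e.val y = a := by
  induction a using Int.induction_on with
  | zero => exact ⟨.add .one (.neg .one), fun y => by simp [Ex.val]⟩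
  | succ n ih =>
    obtain ⟨e, he⟩ := ih
    exact ⟨.add e .one, fun y => by simp [Ex.val, he]⟩
  | pred n ih =>
    obtain ⟨e, he⟩ := ih
    exact ⟨.add e (.neg .one), fun y => by simp [Ex.val, he, sub_eq_add_neg]⟩

theorem a2_poly (Q : MvPolynomial ℕ ℤ) (σ : ℕ → Ex) :
    ∃ e : Ex, ∀ y, e.val y = MvPolynomial.eval (fun j => (σ j).val y) Q := by
  induction Q using MvPolynomial.induction_on with
  | C a =>
    obtain ⟨e, he⟩ := a2_int a
    exact ⟨e, fun y => by simp [he]⟩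
  | add p q hp hq =>
    obtain ⟨a, ha⟩ := hp
    obtain ⟨b, hb⟩ := hq
    exact ⟨.add a b, fun y => by simp [Ex.val, ha, hb]⟩
  | mul_X p j hp =>
    obtain ⟨a, ha⟩ := hp
    exact ⟨.mul a (σ j), fun y => by simp [Ex.val, ha]⟩

theorem exists_ex : ∃ e : Ex,
    ¬ ComputablePred fun n : ℕ => ∃ y : ℕ → ℤ, y 0 = (n + 1) ^ 2 ∧ e.val y = 0 := by
  obtain ⟨Q, hQ⟩ := Common.DPRM.exists_mvPoly_not_computable
  let s : Ex := .add (.add (.mul (.var 1) (.var 1)) (.mul (.var 2) (.var 2)))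
    (.add (.mul (.var 3) (.var 3)) (.mul (.var 4) (.var 4)))
  have hs : ∀ y, s.val y = y 1 ^ 2 + y 2 ^ 2 + y 3 ^ 2 + y 4 ^ 2 := fun y => by
    simp only [s, Ex.val]; ring
  obtain ⟨q, hq⟩ := a2_poly Q fun j => if j = 0 then s else .var (j + 4)
  let d : Ex := .add (.mul (.add s .one) (.add s .one)) (.neg (.var 0))
  have hd : ∀ y, d.val y = (s.val y + 1) ^ 2 - y 0 := fun y => by simp only [d, Ex.val]; ring
  refine ⟨.add (.mul q q) (.mul d d), ?_⟩
  convert hQ using 3 with n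
  simp only [Ex.val]
  constructor
  · rintro ⟨y, h0, h1⟩
    have h2 : q.val y = 0 := by nlinarith [mul_self_nonneg (q.val y), mul_self_nonneg (d.val y)]
    have h3 : d.val y = 0 := by nlinarith [mul_self_nonneg (q.val y), mul_self_nonneg (d.val y)]
    rw [hd, h0] at h3
    have h4 : 0 ≤ s.val y := by rw [hs]; positivity
    have h5 : s.val y = n := by
      have : (s.val y - n) * (s.val y + n + 2) = 0 := by linear_combination h3
      rcases mul_eq_zero.1 this with h | h <;> omega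
    exact ⟨_, by simpa using h5, (hq y).symm.trans h2⟩
  · rintro ⟨y, h0, h1⟩
    obtain ⟨a, b, u, v, e⟩ := Nat.sum_four_squares n
    let y' : ℕ → ℤ := fun j => if j = 0 then (n + 1) ^ 2 else if j = 1 then a else if j = 2 then b
      else if j = 3 then u else if j = 4 then v else y (j - 4)
    have h5 : s.val y' = n := by
      rw [hs, ← e]; simp [y']
    have h6 : (fun j => (if j = 0 then s else Ex.var (j + 4)).val y') = y := by
      funext j
      by_cases hj : j = 0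
      · rw [if_pos hj, h5, hj, h0]
      · rw [if_neg hj]
        simp only [Ex.val, y']
        rw [if_neg (by omega), if_neg (by omega), if_neg (by omega), if_neg (by omega),
          if_neg (by omega), Nat.add_sub_cancel]
    refine ⟨y', by simp [y'], ?_⟩
    rw [hq, h6, h1, hd, h5]
    simp [y']
-- END A2

end Pool.Agent.Lib.MP_b1b13a_lc.Dk
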