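import Mathlib

/-! Holomorphic functions on the upper half plane: the Legendre family and the coding of the
integers by its sections. -/

set_option autoImplicit false

noncomputable section

namespace Pool.Agent.Lib.MP_b1b13a_lc.Dk

open Complex Set

/-- the upper half plane -/
def UH : Set ℂ := {τ | 0 < τ.im}

/-- holomorphic on the upper half plane -/
def Hol (f : ℂ → ℂ) : Prop := DifferentiableOn ℂ f UH

/-- `z` lies in the lattice spanned by `1` and `τ` -/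
def Lat (τ z : ℂ) : Prop := ∃ m n : ℤ, z = m + n * τ

theorem indep_one {τ : ℂ} (h : 0 < τ.im) : LinearIndependent ℝ ![(1 : ℂ), τ] := by
  rw [LinearIndependent.pair_iff]
  intro s t e
  have h1 := congrArg Complex.im e
  have h2 := congrArg Complex.re e
  simp at h1 h2
  have ht : t = 0 := h1.resolve_right h.ne'
  rw [ht] at h2
  exact ⟨by simpa using h2, ht⟩

/-- the periods `1, τ` -/
def pp (τ : ℂ) : PeriodPair :=
  if h : 0 < τ.im then ⟨1, τ, indep_one h⟩ else ⟨1, I, indep_one (by simp)⟩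

def wp (w τ : ℂ) : ℂ := (pp τ).weierstrassP w
def wq (w τ : ℂ) : ℂ := (pp τ).derivWeierstrassP w
def eA (τ : ℂ) : ℂ := wp (τ / 2) τ
def eB (τ : ℂ) : ℂ := wp (1 / 2) τ
def eC (τ : ℂ) : ℂ := wp ((1 + τ) / 2) τ
def DD (τ : ℂ) : ℂ := eB τ - eA τ

/-- the modular function -/
def lam (τ : ℂ) : ℂ := (eC τ - eA τ) / DD τ

/-- the Legendre coordinate -/
def XX (w τ : ℂ) : ℂ := (wp w τ - eA τ) / DD τ

/-- pairs `(w, τ)` with `w` off the lattice -/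
def Om : Set (ℂ × ℂ) := {q | q.2 ∈ UH ∧ ¬ Lat q.2 q.1}

def mob (a b c d : ℤ) (τ : ℂ) : ℂ := (a * τ + b) / (c * τ + d)

/-- the group of deck transformations -/
def G2 (a b c d : ℤ) : Prop := a * d - b * c = 1 ∧ a % 4 = 1 ∧ b % 2 = 0 ∧ c % 2 = 0 ∧ d % 4 = 1

/-- the flat section through `v` -/
def bt (v τ : ℂ) : ℂ := v.re + v.im * τ

open Classical in
/-- extension by zero -/
def ext0 {U : Set ℂ} (f : U → ℂ) (z : ℂ) : ℂ := if h : z ∈ U then f ⟨z, h⟩ else 0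

theorem ext0_of {U : Set ℂ} (f : U → ℂ) {z : ℂ} (h : z ∈ U) : ext0 f z = f ⟨z, h⟩ := dif_pos h

/-- the ring of holomorphic functions on `U` -/
def OS (U : Set ℂ) : Subring (U → ℂ) where
  carrier := {f | DifferentiableOn ℂ (ext0 f) U}
  mul_mem' {f g} hf hg := (DifferentiableOn.mul hf hg).congr fun z hz => by
    simp only [ext0_of _ hz, Pi.mul_apply]
  one_mem' := (differentiableOn_const (1 : ℂ)).congr fun z hz => by
    simp only [ext0_of _ hz, Pi.one_apply]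
  add_mem' {f g} hf hg := (DifferentiableOn.add hf hg).congr fun z hz => by
    simp only [ext0_of _ hz, Pi.add_apply]
  zero_mem' := (differentiableOn_const (0 : ℂ)).congr fun z hz => by
    simp only [ext0_of _ hz, Pi.zero_apply]
  neg_mem' {f} hf := (DifferentiableOn.neg hf).congr fun z hz => by
    simp only [ext0_of _ hz, Pi.neg_apply]

abbrev O (U : Set ℂ) : Type := OS U

/-- the function of an element -/
def fn {U : Set ℂ} (f : O U) : ℂ → ℂ := ext0 f.1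

/-- evaluation at a point -/
def ev {U : Set ℂ} (z : ℂ) (hz : z ∈ U) : O U →+* ℂ :=
  (Pi.evalRingHom (fun _ : U => ℂ) ⟨z, hz⟩).comp (OS U).subtype

/-- the element of a function -/
def mk {U : Set ℂ} (F : ℂ → ℂ) (hF : DifferentiableOn ℂ F U) : O U :=
  ⟨fun z => F z, hF.congr fun _ hz => ext0_of _ hz⟩

/-- a polynomial term -/
def Tm {α : Type} (f : (R : Type) → [CommRing R] → (α → R) → R) : Prop :=
  ∃ p : MvPolynomial α ℤ, ∀ (R : Type) [CommRing R] (v : α → R),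
    f R v = MvPolynomial.eval₂ (Int.castRingHom R) v p

/-- a positive existential relation, uniformly in the ring -/
def PE {α : Type} (S : (R : Type) → [CommRing R] → (α → R) → Prop) : Prop :=
  ∃ (β : Type) (_ : Countable β) (ps : List (MvPolynomial (α ⊕ β) ℤ)),
    ∀ (R : Type) [CommRing R] (v : α → R), S R v ↔
      ∃ t : β → R, ∀ p ∈ ps, MvPolynomial.eval₂ (Int.castRingHom R) (Sum.elim v t) p = 0

/-- the fixed elements -/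
structure Cx (R : Type) where
  i : R
  τ : R
  l : R
  δ : R
  p0 : R × R
  r0 : R × R
  b0 : R × R

section Gadgets
variable {R : Type} [CommRing R] (c : Cx R)

def Sec (P : R × R) : Prop := P.2 ∣ 1 ∧ P.2 ^ 2 = c.δ * (P.1 * (P.1 - 1) * (P.1 - c.l))

def Ad (P Q S : R × R) : Prop := ∃ m : R, P.1 - Q.1 ∣ 1 ∧ m * (P.1 - Q.1) = P.2 - Q.2 ∧
  c.δ * (P.1 + Q.1 + S.1 - 1 - c.l) = m ^ 2 ∧ S.2 = -(P.2 + m * (S.1 - P.1))

def Cm (g : R) (P Q : R × R) : Prop := g ∣ Q.1 + P.1 - 1 ∧ g ∣ Q.2 - c.i * P.2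

def Jm (P Q : R × R) : Prop := Cm c (c.τ - c.i) P Q

def Pt (g : R) : Prop := g ∣ 2 * c.l - 1 ∧ (g - 1) * (g - c.l) ∣ 1 ∧ (∃ r : R, r ^ 2 = g - c.l) ∧
  (∃ h : R, h * (1 - h) ∣ 1 ∧ c.τ - c.i ∣ h - g ∧ 500 * c.τ - 501 * c.i ∣ 2 * h - 1) ∧
  ∃ P : R × R, Sec c P ∧ c.τ - c.i ∣ g - P.1 ∧ ∃ a b : R, a * (g - P.1) + b * (c.τ - 2 * c.i) = 1

def Ok1 : Prop := c.l * (1 - c.l) ∣ 1 ∧ c.τ - c.i ∣ 2 * c.l - 1 ∧ c.τ - 1 - c.i ∣ c.l + 1 ∧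
  c.τ + 1 - c.i ∣ c.l + 1 ∧ Sec c c.p0 ∧ c.τ - c.i ∣ 4 * c.p0.1 - 5

def Ok2 : Prop := Sec c c.r0 ∧ Sec c c.b0 ∧ Jm c c.p0 c.r0 ∧ ∃ S T : R × R, Sec c S ∧ Sec c T ∧
  Ad c c.p0 c.r0 S ∧ Jm c S T ∧ Ad c T (S.1, -S.2) c.b0

def Eq4 (A B C D : R × R) : Prop := ∃ A' C' E : R × R, Sec c A' ∧ Sec c C' ∧ Sec c E ∧
  Ad c A c.r0 A' ∧ Ad c A' B E ∧ Ad c C c.r0 C' ∧ Ad c C' D E

def Sc (g : R) (U W : R × R) : Prop := ∃ U1 U2 U3 U4 : R × R,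
  Sec c U1 ∧ Sec c U2 ∧ Sec c U3 ∧ Sec c U4 ∧ Sec c W ∧
  Jm c U U1 ∧ Cm c g U1 U2 ∧ Cm c g U U3 ∧ Jm c U3 U4 ∧ Ad c U2 U4 W

def Pl (A B C : R × R) : Prop := Eq4 c A B C c.b0

def Dom (A : R × R) : Prop := ∃ (g1 g2 g3 : R) (A1 A2 A3 : R × R), Pt c g1 ∧ Pt c g2 ∧ Pt c g3 ∧
  Sc c g1 c.p0 A1 ∧ Sc c g2 c.p0 A2 ∧ Sc c g3 c.p0 A3 ∧ Sec c A ∧ Eq4 c A1 A2 A3 A

def Ml (X Y Z : R × R) : Prop :=
  ∃ (g1 g2 g3 : R) (A1 A2 A3 W1 W2 W3 W Z2 Z3 K V1 V2 : R × R), Pt c g1 ∧ Pt c g2 ∧ Pt c g3 ∧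
    Sc c g1 c.p0 A1 ∧ Sc c g2 c.p0 A2 ∧ Sc c g3 c.p0 A3 ∧ Sc c g1 Y W1 ∧ Sc c g2 Y W2 ∧
    Sc c g3 Y W3 ∧ Sec c W ∧ Sec c Z2 ∧ Sec c Z3 ∧ Sec c K ∧ Sec c V1 ∧ Sec c V2 ∧
    Eq4 c A1 A2 A3 X ∧ Eq4 c W1 W2 W3 W ∧ Dom c Z ∧ Pl c Z Z Z2 ∧ Pl c Z2 X Z3 ∧ Pl c Z3 Y K ∧
    Ad c W c.r0 V1 ∧ Ad c V1 K V2 ∧ Ad c V2 K c.r0

def Par (k : R) (A : R × R) : Prop := Sc c (c.τ - c.i - 2 * (k + 1)) c.p0 A

end Gadgets

/-- integer expressions -/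
inductive Ex where
  | var (j : ℕ) : Ex
  | one : Ex
  | neg (a : Ex) : Ex
  | add (a b : Ex) : Ex
  | mul (a b : Ex) : Ex

def Ex.val (y : ℕ → ℤ) : Ex → ℤ
  | .var j => y j
  | .one => 1
  | .neg a => -a.val y
  | .add a b => a.val y + b.val y
  | .mul a b => a.val y * b.val y

def Ex.bd : Ex → ℕ
  | .var j => j + 1
  | .one => 0
  | .neg a => a.bd
  | .add a b => max a.bd b.bd
  | .mul a b => max a.bd b.bd

/-- the graph of an expression -/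
def Gr {R : Type} [CommRing R] (c : Cx R) (A : ℕ → R × R) : Ex → R × R → Prop
  | .var j, W => W.1 = (A j).1 ∧ W.2 = (A j).2
  | .one, W => Par c 0 W
  | .neg a, W => ∃ X : R × R, Gr c A a X ∧ Sec c W ∧ Pl c X W c.b0
  | .add a b, W => ∃ X Y : R × R, Gr c A a X ∧ Gr c A b Y ∧ Sec c W ∧ Pl c X Y W
  | .mul a b, W => ∃ X Y : R × R, Gr c A a X ∧ Gr c A b Y ∧ Ml c X Y W

/-- the coded equation -/
def Eqn {R : Type} [CommRing R] (c : Cx R) (e : Ex) (k : R) : Prop :=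
  Ok2 c ∧ ∃ A : ℕ → R × R, (∀ j < e.bd + 1, Dom c (A j)) ∧ Par c k (A 0) ∧ Gr c A e c.b0

/-- the sentence on the half plane -/
def MainH {R : Type} [CommRing R] (e : Ex) (i τ k : R) : Prop :=
  ∃ (l : R) (p0 r0 b0 : R × R), Ok1 ⟨i, τ, l, 1, p0, r0, b0⟩ ∧ Eqn ⟨i, τ, l, 1, p0, r0, b0⟩ e k

/-- the sentence on the disc with coordinate `t` -/
def MainD {R : Type} [CommRing R] (e : Ex) (t k : R) : Prop :=
  ∃ i τ : R, i ^ 2 = -1 ∧ 1000 * τ * (1 - t) = 1001 * i * (1 + t) ∧ MainH e i τ k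

/-- what the coding uses on the sections; the last two members of `c` play no role -/
structure Mdl {R : Type} [CommRing R] (c : Cx R) (A : Type) [AddCommGroup A] where
  pt : R × R → A → Prop
  J : A →+ A
  a0 : A
  JJ : ∀ a, J (J a) = -a
  p0 : pt c.p0 a0
  nt : ∀ N : ℤ, N • a0 = 0 → N = 0
  ex : ∀ P, Sec c P → ∃ a, pt P a
  sec : ∀ P a, pt P a → Sec c P
  new : ∀ a, a + a ≠ 0 → ∃ P, pt P a
  inj : ∀ P a b, pt P a → pt P b → a = b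
  uniq : ∀ P Q a, pt P a → pt Q a → P = Q
  neg : ∀ P a, pt P a → pt (P.1, -P.2) (-a)
  ad : ∀ P Q S a b d, pt P a → pt Q b → pt S d → Ad c P Q S → a + b = d
  ad' : ∀ P Q S a b, pt P a → pt Q b → pt S (a + b) → a ≠ b → a + b ≠ 0 → Ad c P Q S
  jm : ∀ P Q a b, pt P a → pt Q b → (Jm c P Q ↔ b = J a)
  cm : ∀ g, Pt c g → ∃ (M : A →+ A) (m : ℤ), (∀ a, M (J a) + J (M a) = (-(4 * m + 2)) • a) ∧
    ∀ P Q a b, pt P a → pt Q b → Cm c g P Q → b = M a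
  sq : ∀ j : ℤ, j ≠ 0 → ∃ M : A →+ A, (∀ a, M (M a) = -a) ∧
    (∀ a, M (J a) + J (M a) = (-(4 * j ^ 2 + 2)) • a) ∧
    ∀ P Q a b, pt P a → pt Q b → (Cm c (c.τ - c.i - 2 * j) P Q ↔ b = M a)
  big : ∃ j0 : ℤ, ∀ j : ℤ, j0 ≤ j → ∃ g, Pt c g ∧ g ∣ c.τ - c.i - 2 * j

end Pool.Agent.Lib.MP_b1b13a_lc.Dk
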