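import Pool.Agent.Lib.MP_b1b13a_lc.Dk.Wp
import Pool.Agent.Lib.MP_102662_an.Koebe

set_option autoImplicit false

noncomputable section

namespace Pool.Agent.Lib.MP_b1b13a_lc.Dk

open Complex Set Filter Topology

-- BEGIN RA
theorem ev_eq {U : Set ℂ} (f : O U) {z : ℂ} (hz : z ∈ U) : ev z hz f = fn f z :=
  (ext0_of f.1 hz).symm

theorem hol_fn {U : Set ℂ} (f : O U) : DifferentiableOn ℂ (fn f) U := f.2

theorem ev_mk {U : Set ℂ} (F : ℂ → ℂ) (hF : DifferentiableOn ℂ F U) {z : ℂ} (hz : z ∈ U) :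
    ev z hz (mk F hF) = F z := rfl

theorem O_ext {U : Set ℂ} {f g : O U} (h : ∀ z hz, ev z hz f = ev z hz g) : f = g :=
  Subtype.ext (funext fun z => h z.1 z.2)

theorem unit_iff {U : Set ℂ} (f : O U) : f ∣ 1 ↔ ∀ z hz, ev z hz f ≠ 0 := by
  constructor
  · rintro ⟨g, hg⟩ z hz h0
    have h1 := congrArg (ev z hz) hg
    rw [map_one, map_mul, h0, zero_mul] at h1
    exact one_ne_zero h1
  · intro h
    have h' : ∀ z ∈ U, fn f z ≠ 0 := fun z hz => ev_eq f hz ▸ h z hz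
    refine ⟨mk (fun z => (fn f z)⁻¹) ((hol_fn f).inv h'), O_ext fun z hz => ?_⟩
    rw [map_one, map_mul, ev_mk, ev_eq, mul_inv_cancel₀ (h' z hz)]

theorem dvd_iff {U : Set ℂ} (hU : IsOpen U) {f : O U} {c : ℂ} (hc : c ∈ U)
    (hf : ∀ z hz, ev z hz f = z - c) (g : O U) : f ∣ g ↔ ev c hc g = 0 := by
  constructor
  · rintro ⟨k, rfl⟩
    rw [map_mul, hf, sub_self, zero_mul]
  · intro h0
    have hd : DifferentiableOn ℂ (dslope (fn g) c) U :=
      (Complex.differentiableOn_dslope (hU.mem_nhds hc)).2 (hol_fn g)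
    refine ⟨mk _ hd, O_ext fun z hz => ?_⟩
    have h1 := sub_smul_dslope (fn g) c z
    rw [ev_eq] at h0
    rw [map_mul, hf, ev_mk, ev_eq, ← smul_eq_mul, h1, h0, sub_zero]

/-- composition with a holomorphic map -/
theorem exists_pull {U V : Set ℂ} {φ : ℂ → ℂ} (hφ : DifferentiableOn ℂ φ V)
    (hm : ∀ z ∈ V, φ z ∈ U) :
    ∃ T : O U →+* O V, ∀ f z hz, ev z hz (T f) = ev (φ z) (hm z hz) f := by
  have hd : ∀ f : O U, DifferentiableOn ℂ (fun z => fn f (φ z)) V := fun f =>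
    (hol_fn f).comp hφ hm
  have key : ∀ (f : O U) z hz, ev z hz (mk _ (hd f)) = ev (φ z) (hm z hz) f := fun f z hz => by
    rw [ev_mk, ev_eq]
  refine ⟨⟨⟨⟨fun f => mk _ (hd f), O_ext fun z hz => ?_⟩, fun f g => O_ext fun z hz => ?_⟩,
    O_ext fun z hz => ?_, fun f g => O_ext fun z hz => ?_⟩, key⟩
  · rw [key, map_one, map_one]
  · simp only [key, map_mul]
  · simp only [key, map_zero]
  · simp only [key, map_add]

/-- reflection in the real axis -/
theorem exists_conj {U : Set ℂ} (hU : IsOpen U) (hm : ∀ z ∈ U, (starRingEnd ℂ) z ∈ U) :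
    ∃ T : O U →+* O U, ∀ f z hz,
      ev z hz (T f) = (starRingEnd ℂ) (ev ((starRingEnd ℂ) z) (hm z hz) f) := by
  have hd : ∀ f : O U, DifferentiableOn ℂ
      (fun z => (starRingEnd ℂ) (fn f ((starRingEnd ℂ) z))) U := fun f z hz => by
    have h1 : DifferentiableAt ℂ (fn f) ((starRingEnd ℂ) z) :=
      (hol_fn f).differentiableAt (hU.mem_nhds (hm z hz))
    have h2 := h1.conj_conj
    rw [Complex.conj_conj] at h2
    exact h2.differentiableWithinAt
  have key : ∀ (f : O U) z hz, ev z hz (mk _ (hd f)) =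
      (starRingEnd ℂ) (ev ((starRingEnd ℂ) z) (hm z hz) f) := fun f z hz => by
    rw [ev_mk, ev_eq]
  refine ⟨⟨⟨⟨fun f => mk _ (hd f), O_ext fun z hz => ?_⟩, fun f g => O_ext fun z hz => ?_⟩,
    O_ext fun z hz => ?_, fun f g => O_ext fun z hz => ?_⟩, key⟩
  · rw [key, map_one, map_one, map_one]
  · simp only [key, map_mul]
  · simp only [key, map_zero]
  · simp only [key, map_add]

theorem sq_neg_one {U : Set ℂ} (hU : IsPreconnected U) {i : O U} (h : i ^ 2 = -1) :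
    (∀ z hz, ev z hz i = I) ∨ ∀ z hz, ev z hz i = -I := by
  have hsq : EqOn (fn i ^ 2) ((fun _ : ℂ => I) ^ 2) U := fun z hz => by
    have h1 := congrArg (ev z hz) h
    rw [map_pow, map_neg, map_one, ev_eq] at h1
    simp only [Pi.pow_apply, h1, I_sq]
  rcases hU.eq_or_eq_neg_of_sq_eq (hol_fn i).continuousOn continuousOn_const hsq
    (fun _ => I_ne_zero) with k | k
  · exact Or.inl fun z hz => by rw [ev_eq]; exact k hz
  · exact Or.inr fun z hz => by rw [ev_eq]; exact k hz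

theorem exists_inv {U V : Set ℂ} (hU : IsOpen U) {t : ℂ → ℂ} (ht : DifferentiableOn ℂ t U)
    (hb : BijOn t U V) :
    ∃ s, DifferentiableOn ℂ s V ∧ (∀ z ∈ V, s z ∈ U ∧ t (s z) = z) := by
  refine ⟨Function.invFunOn t U, fun z hz => ?_, fun z hz =>
    ⟨Function.invFunOn_mem (hb.surjOn hz), Function.invFunOn_eq (hb.surjOn hz)⟩⟩
  obtain ⟨w, hw, rfl⟩ := hb.surjOn hz
  obtain ⟨d, hd, hs⟩ := Metric.isOpen_iff.1 hU w hw
  have h0 : deriv t w ≠ 0 :=
    MP_102662_an.univ_deriv_ne hd (ht.mono hs) (hb.injOn.mono hs)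
  have h1 : HasStrictDerivAt t (deriv t w) w :=
    (ht.analyticAt (hU.mem_nhds hw)).hasStrictDerivAt
  have h2 : ∀ᶠ x in 𝓝 w, Function.invFunOn t U (t x) = x := by
    filter_upwards [hU.mem_nhds hw] with x hx
    exact hb.injOn.leftInvOn_invFunOn hx
  exact (h1.to_local_left_inverse h0 h2).hasDerivAt.differentiableAt.differentiableWithinAt
-- END RA

end Pool.Agent.Lib.MP_b1b13a_lc.Dk
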