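import Pool.Agent.Lib.MP_b1b13a_lc.Dk.Punct
import Pool.Agent.Lib.MP_b1b13a_lc.Dk.Ring

set_option autoImplicit false

noncomputable section

namespace Pool.Agent.Lib.MP_b1b13a_lc.Dk

open Complex Set Filter Topology

-- BEGIN MD
/-- the Gaussian integers -/
def Zi : AddSubgroup ℂ where
  carrier := {z | Lat I z}
  add_mem' := Lat.add
  zero_mem' := Lat.zero I
  neg_mem' := Lat.neg

theorem md_eq {v w : ℂ} : (v : ℂ ⧸ Zi) = w ↔ Lat I (w - v) := by
  rw [QuotientAddGroup.eq, neg_add_eq_sub]; rfl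

theorem md_zero {v : ℂ} : (v : ℂ ⧸ Zi) = 0 ↔ Lat I v := QuotientAddGroup.eq_zero_iff v

/-- an integer matrix of trace zero acting on real and imaginary part -/
def Mc (α β γ : ℤ) : ℂ →+ ℂ where
  toFun v := ⟨v.re * α + v.im * β, v.re * γ - v.im * α⟩
  map_zero' := by apply Complex.ext <;> simp
  map_add' v w := by apply Complex.ext <;> simp <;> ring

def Mq (α β γ : ℤ) : ℂ ⧸ Zi →+ ℂ ⧸ Zi := QuotientAddGroup.map Zi Zi (Mc α β γ) (by
  rintro z ⟨m, n, rfl⟩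
  exact ⟨m * α + n * β, m * γ - n * α, by apply Complex.ext <;> simp [Mc]⟩)

theorem Mq_mk (α β γ : ℤ) (v : ℂ) : Mq α β γ (v : ℂ ⧸ Zi) = (Mc α β γ v : ℂ) := rfl

theorem Mq_sq {α β γ : ℤ} (h : α ^ 2 + β * γ = -1) (a : ℂ ⧸ Zi) : Mq α β γ (Mq α β γ a) = -a := by
  induction a using QuotientAddGroup.induction_on with
  | H v =>
    rw [Mq_mk, Mq_mk, ← QuotientAddGroup.mk_neg]
    congr 1
    have h' : (α : ℝ) ^ 2 + β * γ = -1 := by exact_mod_cast h
    apply Complex.ext <;> simp [Mc]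
    · linear_combination v.re * h'
    · linear_combination v.im * h'

theorem Mq_anti (α β γ : ℤ) (a : ℂ ⧸ Zi) :
    Mq α β γ (Mq 0 (-1) 1 a) + Mq 0 (-1) 1 (Mq α β γ a) = (β - γ) • a := by
  induction a using QuotientAddGroup.induction_on with
  | H v =>
    rw [Mq_mk, Mq_mk, Mq_mk, Mq_mk, ← QuotientAddGroup.mk_add, ← QuotientAddGroup.mk_zsmul]
    congr 1
    apply Complex.ext <;> simp [Mc] <;> ring

theorem bt_Mc {c : ℂ} {α β γ : ℤ} (h1 : I = α + γ * c) (h2 : I * c = β - α * c) (v : ℂ) :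
    bt (Mc α β γ v) c = I * bt v c := by
  simp only [bt, Mc, AddMonoidHom.coe_mk, ZeroHom.coe_mk]
  push_cast
  linear_combination (-v.re) * h1 - v.im * h2

theorem md_nl {v z : ℂ} (hv : ¬ Lat I (2 * v)) (hz : z ∈ UH) :
    ¬ Lat z (bt v z) ∧ ¬ Lat z (2 * bt v z) :=
  ⟨fun e => hv ((lat_bt hz v).1 e).two, fun e => hv ((lat_bt hz _).1 (by rwa [bt_two]))⟩

theorem md_per {v w z : ℂ} (h : Lat I (w - v)) (hz : z ∈ UH) :
    XX (bt w z) z = XX (bt v z) z ∧ wq (bt w z) z = wq (bt v z) z := by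
  have e : bt w z = bt v z + bt (w - v) z := by rw [bt_sub]; ring
  have hl := (lat_bt hz _).2 h
  rw [e]
  exact ⟨XX_per hz hl _, (wp_per hz hl _).2⟩

theorem md_D {z : ℂ} (hz : z ∈ UH) : 4 * DD z ^ 3 ≠ 0 :=
  mul_ne_zero (by norm_num) (pow_ne_zero 3 (DD_ne hz))

theorem md_holD : Hol fun z => 4 * DD z ^ 3 :=
  (differentiableOn_const (4 : ℂ)).mul (DifferentiableOn.pow hol_DD 3)

/-- `P` is the flat section through `a` -/
def Ptc {W : Set ℂ} (ε : ℂ → ℂ) (P : O W × O W) (a : ℂ ⧸ Zi) : Prop :=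
  ∃ v : ℂ, (v : ℂ ⧸ Zi) = a ∧ ¬ Lat I (2 * v) ∧
    ∀ z hz, ev z hz P.1 = XX (bt v z) z ∧ ev z hz P.2 = ε z * wq (bt v z) z

/-- the half plane or the punctured half plane -/
structure Hw (W : Set ℂ) : Prop where
  o : IsOpen W
  lo : HS ⊆ W
  up : W ⊆ UH

theorem md_hs {z : ℂ} (h : 0 < z.im) (k : z.re ≠ 0 ∨ z.im ≠ 1001 / 1000) : z ∈ HS :=
  ⟨h, fun e => by
    rw [mem_singleton_iff.1 e] at k
    simp [c0] at k⟩

theorem md_I : I ∈ HS := md_hs (by simp) (Or.inr (by norm_num))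
theorem md_two_I : 2 * I ∈ HS := md_hs (by simp) (Or.inr (by norm_num))
theorem md_q1 : q1 ∈ HS := md_hs (by simp [q1]) (Or.inr (by norm_num [q1]))
theorem md_cj (j : ℤ) : I + 2 * j ∈ HS := md_hs (by simp) (Or.inr (by norm_num))
theorem md_p1 : 1 + I ∈ HS := md_hs (by simp) (Or.inr (by norm_num))
theorem md_p2 : -1 + I ∈ HS := md_hs (by simp) (Or.inr (by norm_num))

theorem Hw.ext {W : Set ℂ} (hW : Hw W) {f g : ℂ → ℂ} (hf : DifferentiableOn ℂ f W) (hg : Hol g)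
    (h : ∀ z ∈ HS, f z = g z) {z : ℂ} (hz : z ∈ W) : f z = g z := by
  by_cases e : z = c0
  · refine tendsto_nhds_unique_of_eventuallyEq (l := 𝓝[≠] z)
      ((hf.differentiableAt (hW.o.mem_nhds hz)).continuousAt.tendsto.mono_left nhdsWithin_le_nhds)
      ((DifferentiableOn.differentiableAt hg (isOpen_UH.mem_nhds (hW.up hz))).continuousAt.tendsto
        |>.mono_left nhdsWithin_le_nhds) ?_
    filter_upwards [mem_nhdsWithin_of_mem_nhds (isOpen_UH.mem_nhds (hW.up hz)),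
      self_mem_nhdsWithin] with w h1 h2
    exact h w ⟨h1, e ▸ h2⟩
  · exact h z ⟨hW.up hz, e⟩

theorem sec_class_p {x y : ℂ → ℂ} (hx : DifferentiableOn ℂ x HS) (hy : DifferentiableOn ℂ y HS)
    (h0 : ∀ τ ∈ HS, y τ ≠ 0)
    (h : ∀ τ ∈ HS, y τ ^ 2 = 4 * DD τ ^ 3 * (x τ * (x τ - 1) * (x τ - lam τ))) :
    ∃ v, ¬ Lat I (2 * v) ∧ ∀ τ ∈ HS, x τ = XX (bt v τ) τ ∧ y τ = wq (bt v τ) τ := by
  obtain ⟨u, hu, k⟩ := wp_lift_p hx hy h0 h
  obtain ⟨v, hv⟩ := flat_p hu fun τ hτ => (k τ hτ).1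
  refine ⟨v, ?_, fun τ hτ => by rw [← hv τ hτ.1]; exact ⟨(k τ hτ).2.1.symm, (k τ hτ).2.2.symm⟩⟩
  have := (wq_ne I_mem (k I md_I).1).1 (by rw [(k I md_I).2.2]; exact h0 I md_I)
  rwa [hv I I_mem, bt_I] at this

theorem md_hol {v : ℂ} (hv : ¬ Lat I (2 * v)) :
    (Hol fun z => XX (bt v z) z) ∧ Hol fun z => wq (bt v z) z := by
  have hm : ∀ τ ∈ UH, (bt v τ, τ) ∈ Om := fun τ hτ => ⟨hτ, (md_nl hv hτ).1⟩
  exact ⟨XX_fam isOpen_UH (hol_bt v).differentiableOn hm,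
    wq_fam isOpen_UH (hol_bt v).differentiableOn hm⟩

section
variable {W : Set ℂ} {c : Cx (O W)} {ε : ℂ → ℂ}

theorem md_new (hW : Hw W) (hε : Hol ε) {v : ℂ} (hv : ¬ Lat I (2 * v)) : ∃ P : O W × O W,
    ∀ z hz, ev z hz P.1 = XX (bt v z) z ∧ ev z hz P.2 = ε z * wq (bt v z) z :=
  ⟨(mk _ (DifferentiableOn.mono (md_hol hv).1 hW.up), mk (fun z => ε z * wq (bt v z) z)
      ((DifferentiableOn.mul hε (md_hol hv).2).mono hW.up)),
    fun _ hz => ⟨ev_mk _ _ hz, ev_mk _ _ hz⟩⟩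

theorem md_sec (hW : Hw W) (hl : ∀ z hz, ev z hz c.l = lam z) (h0 : ∀ z ∈ UH, ε z ≠ 0)
    (hδ : ∀ z hz, ev z hz c.δ = ε z ^ 2 * (4 * DD z ^ 3)) {P : O W × O W} {v : ℂ}
    (hv : ¬ Lat I (2 * v))
    (h : ∀ z hz, ev z hz P.1 = XX (bt v z) z ∧ ev z hz P.2 = ε z * wq (bt v z) z) : Sec c P := by
  refine ⟨(unit_iff _).2 fun z hz => ?_, O_ext fun z hz => ?_⟩
  · rw [(h z hz).2]
    have hz' := hW.up hz
    exact mul_ne_zero (h0 z hz') ((wq_ne hz' (md_nl hv hz').1).2 (md_nl hv hz').2)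
  · simp only [map_pow, map_mul, map_sub, map_one, (h z hz).1, (h z hz).2, hl, hδ, mul_pow,
      wq_sq (hW.up hz) (md_nl hv (hW.up hz)).1]
    ring

theorem md_ex (hW : Hw W) (hl : ∀ z hz, ev z hz c.l = lam z) (hε : Hol ε) (h0 : ∀ z ∈ UH, ε z ≠ 0)
    (hδ : ∀ z hz, ev z hz c.δ = ε z ^ 2 * (4 * DD z ^ 3)) {P : O W × O W} (h : Sec c P) :
    ∃ v, ¬ Lat I (2 * v) ∧
      ∀ z hz, ev z hz P.1 = XX (bt v z) z ∧ ev z hz P.2 = ε z * wq (bt v z) z := by
  obtain ⟨v, hv, k⟩ := sec_class_p (x := fn P.1) (y := fun z => fn P.2 z / ε z)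
    ((hol_fn _).mono hW.lo)
    (DifferentiableOn.div ((hol_fn _).mono hW.lo) (DifferentiableOn.mono hε HS_sub)
      fun z hz => h0 z hz.1)
    (fun z hz => div_ne_zero
      (by rw [← ev_eq _ (hW.lo hz)]; exact (unit_iff _).1 h.1 z (hW.lo hz)) (h0 z hz.1))
    (fun z hz => by
      have := congrArg (ev z (hW.lo hz)) h.2
      simp only [map_pow, map_mul, map_sub, map_one, hl, hδ] at this
      rw [← ev_eq _ (hW.lo hz), ← ev_eq _ (hW.lo hz), div_pow, this]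
      field_simp [h0 z hz.1])
  refine ⟨v, hv, fun z hz => ⟨?_, ?_⟩⟩
  · rw [ev_eq]
    exact hW.ext (hol_fn _) (md_hol hv).1 (fun w hw => (k w hw).1) hz
  · rw [ev_eq]
    refine hW.ext (g := fun z => ε z * wq (bt v z) z) (hol_fn _)
      (DifferentiableOn.mul hε (md_hol hv).2) (fun w hw => ?_) hz
    rw [← (k w hw).2]
    field_simp [h0 w hw.1]

theorem md_cm (hW : Hw W) (hi : ∀ z hz, ev z hz c.i = I) (h0 : ∀ z ∈ UH, ε z ≠ 0) {p : ℂ}
    (hp' : p ∈ W) (hl : lam p = 1 / 2) {α β γ : ℤ} (h1 : I = α + γ * p) (h2 : I * p = β - α * p)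
    {P Q : O W × O W} {a b : ℂ ⧸ Zi} (hP : Ptc ε P a) (hQ : Ptc ε Q b) :
    (ev p hp' (Q.1 + P.1 - 1) = 0 ∧ ev p hp' (Q.2 - c.i * P.2) = 0) ↔ b = Mq α β γ a := by
  have hp := hW.up hp'
  obtain ⟨v, rfl, hv, kv⟩ := hP
  obtain ⟨w, rfl, hw, kw⟩ := hQ
  obtain ⟨c1, c2, c3⟩ := cm_xy hp hl h1 h2 (bt v p)
  rw [← bt_Mc h1 h2] at c1 c2 c3
  simp only [map_add, map_sub, map_mul, map_one, hi, (kv p hp').1, (kv p hp').2, (kw p hp').1,
    (kw p hp').2]
  rw [Mq_mk, eq_comm (a := (w : ℂ ⧸ Zi)), md_eq]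
  constructor
  · rintro ⟨e1, e2⟩
    rw [← lat_bt hp, bt_sub]
    refine xy_inj hp (md_nl hw hp).1 (fun e => (md_nl hv hp).1 (c1.1 e))
      (by linear_combination e1 - c2) (mul_left_cancel₀ (h0 p hp) ?_)
    linear_combination e2 - ε p * c3
  · intro e
    obtain ⟨e1, e2⟩ := md_per e hp
    rw [e1, e2, c2, c3]
    constructor <;> ring

theorem md_ad (hW : Hw W) (hl : ∀ z hz, ev z hz c.l = lam z) (h0 : ∀ z ∈ UH, ε z ≠ 0)
    (hδ : ∀ z hz, ev z hz c.δ = ε z ^ 2 * (4 * DD z ^ 3)) {P Q S : O W × O W}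
    {a b d : ℂ ⧸ Zi} (hP : Ptc ε P a) (hQ : Ptc ε Q b) (hS : Ptc ε S d) (h : Ad c P Q S) :
    a + b = d := by
  obtain ⟨u, rfl, hu, ku⟩ := hP
  obtain ⟨v, rfl, hv, kv⟩ := hQ
  obtain ⟨w, rfl, hw, kw⟩ := hS
  obtain ⟨m, e1, e2, e3, e4⟩ := h
  have hI := hW.lo md_I
  have f1 := (unit_iff _).1 e1 I hI
  have f2 := congrArg (ev I hI) e2
  have f3 := congrArg (ev I hI) e3
  have f4 := congrArg (ev I hI) e4
  simp only [map_add, map_sub, map_mul, map_one, map_pow, map_neg, hl, hδ, (ku I hI).1,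
    (ku I hI).2, (kv I hI).1, (kv I hI).2, (kw I hI).1, (kw I hI).2, bt_I] at f1 f2 f3 f4
  have hs : ¬ Lat I (u + v) := fun e => f1 (by
    have := XX_per I_mem e (-v)
    rw [XX_neg, add_comm u, neg_add_cancel_left] at this
    rw [this, sub_self])
  have hd : ¬ Lat I (u - v) := fun e => f1 (by
    have := XX_per I_mem e v
    rw [add_sub_cancel] at this
    rw [this, sub_self])
  have hε := h0 I I_mem
  obtain ⟨g1, g2⟩ := xy_add (m := ev I hI m / ε I) I_mem (fun e => hu e.two) hv hs hd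
    (by field_simp; linear_combination f2)
  have g3 : XX w I = XX (u + v) I := by
    apply mul_left_cancel₀ (mul_ne_zero (pow_ne_zero 2 hε)
      (md_D I_mem))
    rw [div_pow, eq_div_iff (pow_ne_zero 2 hε)] at g1
    linear_combination f3 - g1
  rw [← QuotientAddGroup.mk_add, md_eq]
  refine xy_inj I_mem (fun e => hw e.two) hs g3 (mul_left_cancel₀ hε ?_)
  rw [f4, g2, g3]
  field_simp

theorem md_ad' (hW : Hw W) (hl : ∀ z hz, ev z hz c.l = lam z) (h0 : ∀ z ∈ UH, ε z ≠ 0)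
    (hδ : ∀ z hz, ev z hz c.δ = ε z ^ 2 * (4 * DD z ^ 3)) {P Q S : O W × O W}
    {a b : ℂ ⧸ Zi} (hP : Ptc ε P a) (hQ : Ptc ε Q b) (hS : Ptc ε S (a + b)) (h1 : a ≠ b)
    (h2 : a + b ≠ 0) : Ad c P Q S := by
  obtain ⟨u, rfl, hu, ku⟩ := hP
  obtain ⟨v, rfl, hv, kv⟩ := hQ
  obtain ⟨w, ew, hw, kw⟩ := hS
  rw [← QuotientAddGroup.mk_add] at ew h2
  rw [eq_comm, md_eq] at ew
  have hs : ∀ z ∈ UH, ¬ Lat z (bt u z + bt v z) := fun z hz e =>
    h2 (md_zero.2 ((lat_bt hz _).1 (by rwa [bt_add])))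
  have hd : ∀ z ∈ UH, ¬ Lat z (bt u z - bt v z) := fun z hz e =>
    h1 (md_eq.2 ((lat_bt hz _).1 (by rwa [bt_sub]))).symm
  have hx : P.1 - Q.1 ∣ 1 := (unit_iff _).2 fun z hz e => by
    have hz' := hW.up hz
    rw [map_sub, (ku z hz).1, (kv z hz).1, sub_eq_zero] at e
    exact (x_eq hz' (md_nl hu hz').1 (md_nl hv hz').1 e).elim (hd z hz') (hs z hz')
  obtain ⟨k, hk⟩ := id hx
  have e2 : (P.2 - Q.2) * k * (P.1 - Q.1) = P.2 - Q.2 := by linear_combination (Q.2 - P.2) * hk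
  have key : ∀ z hz, 4 * DD z ^ 3 * (XX (bt u z) z + XX (bt v z) z + XX (bt w z) z - 1 - lam z) =
      (ev z hz ((P.2 - Q.2) * k) / ε z) ^ 2 ∧ wq (bt w z) z = -(wq (bt u z) z +
        ev z hz ((P.2 - Q.2) * k) / ε z * (XX (bt w z) z - XX (bt u z) z)) := fun z hz => by
    have hz' := hW.up hz
    obtain ⟨p1, p2⟩ := md_per ew hz'
    rw [p1, p2, bt_add]
    refine xy_add hz' (md_nl hu hz').1 (md_nl hv hz').2 (hs z hz') (hd z hz') ?_
    have f2 := congrArg (ev z hz) e2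
    rw [map_mul, map_sub (ev z hz) P.1, (ku z hz).1, (kv z hz).1] at f2
    rw [div_mul_eq_mul_div, f2, map_sub, (ku z hz).2, (kv z hz).2]
    field_simp [h0 z hz']
  refine ⟨(P.2 - Q.2) * k, hx, e2, O_ext fun z hz => ?_, O_ext fun z hz => ?_⟩
  · have := (key z hz).1
    rw [div_pow, eq_div_iff (pow_ne_zero 2 (h0 z (hW.up hz)))] at this
    rw [map_pow, ← this]
    simp only [map_add, map_sub, map_mul, map_one, hl, hδ, (ku z hz).1, (kv z hz).1, (kw z hz).1]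
    ring
  · rw [map_neg, map_add, map_mul, map_sub (ev z hz) S.1, (kw z hz).2, (key z hz).2, (ku z hz).2,
      (kw z hz).1, (ku z hz).1]
    field_simp [h0 z (hW.up hz)]

theorem md_dq (hW : Hw W) (hi : ∀ z hz, ev z hz c.i = I) (hτ : ∀ z hz, ev z hz c.τ = z)
    (g : O W) : 500 * c.τ - 501 * c.i ∣ g ↔ ev q1 (hW.lo md_q1) g = 0 := by
  have e : 500 * c.τ - 501 * c.i =
      500 * (c.τ - mk (fun _ => q1) (differentiableOn_const _)) := O_ext fun z hz => by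
    simp only [map_sub, map_mul, map_ofNat, hi, hτ, ev_mk, q1]; ring
  have u : IsUnit (500 : O W) := isUnit_of_dvd_one ((unit_iff _).2 fun z hz => by
    rw [map_ofNat]; norm_num)
  rw [e, u.mul_left_dvd]
  exact dvd_iff hW.o _ (fun z hz => by rw [map_sub, hτ, ev_mk]) g

theorem md_near : 2000 * ‖I - c0‖ ≤ ‖I + c0‖ ∧ 2000 * ‖q1 - c0‖ ≤ ‖q1 + c0‖ := by
  have e1 : I - c0 = -(1 / 1000 : ℝ) * I := by simp only [c0]; push_cast; ring
  have e2 : I + c0 = (2001 / 1000 : ℝ) * I := by simp only [c0]; push_cast; ring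
  have e3 : q1 - c0 = (1 / 1000 : ℝ) * I := by simp only [c0, q1]; push_cast; ring
  have e4 : q1 + c0 = (2003 / 1000 : ℝ) * I := by simp only [c0, q1]; push_cast; ring
  rw [e1, e2, e3, e4]
  simp only [norm_mul, norm_neg, norm_real, norm_I]
  norm_num

theorem md_omit (hW : Hw W) {h : O W} (k : h * (1 - h) ∣ 1) :
    ∀ τ ∈ HS, fn h τ ≠ 0 ∧ fn h τ ≠ 1 := fun w hw => by
  have := (unit_iff _).1 k w (hW.lo hw)
  rw [map_mul, map_sub, map_one, ev_eq] at this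
  exact ⟨left_ne_zero_of_mul this, (sub_ne_zero.1 (right_ne_zero_of_mul this)).symm⟩

theorem md_zero_pt (hW : Hw W) (hi : ∀ z hz, ev z hz c.i = I) (hτ : ∀ z hz, ev z hz c.τ = z)
    (hl : ∀ z hz, ev z hz c.l = lam z) (hε : Hol ε) (h0 : ∀ z ∈ UH, ε z ≠ 0)
    (hδ : ∀ z hz, ev z hz c.δ = ε z ^ 2 * (4 * DD z ^ 3)) {g : O W} (h : Pt c g) :
    ∃ p hp, ev p hp g = 0 := by
  by_contra hn
  push Not at hn
  obtain ⟨-, h2, ⟨r, hr⟩, ⟨h, k1, k2, k3⟩, P, hP, h3, a, b, h4⟩ := h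
  obtain ⟨w, hw, kw⟩ := md_ex hW hl hε h0 hδ hP
  have hI := hW.lo md_I
  have h2I := hW.lo md_two_I
  have dI : ∀ g, c.τ - c.i ∣ g ↔ ev I hI g = 0 :=
    dvd_iff hW.o hI fun z hz => by rw [map_sub, hi, hτ]
  have g1 : ∀ z ∈ HS, (fn g z - 1) * (fn g z - lam z) ≠ 0 := fun z hz => by
    have k := (unit_iff _).1 h2 z (hW.lo hz)
    simpa only [map_mul, map_sub, map_one, hl, ev_eq g] using k
  have g0 : ∀ z ∈ HS, fn g z ≠ 0 := fun z hz => by
    rw [← ev_eq _ (hW.lo hz)]; exact hn z _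
  obtain ⟨Φ, a1, a2, a3, a4⟩ := lam_ext ((hol_fn h).mono hW.lo) (md_omit hW k1) md_q1 md_near.2
    (σ := I) (by norm_num) (by norm_num) (by
      have := (md_dq hW hi hτ _).1 k3
      simp only [map_sub, map_mul, map_ofNat, map_one, ev_eq h] at this
      rw [lam_val.1]
      linear_combination -this / 2)
  obtain ⟨b1, b2⟩ := harnack a1 a3 a2
  obtain ⟨Ψ, c1, -, c3, c4⟩ := lam_ext ((hol_fn g).mono hW.lo)
    (fun z hz => ⟨g0 z hz, sub_ne_zero.1 (left_ne_zero_of_mul (g1 z hz))⟩) md_I md_near.1 b1 b2 (by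
      have := (dI _).1 k2
      rw [map_sub, ev_eq, ev_eq, sub_eq_zero] at this
      rw [a4 I md_I, this])
  have hG : Hol fun z => lam (Ψ z) := DifferentiableOn.comp hol_lam c1 c3
  have hne : ∀ z ∈ UH, 4 * DD z ^ 3 * (lam (Ψ z) * (lam (Ψ z) - 1)) ≠ 0 := fun z hz =>
    mul_ne_zero (md_D hz) (mul_ne_zero (lam_ne (c3 z hz)).1 (sub_ne_zero.2 (lam_ne (c3 z hz)).2))
  obtain ⟨y, hy, ky⟩ := hol_sqrt (f := fun z => 4 * DD z ^ 3 * (lam (Ψ z) * (lam (Ψ z) - 1)))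
    (DifferentiableOn.fun_mul md_holD (DifferentiableOn.fun_mul hG
      (DifferentiableOn.fun_sub hG (differentiableOn_const _)))) hne
  have kr : ∀ z ∈ HS, fn r z ^ 2 = fn g z - lam z := fun z hz => by
    have := congrArg (ev z (hW.lo hz)) hr
    simpa only [map_pow, map_sub, hl, ev_eq g, ev_eq r] using this
  obtain ⟨v, hv, kv⟩ := sec_class_p (y := fun z => y z * fn r z) ((hol_fn g).mono hW.lo)
    ((DifferentiableOn.mono hy HS_sub).fun_mul ((hol_fn r).mono hW.lo))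
    (fun z hz => mul_ne_zero (fun e => hne z hz.1 (by rw [← ky z hz.1, e]; ring))
      fun e => right_ne_zero_of_mul (g1 z hz) (by rw [← kr z hz, e]; ring))
    (fun z hz => by rw [mul_pow, ky z hz.1, kr z hz, c4 z hz]; ring)
  have e1 := (dI _).1 h3
  rw [map_sub, (kw I hI).1, ev_eq, (kv I md_I).1, sub_eq_zero, bt_I, bt_I] at e1
  have e2 : XX (bt v (2 * I)) (2 * I) = XX (bt w (2 * I)) (2 * I) := by
    rcases x_eq I_mem (fun e => hv e.two) (fun e => hw e.two) e1 with k | k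
    · exact (md_per k md_two_I.1).1
    · rw [(md_per (v := -w) (w := v) (by rwa [sub_neg_eq_add]) md_two_I.1).1, bt_neg, XX_neg]
  have e3 := congrArg (ev _ h2I) h4
  simp only [map_add, map_sub, map_mul, map_one, map_ofNat, hi, hτ, (kw _ h2I).1] at e3
  rw [ev_eq g, (kv _ md_two_I).1, e2] at e3
  simp at e3

theorem md_pt (hW : Hw W) (hi : ∀ z hz, ev z hz c.i = I) (hτ : ∀ z hz, ev z hz c.τ = z)
    (hl : ∀ z hz, ev z hz c.l = lam z) (hε : Hol ε) (h0 : ∀ z ∈ UH, ε z ≠ 0)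
    (hδ : ∀ z hz, ev z hz c.δ = ε z ^ 2 * (4 * DD z ^ 3)) :
    ∃ j0 : ℤ, ∀ j : ℤ, j0 ≤ j → ∃ g, Pt c g ∧ g ∣ c.τ - c.i - 2 * j := by
  obtain ⟨η, hη, hc⟩ := cert
  obtain ⟨j0, hj0⟩ := nonunit_p hη
  refine ⟨j0, fun j hj => ?_⟩
  obtain ⟨g, h, v, hg', hh', k1, hv, k2, k3, k4⟩ := hj0 j hj
  obtain ⟨f, f1, f2, f3, f4⟩ := hc _ k4
  obtain ⟨r, r1, r2⟩ := hol_sqrt (f := fun z => g z - lam z) (DifferentiableOn.fun_sub hg' hol_lam)
    fun z hz => sub_ne_zero.2 (k1 z hz).2.2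
  have hg : DifferentiableOn ℂ g W := DifferentiableOn.mono hg' hW.up
  have hh : DifferentiableOn ℂ h W := DifferentiableOn.mono hh' hW.up
  obtain ⟨P, hP⟩ := md_new hW hε hv
  have hp := hW.lo (md_cj j)
  have hI := hW.lo md_I
  have h2I := hW.lo md_two_I
  have dI : ∀ g, c.τ - c.i ∣ g ↔ ev I hI g = 0 :=
    dvd_iff hW.o hI fun z hz => by rw [map_sub, hi, hτ]
  have hd : mk g hg ∣ c.τ - c.i - 2 * j := ⟨mk h hh, O_ext fun z hz => by
    simp only [map_sub, map_mul, map_ofNat, map_intCast, hi, hτ, ev_mk, (k1 z (hW.up hz)).1]⟩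
  refine ⟨mk g hg, ⟨hd.trans ?_, (unit_iff _).2 fun z hz => ?_,
    ⟨mk r (DifferentiableOn.mono r1 hW.up), O_ext fun z hz => ?_⟩,
    ⟨mk f (DifferentiableOn.mono f1 hW.up), (unit_iff _).2 fun z hz => ?_, (dI _).2 ?_,
      (md_dq hW hi hτ _).2 ?_⟩, P, md_sec hW hl h0 hδ hv hP, (dI _).2 ?_, ?_⟩, hd⟩
  · refine (dvd_iff hW.o hp (fun z hz => ?_) _).2 ?_
    · simp only [map_sub, map_mul, map_ofNat, map_intCast, hi, hτ]; ring
    · simp only [map_sub, map_mul, map_ofNat, map_one, hl, lam_add_two I_mem, lam_val.1]; ring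
  · simp only [map_sub, map_mul, map_one, hl, ev_mk]
    exact mul_ne_zero (sub_ne_zero.2 (k1 z (hW.up hz)).2.1) (sub_ne_zero.2 (k1 z (hW.up hz)).2.2)
  · simp only [map_sub, map_pow, hl, ev_mk, r2 z (hW.up hz)]
  · simp only [map_sub, map_mul, map_one, ev_mk]
    exact mul_ne_zero (f2 z (hW.up hz)).1 (sub_ne_zero.2 (f2 z (hW.up hz)).2.symm)
  · rw [map_sub, ev_mk, ev_mk, f3, sub_self]
  · simp only [map_sub, map_mul, map_ofNat, map_one, ev_mk, f4]; ring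
  · rw [map_sub, ev_mk, (hP I hI).1, bt_I, k2, sub_self]
  · obtain ⟨b, hb⟩ := (dvd_iff hW.o h2I (f := c.τ - 2 * c.i)
      (fun z hz => by simp only [map_sub, map_mul, map_ofNat, hi, hτ])
      (1 - mk (fun _ => (g (2 * I) - XX (bt v (2 * I)) (2 * I))⁻¹) (differentiableOn_const _) *
        (mk g hg - P.1))).2 (by
      simp only [map_sub, map_mul, map_one, ev_mk, (hP _ h2I).1]
      rw [inv_mul_cancel₀ (sub_ne_zero.2 k3), sub_self])
    exact ⟨_, b, by rw [mul_comm b (c.τ - 2 * c.i), ← hb]; exact add_sub_cancel _ _⟩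
end

theorem md_eps : ∃ ε, Hol ε ∧ (∀ z ∈ UH, ε z ≠ 0) ∧ ∀ z ∈ UH, 1 = ε z ^ 2 * (4 * DD z ^ 3) := by
  obtain ⟨ε, hε, kε⟩ := hol_sqrt (f := fun z => 1 / (4 * DD z ^ 3))
    ((differentiableOn_const _).fun_div md_holD fun z hz => md_D hz)
    fun z hz => one_div_ne_zero (md_D hz)
  exact ⟨ε, hε, fun z hz e => one_div_ne_zero (md_D hz) (by rw [← kε z hz, e]; ring),
    fun z hz => by rw [kε z hz, one_div_mul_cancel (md_D hz)]⟩

theorem ok1_ex {W : Set ℂ} (hW : Hw W) (i τ : O W) (hi : ∀ z hz, ev z hz i = I)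
    (hτ : ∀ z hz, ev z hz τ = z) :
    ∃ (l : O W) (p0 : O W × O W), ∀ r0 b0, Ok1 ⟨i, τ, l, 1, p0, r0, b0⟩ := by
  obtain ⟨y, hy⟩ := IsAlgClosed.exists_pow_nat_eq
    (4 * DD I ^ 3 * ((5 / 4 : ℂ) * (5 / 4 - 1) * (5 / 4 - lam I))) two_pos
  obtain ⟨v, hv, hx, -⟩ := xy_surj I_mem hy
  have hv2 := p_good hv (by rw [hx]; norm_num) (by rw [hx]; norm_num)
  obtain ⟨ε, hε, h0, hδ⟩ := md_eps
  obtain ⟨P, hP⟩ := md_new hW hε hv2
  have hI := hW.lo md_I
  have hl : DifferentiableOn ℂ lam W := DifferentiableOn.mono hol_lam hW.up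
  refine ⟨mk lam hl, P, fun r0 b0 => ⟨(unit_iff _).2 fun z hz => ?_, ?_, ?_, ?_, ?_, ?_⟩⟩
  · simp only [map_sub, map_mul, map_one, ev_mk]
    exact mul_ne_zero (lam_ne (hW.up hz)).1 (sub_ne_zero.2 (lam_ne (hW.up hz)).2.symm)
  · refine (dvd_iff hW.o hI (fun z hz => by rw [map_sub, hi, hτ]) _).2 ?_
    simp only [map_sub, map_mul, map_ofNat, map_one, ev_mk, lam_val.1]; ring
  · refine (dvd_iff hW.o (hW.lo md_p1) (fun z hz => ?_) _).2 ?_
    · simp only [map_sub, map_one, hi, hτ]; ring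
    · simp only [map_add, map_one, ev_mk, lam_val.2.1]; ring
  · refine (dvd_iff hW.o (hW.lo md_p2) (fun z hz => ?_) _).2 ?_
    · simp only [map_sub, map_add, map_one, hi, hτ]; ring
    · simp only [map_add, map_one, ev_mk, lam_val.2.2.1]; ring
  · exact md_sec hW (fun z hz => ev_mk _ hl hz) h0
      (fun z hz => (map_one _).trans (hδ z (hW.up hz))) hv2 hP
  · refine (dvd_iff hW.o hI (fun z hz => by rw [map_sub, hi, hτ]) _).2 ?_
    simp only [map_sub, map_mul, map_ofNat, (hP I hI).1, bt_I, hx]; ring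

theorem mdl_ex {W : Set ℂ} (hW : Hw W) (c : Cx (O W)) (hi : ∀ z hz, ev z hz c.i = I)
    (hτ : ∀ z hz, ev z hz c.τ = z) (hd : c.δ = 1) (h : Ok1 c) :
    ∃ (A : Type) (_ : AddCommGroup A), Nonempty (Mdl c A) := by
  obtain ⟨h1, h2, h3, h4, h5, h6⟩ := h
  have hI := hW.lo md_I
  have dI : ∀ g, c.τ - c.i ∣ g ↔ ev I hI g = 0 :=
    dvd_iff hW.o hI fun z hz => by rw [map_sub, hi, hτ]
  have hl : ∀ z hz, ev z hz c.l = lam z := by
    have v1 : lam I = fn c.l I := by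
      have := (dI _).1 h2
      simp only [map_sub, map_mul, map_ofNat, map_one, ev_eq c.l] at this
      rw [lam_val.1]
      linear_combination -this / 2
    obtain ⟨Φ, a1, -, a3, a4⟩ := lam_ext ((hol_fn c.l).mono hW.lo) (md_omit hW h1) md_I md_near.1
      (σ := I) (by norm_num) (by norm_num) v1
    have key := lam_unique (f := fun z => lam (Φ z)) (DifferentiableOn.comp hol_lam a1 a3)
      (fun w hw => lam_ne (a3 w hw)) (by rw [a4 I md_I, ← v1, lam_val.1]) (by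
        have := (dvd_iff hW.o (hW.lo md_p1)
          (fun z hz => by simp only [map_sub, map_one, hi, hτ]; ring) _).1 h3
        rw [map_add, map_one, ev_eq] at this
        rw [a4 _ md_p1]
        linear_combination this) (by
        have := (dvd_iff hW.o (hW.lo md_p2)
          (fun z hz => by simp only [map_sub, map_add, map_one, hi, hτ]; ring) _).1 h4
        rw [map_add, map_one, ev_eq] at this
        rw [a4 _ md_p2]
        linear_combination this)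
    intro z hz
    rw [ev_eq]
    exact hW.ext (hol_fn _) hol_lam (fun w hw => (a4 w hw).symm.trans (key w hw.1)) hz
  obtain ⟨ε, hε, h0, kε⟩ := md_eps
  have hδ : ∀ z hz, ev z hz c.δ = ε z ^ 2 * (4 * DD z ^ 3) := fun z hz => by
    rw [hd, map_one]; exact kε z (hW.up hz)
  obtain ⟨v0, hv0, k0⟩ := md_ex hW hl hε h0 hδ h5
  refine ⟨ℂ ⧸ Zi, inferInstance, ⟨{
    pt := Ptc ε
    J := Mq 0 (-1) 1
    a0 := v0
    JJ := Mq_sq (by norm_num)
    p0 := ⟨v0, rfl, hv0, k0⟩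
    nt := fun N hN => ?_
    ex := fun P hP => ?_
    sec := fun P a ⟨v, _, hv, k⟩ => md_sec hW hl h0 hδ hv k
    new := fun a ha => ?_
    inj := ?_
    uniq := ?_
    neg := ?_
    ad := fun P Q S a b d => md_ad hW hl h0 hδ
    ad' := fun P Q S a b => md_ad' hW hl h0 hδ
    jm := fun P Q a b hP hQ => ?_
    cm := fun g hg => ?_
    sq := fun j _ => ?_
    big := md_pt hW hi hτ hl hε h0 hδ }⟩⟩
  · refine nontorsion (fun e => hv0 e.two) ?_ N ?_
    · have := (dI _).1 h6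
      simp only [map_sub, map_mul, map_ofNat, (k0 I hI).1, bt_I] at this
      linear_combination this / 4
    · rw [← QuotientAddGroup.mk_zsmul, md_zero, zsmul_eq_mul] at hN
      exact hN
  · obtain ⟨v, hv, k⟩ := md_ex hW hl hε h0 hδ hP
    exact ⟨v, v, rfl, hv, k⟩
  · induction a using QuotientAddGroup.induction_on with
    | H v =>
      have hv : ¬ Lat I (2 * v) := fun e => ha (by
        rw [← QuotientAddGroup.mk_add, md_zero, ← two_mul]; exact e)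
      obtain ⟨P, hP⟩ := md_new hW hε hv
      exact ⟨P, v, rfl, hv, hP⟩
  · rintro P a b ⟨v, rfl, hv, kv⟩ ⟨w, rfl, hw, kw⟩
    have e1 := (kw I hI).1.symm.trans (kv I hI).1
    have e2 := mul_left_cancel₀ (h0 I I_mem) ((kw I hI).2.symm.trans (kv I hI).2)
    rw [bt_I, bt_I] at e1 e2
    exact md_eq.2 (xy_inj I_mem (fun e => hw e.two) (fun e => hv e.two) e1 e2)
  · rintro P Q a ⟨v, rfl, hv, kv⟩ ⟨w, e, hw, kw⟩
    rw [md_eq] at e
    exact Prod.ext (O_ext fun z hz => by rw [(kv z hz).1, (kw z hz).1, (md_per e (hW.up hz)).1])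
      (O_ext fun z hz => by rw [(kv z hz).2, (kw z hz).2, (md_per e (hW.up hz)).2])
  · rintro P a ⟨v, rfl, hv, kv⟩
    refine ⟨-v, rfl, fun e => hv (by simpa using e.neg), fun z hz => ⟨?_, ?_⟩⟩
    · rw [bt_neg, XX_neg]; exact (kv z hz).1
    · rw [bt_neg, (wp_neg _ _).2, map_neg, (kv z hz).2, mul_neg]
  · rw [← md_cm hW hi h0 hI lam_val.1 (α := 0) (β := -1) (γ := 1) (by simp) (by simp) hP hQ,
      ← dI, ← dI]
    rfl
  · obtain ⟨p, hp, e⟩ := md_zero_pt hW hi hτ hl hε h0 hδ hg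
    have z0 : ∀ f, g ∣ f → ev p hp f = 0 := by
      rintro _ ⟨k, rfl⟩
      rw [map_mul, e, zero_mul]
    have hlp : lam p = 1 / 2 := by
      have := z0 _ hg.1
      simp only [map_sub, map_mul, map_ofNat, map_one, hl] at this
      linear_combination this / 2
    obtain ⟨α, β, γ, m, d1, d2, d3⟩ := cm_data (hW.up hp) hlp
    exact ⟨Mq α β γ, m, fun a => by rw [Mq_anti, d3], fun P Q a b hP hQ k =>
      (md_cm hW hi h0 hp hlp d1 d2 hP hQ).1 ⟨z0 _ k.1, z0 _ k.2⟩⟩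
  · have hp := hW.lo (md_cj j)
    have dj : ∀ g, c.τ - c.i - 2 * j ∣ g ↔ ev _ hp g = 0 := dvd_iff hW.o hp fun z hz => by
      simp only [map_sub, map_mul, map_ofNat, map_intCast, hi, hτ]; ring
    refine ⟨Mq (-2 * j) (-(1 + 4 * j ^ 2)) 1, Mq_sq (by ring), fun a => ?_,
      fun P Q a b hP hQ => ?_⟩
    · rw [Mq_anti]; congr 1; ring
    · rw [← md_cm hW hi h0 hp (by rw [lam_add_two I_mem, lam_val.1]) (by push_cast; ring)
        (by push_cast; linear_combination I_sq) hP hQ, ← dj, ← dj]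
      rfl
-- END MD

end Pool.Agent.Lib.MP_b1b13a_lc.Dk
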