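import Mathlib

set_option autoImplicit false

namespace Pool.Agent.Lib.MP_b1b13a_lc.Dk

/-- A system is a finite list of polynomials with integer coefficients in `z` and unknowns
`x 0, x 1, ...`; a polynomial is a list of monomials (coefficient, list of exponents), the exponent
number `0` being that of `z` and the exponent number `k + 1` that of `x k` (the coding of the
frozen statement).  The functions `xs` solve the system on `U` if they are holomorphic on `U` and
make all of its polynomials vanish at every point of `U`. -/
def Sol (U : Set ℂ) (sys : List (List (ℤ × List ℕ))) (xs : ℕ → ℂ → ℂ) : Prop :=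
  (∀ i, DifferentiableOn ℂ (xs i) U) ∧ ∀ p ∈ sys, ∀ w ∈ U,
    (p.map (fun m => (m.1 : ℂ) * ((List.range m.2.length).map
      (fun k => (if k = 0 then w else xs (k - 1) w) ^ (m.2.getD k 0))).prod)).sum = 0

end Pool.Agent.Lib.MP_b1b13a_lc.Dk
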