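import Pool.Agent.Lib.MP_b1b13a_lc.Dk.Logic
import Pool.Agent.Lib.MP_b1b13a_lc.Dk.Model
import Pool.Agent.Lib.MP_b1b13a_lc.Dk.A2
import Pool.Agent.Lib.MP_b1b13a_lc.Dk.Sol

set_option autoImplicit false

noncomputable section

namespace Pool.Agent.Lib.MP_b1b13a_lc.Dk

open Complex Set Filter Topology

-- BEGIN Z
theorem mainH_iff {W : Set ℂ} (hW : Hw W) (e : Ex) (n : ℕ) (i τ : O W)
    (hi : ∀ z hz, ev z hz i = I) (hτ : ∀ z hz, ev z hz τ = z) :
    MainH e i τ (n : O W) ↔ ∃ y : ℕ → ℤ, y 0 = (n + 1) ^ 2 ∧ e.val y = 0 := by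
  constructor
  · rintro ⟨l, p0, r0, b0, h1, h2⟩
    obtain ⟨A, _, ⟨M⟩⟩ := mdl_ex hW ⟨i, τ, l, 1, p0, r0, b0⟩ hi hτ rfl h1
    exact (M.eqn_iff h2.1 e n).1 h2
  · intro h
    obtain ⟨l, p0, h1⟩ := ok1_ex hW i τ hi hτ
    obtain ⟨A, _, ⟨M⟩⟩ := mdl_ex hW ⟨i, τ, l, 1, p0, p0, p0⟩ hi hτ rfl (h1 p0 p0)
    obtain ⟨r0, b0, h2⟩ := M.ok2_ex
    obtain ⟨A', _, ⟨M'⟩⟩ := mdl_ex hW ⟨i, τ, l, 1, p0, r0, b0⟩ hi hτ rfl (h1 r0 b0)
    exact ⟨l, p0, r0, b0, h1 r0 b0, (M'.eqn_iff h2 e n).2 h⟩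

theorem Z_mapH {R R' : Type} [CommRing R] [CommRing R'] (T : R →+* R') {e : Ex} {i τ : R} {n : ℕ}
    (h : MainH e i τ (n : R)) : MainH e (T i) (T τ) (n : R') := by
  have := (pe_mainH e).map T (v := ![i, τ, n]) h
  simpa using this

theorem Z_mapD {R R' : Type} [CommRing R] [CommRing R'] (T : R →+* R') {e : Ex} {t : R} {n : ℕ}
    (h : MainD e t (n : R)) : MainD e (T t) (n : R') := by
  have := (pe_mainD e).map T (v := ![t, n]) h
  simpa using this

theorem Z_den' {z : ℂ} (hz : z ∈ Metric.ball (0 : ℂ) 1) : 1 - z ≠ 0 := fun h => by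
  have h1 : z = 1 := (sub_eq_zero.1 h).symm
  simp [h1] at hz

theorem Z_cay' {z : ℂ} (hz : z ∈ Metric.ball (0 : ℂ) 1) : I * (1 + z) / (1 - z) ∈ UH := by
  have h0 := normSq_pos.2 (Z_den' hz)
  rw [mem_ball_zero_iff, ← sq_lt_one_iff₀ (norm_nonneg _), Complex.sq_norm, normSq_apply] at hz
  show 0 < (I * (1 + z) / (1 - z)).im
  rw [div_im, ← sub_div]
  refine div_pos ?_ h0
  simp
  nlinarith

/-- the punctured disc -/
def DS : Set ℂ := Metric.ball 0 1 \ {0}

theorem Z_den {w : ℂ} (hw : w ∈ UH) : w + c0 ≠ 0 := fun h => by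
  have h1 := congrArg Complex.im h
  have h2 : 0 < w.im := hw
  simp [c0] at h1
  linarith

theorem Z_cay {w : ℂ} (hw : w ∈ HS) : (w - c0) / (w + c0) ∈ DS := by
  have h2 : 0 < w.im := hw.1
  refine ⟨?_, div_ne_zero (sub_ne_zero.2 hw.2) (Z_den hw.1)⟩
  rw [mem_ball_zero_iff, norm_div, div_lt_one (norm_pos_iff.2 (Z_den hw.1)),
    ← sq_lt_sq₀ (norm_nonneg _) (norm_nonneg _), Complex.sq_norm, Complex.sq_norm,
    normSq_apply, normSq_apply]
  simp [c0]
  nlinarith

theorem Z_conn : IsPreconnected DS := by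
  have e : DS = exp '' {s | s.re < 0} := by
    ext z
    constructor
    · rintro ⟨h1, h2⟩
      refine ⟨log z, ?_, exp_log h2⟩
      rw [mem_ofPred_eq, log_re]
      exact Real.log_neg (norm_pos_iff.2 h2) (mem_ball_zero_iff.1 h1)
    · rintro ⟨s, hs, rfl⟩
      exact ⟨by rw [mem_ball_zero_iff, norm_exp]; exact Real.exp_lt_one_iff.2 hs, exp_ne_zero s⟩
  rw [e]
  exact (convex_halfSpace_re_lt 0).isPreconnected.image _ continuous_exp.continuousOn

theorem Z_down (e : Ex) (n : ℕ) (t i τ : O DS) (ht : ∀ z hz, ev z hz t = z)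
    (hi : ∀ z hz, ev z hz i = I) (h : 1000 * τ * (1 - t) = 1001 * i * (1 + t))
    (k : MainH e i τ (n : O DS)) : ∃ y : ℕ → ℤ, y 0 = (n + 1) ^ 2 ∧ e.val y = 0 := by
  obtain ⟨T, hT⟩ := exists_pull (U := DS) (V := HS) (φ := fun w => (w - c0) / (w + c0))
    (DifferentiableOn.div (by fun_prop) (by fun_prop) fun w hw => Z_den hw.1) fun w hw => Z_cay hw
  refine (mainH_iff ⟨isOpen_HS, subset_rfl, HS_sub⟩ e n _ _ (fun z hz => by rw [hT, hi])
    fun w hw => ?_).1 (Z_mapH T k)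
  have h1 := congrArg (ev _ (Z_cay hw)) h
  simp only [map_mul, map_sub, map_add, map_one, map_ofNat, hi, ht] at h1
  rw [hT]
  have h2 := Z_den hw.1
  field_simp at h1
  have h3 : (ev _ (Z_cay hw) τ - w) * (2002 * I) = 0 := by
    simp only [c0] at h1 ⊢
    linear_combination h1
  exact sub_eq_zero.1 ((mul_eq_zero.1 h3).resolve_right (by simp))

theorem mainD_sound (e : Ex) (n : ℕ) (t : O DS) (ht : ∀ z hz, ev z hz t = z)
    (h : MainD e t (n : O DS)) : ∃ y : ℕ → ℤ, y 0 = (n + 1) ^ 2 ∧ e.val y = 0 := by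
  obtain ⟨i, τ, h1, h2, h3⟩ := h
  rcases sq_neg_one Z_conn h1 with hi | hi
  · exact Z_down e n t i τ ht hi h2 h3
  · obtain ⟨T, hT⟩ := exists_conj (U := DS) (Metric.isOpen_ball.sdiff isClosed_singleton)
      fun z hz => ⟨by simpa using hz.1, by simpa using hz.2⟩
    have h4 : T t = t := O_ext fun z hz => by rw [hT, ht, ht, conj_conj]
    refine Z_down e n t (T i) (T τ) ht (fun z hz => by rw [hT, hi]; simp) ?_ (Z_mapH T h3)
    have := congrArg T h2
    simpa only [map_mul, map_sub, map_add, map_one, map_ofNat, h4] using this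

theorem mainD_complete (e : Ex) (n : ℕ) (t : O (Metric.ball 0 1)) (ht : ∀ z hz, ev z hz t = z)
    (h : ∃ y : ℕ → ℤ, y 0 = (n + 1) ^ 2 ∧ e.val y = 0) :
    MainD e t (n : O (Metric.ball 0 1)) := by
  have k := (mainH_iff ⟨isOpen_UH, HS_sub, subset_rfl⟩ e n
    (mk (fun _ => I) (differentiableOn_const _))
    (mk id differentiableOn_id) (fun z hz => ev_mk _ _ hz) fun z hz => ev_mk _ _ hz).2 h
  obtain ⟨T, hT⟩ := exists_pull (U := UH) (V := Metric.ball 0 1)
    (φ := fun z => (1001 / 1000 : ℝ) * (I * (1 + z) / (1 - z)))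
    (DifferentiableOn.const_mul
      (DifferentiableOn.div (by fun_prop) (by fun_prop) fun z hz => Z_den' hz) _) fun z hz => by
      have : 0 < (I * (1 + z) / (1 - z)).im := Z_cay' hz
      rw [UH, mem_ofPred_eq, im_ofReal_mul]
      positivity
  refine ⟨_, _, O_ext fun z hz => ?_, O_ext fun z hz => ?_, Z_mapH T k⟩
  · rw [map_pow, hT, ev_mk, map_neg, map_one, I_sq]
  · simp only [map_mul, map_sub, map_add, map_one, map_ofNat, hT, ev_mk, ht, id]
    have := Z_den' hz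
    push_cast
    field_simp
-- END Z

-- BEGIN ZS
/-- evaluation of a coded polynomial in a ring -/
def ZS_ev {R : Type} [CommRing R] (p : List (ℤ × List ℕ)) (y : ℕ → R) : R :=
  (p.map (fun m => (m.1 : R) *
    ((List.range m.2.length).map (fun k => y k ^ (m.2.getD k 0))).prod)).sum

theorem ZS_map {R R' : Type} [CommRing R] [CommRing R'] (φ : R →+* R') (p : List (ℤ × List ℕ))
    (y : ℕ → R) : φ (ZS_ev p y) = ZS_ev p fun k => φ (y k) := by
  simp only [ZS_ev, map_list_sum, List.map_map, Function.comp_def, map_mul, map_intCast,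
    map_list_prod, map_pow]

theorem ZS_tm {α : Type} (p : List (ℤ × List ℕ))
    (f : ℕ → (R : Type) → [CommRing R] → (α → R) → R) (hf : ∀ k, Tm (f k)) :
    Tm fun R _ v => ZS_ev p fun k => f k R v := by
  choose q hq using hf
  refine ⟨ZS_ev p q, fun R _ v => ?_⟩
  rw [← MvPolynomial.coe_eval₂Hom, ZS_map]
  simp only [hq, MvPolynomial.coe_eval₂Hom]

theorem ZS_pe {α : Type} (S : List (List (ℤ × List ℕ)))
    (f : ℕ → (R : Type) → [CommRing R] → (α → R) → R) (hf : ∀ k, Tm (f k)) :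
    PE fun R _ v => ∀ p ∈ S, (ZS_ev p fun k => f k R v) = 0 := by
  induction S with
  | nil => exact ⟨Empty, inferInstance, [], fun R _ v => by simp⟩
  | cons p S ih =>
    exact ((PE.eq (ZS_tm p f hf) Tm.zero).and ih).congr fun R _ v => by
      rw [List.forall_mem_cons]

theorem disc_h10 (U : Set ℂ) (hU : IsOpen U) (S : List (List (ℤ × List ℕ)))
    (h1 : ∃ xs, Sol U S xs) (h2 : ∀ xs, Sol U S xs → InjOn (xs 0) U ∧
      MapsTo (xs 0) U (Metric.ball 0 1) ∧ SurjOn (xs 0) U (Metric.ball 0 1 \ {0})) :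
    ¬ ComputablePred fun sys : List (List (ℤ × List ℕ)) => ∃ xs, Sol U sys xs := by
  classical
  obtain ⟨e, he⟩ := exists_ex
  have hS : PE fun R _ (v : Fin 2 → R) => ∃ x : ℕ → R,
      (∀ p ∈ S, (ZS_ev p fun k => if k = 0 then v 0 else x (k - 1)) = 0) ∧ MainD e (x 0) (v 1) := by
    refine PE.exFun (γ := ℕ) (S := fun R _ (u : Fin 2 ⊕ ℕ → R) =>
      (∀ p ∈ S, (ZS_ev p fun k => if k = 0 then u (.inl 0) else u (.inr (k - 1))) = 0) ∧
        MainD e (u (.inr 0)) (u (.inl 1))) (PE.and (ZS_pe S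
          (fun k R _ (u : Fin 2 ⊕ ℕ → R) => if k = 0 then u (.inl 0) else u (.inr (k - 1)))
          fun k => ?_)
          (E2_mainD e (Tm.var _) (Tm.var _)))
    by_cases hk : k = 0
    · simpa only [if_pos hk] using Tm.var _
    · simpa only [if_neg hk] using Tm.var _
  obtain ⟨sys, hsys⟩ := hS.code
  have hev : ∀ (x : ℕ → O U) (p : List (ℤ × List ℕ)) w (hw : w ∈ U),
      ev w hw (ZS_ev p fun k => if k = 0 then mk id differentiableOn_id else x (k - 1))
        = ZS_ev p fun k => if k = 0 then w else fn (x (k - 1)) w := fun x p w hw => by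
    rw [ZS_map]
    congr 1
    funext k
    split_ifs
    · rfl
    · exact ev_eq _ hw
  have key : ∀ n : ℕ, (∃ x : ℕ → O U, (∀ p ∈ S, (ZS_ev p fun k =>
      if k = 0 then mk id differentiableOn_id else x (k - 1)) = 0) ∧ MainD e (x 0) (n : O U)) ↔
      ∃ y : ℕ → ℤ, y 0 = (n + 1) ^ 2 ∧ e.val y = 0 := fun n => by
    constructor
    · rintro ⟨x, k1, k2⟩
      obtain ⟨b1, -, b3⟩ := h2 (fun i => fn (x i)) ⟨fun i => hol_fn _, fun p hp w hw => by
        have := hev x p w hw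
        rw [k1 p hp, map_zero] at this
        exact this.symm⟩
      obtain ⟨s, hs, hs'⟩ := exists_inv hU (hol_fn (x 0)) b1.bijOn_image
      obtain ⟨T, hT⟩ := exists_pull (V := DS) (hs.mono b3) fun z hz => (hs' z (b3 hz)).1
      exact mainD_sound e n (T (x 0)) (fun z hz => by rw [hT, ev_eq, (hs' z (b3 hz)).2])
        (Z_mapD T k2)
    · intro h
      obtain ⟨xs, hx⟩ := h1
      obtain ⟨T, hT⟩ := exists_pull (hx.1 0) (h2 xs hx).2.1
      refine ⟨fun i => mk (xs i) (hx.1 i), fun p hp => O_ext fun w hw => ?_, ?_⟩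
      · refine (hev (fun i => mk (xs i) (hx.1 i)) p w hw).trans
          (Eq.trans ?_ ((hx.2 p hp w hw).trans (map_zero _).symm))
        refine congrArg (ZS_ev p) (funext fun k => ?_)
        split_ifs
        · rfl
        · exact (ev_eq _ hw).symm
      · have h3 := Z_mapD T (mainD_complete e n (mk id differentiableOn_id)
          (fun z hz => ev_mk _ _ hz) h)
        have h4 : T (mk id differentiableOn_id) = mk (xs 0) (hx.1 0) :=
          O_ext fun z hz => by rw [hT, ev_mk, ev_mk]; rfl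
        rwa [h4] at h3
  have hp : ∀ (n : ℕ) (y : ℕ → ℂ), MP_b1b13a_lc.ev
      ((List.range n).map (fun _ => ((1 : ℤ), ([] : List ℕ))) ++ [((-1 : ℤ), [0, 1])]) y
        = n - y 1 := fun n y => by
    simp [MP_b1b13a_lc.ev, List.range_succ, sub_eq_add_neg]
  rintro ⟨inst, hc⟩
  apply he
  have hf : Computable fun n : ℕ => (((List.range n).map (fun _ => ((1 : ℤ), ([] : List ℕ)))
      ++ [((-1 : ℤ), [0, 1])]) :: sys) := by
    apply Primrec.to_comp
    refine Primrec.list_cons.comp (Primrec.list_append.comp ?_ (Primrec.const _)) (Primrec.const _)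
    exact Primrec.list_map Primrec.list_range (Primrec.const _).to₂
  refine ⟨inferInstance, (hc.comp hf).of_eq fun n => ?_⟩
  refine decide_eq_decide.2 (Iff.trans ?_ ((hsys U n).symm.trans (key n)))
  refine exists_congr fun xs => and_congr_right fun _ => ?_
  refine List.forall_mem_cons.trans (and_congr_left fun _ => forall₂_congr fun w _ => ?_)
  have := hp n (val w fun i => xs i w)
  exact (Eq.congr_left this).trans (sub_eq_zero.trans eq_comm)
-- END ZS

end Pool.Agent.Lib.MP_b1b13a_lc.Dk
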