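import Pool.Agent.Lib.MP_b1b13a_lc.Dk.Final

set_option autoImplicit false

noncomputable section

namespace Pool.Agent.Lib.MP_b1b13a_lc.Dk

open Complex Set Filter Topology

/-- the unit disc -/
theorem inst_disc :
    ¬ ComputablePred fun sys : List (List (ℤ × List ℕ)) => ∃ xs, Sol (Metric.ball 0 1) sys xs := by
  refine disc_h10 _ Metric.isOpen_ball [[(1, [0, 1]), (-1, [1])]]
    ⟨fun _ z => z, fun _ => differentiableOn_id, by simp [List.range_succ]⟩ fun xs h => ?_
  have e : EqOn (xs 0) id (Metric.ball 0 1) := fun w hw => by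
    have := h.2 _ (List.mem_singleton_self _) w hw
    simp [List.range_succ] at this
    exact add_neg_eq_zero.1 this
  exact ⟨(injOn_id _).congr e.symm, (mapsTo_id _).congr e.symm,
    ((surjOn_id _).congr e.symm).mono subset_rfl sdiff_subset⟩

/-- the exterior of the closed unit disc -/
theorem inst_ext :
    ¬ ComputablePred fun sys : List (List (ℤ × List ℕ)) => ∃ xs, Sol {z | 1 < ‖z‖} sys xs := by
  have ne : ∀ z : ℂ, 1 < ‖z‖ → z ≠ 0 := fun z hz e => by
    rw [e, norm_zero] at hz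
    linarith
  refine disc_h10 _ (isOpen_lt continuous_const continuous_norm) [[(1, [1, 1]), (-1, [])]]
    ⟨fun _ z => z⁻¹, fun _ => differentiableOn_id.inv ne, ?_⟩ fun xs h => ?_
  · simp only [List.mem_singleton, forall_eq]
    intro w hw
    simp [List.range_succ, ne w hw]
  have e : EqOn (xs 0) (fun z => z⁻¹) {z | 1 < ‖z‖} := fun w hw => by
    have := h.2 _ (List.mem_singleton_self _) w hw
    simp [List.range_succ] at this
    exact eq_inv_of_mul_eq_one_right (add_neg_eq_zero.1 this)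
  refine ⟨(inv_injective.injOn).congr e.symm, MapsTo.congr (fun z hz => ?_) e.symm,
    SurjOn.congr (fun q hq => ⟨q⁻¹, ?_, inv_inv q⟩) e.symm⟩
  · rw [mem_ball_zero_iff, norm_inv]
    exact inv_lt_one_of_one_lt₀ hz
  · rw [mem_ofPred_eq, norm_inv]
    exact (one_lt_inv₀ (norm_pos_iff.2 hq.2)).2 (mem_ball_zero_iff.1 hq.1)

theorem inst_jou {e : ℝ} (he : 0 < e) {z t : ℂ} (h : e * (t ^ 2 + 1) = 2 * z * t) :
    t ≠ 0 ∧ (‖t‖ = 1 ↔ z.im = 0 ∧ |z.re| ≤ e) := by
  have he' : (e : ℂ) ≠ 0 := ofReal_ne_zero.2 he.ne'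
  have h0 : t ≠ 0 := by
    rintro rfl
    simp [he.ne'] at h
  have hn := normSq_pos.2 h0
  have h1 := congrArg Complex.re h
  have h2 := congrArg Complex.im h
  rw [normSq_apply] at hn
  simp [sq] at h1 h2
  have r1 : 2 * z.re * (t.re * t.re + t.im * t.im) =
      e * t.re * (t.re * t.re + t.im * t.im + 1) := by linear_combination -t.re * h1 - t.im * h2
  have r2 : 2 * z.im * (t.re * t.re + t.im * t.im) =
      e * t.im * (t.re * t.re + t.im * t.im - 1) := by linear_combination t.im * h1 - t.re * h2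
  have k : ‖t‖ = 1 ↔ t.re * t.re + t.im * t.im = 1 := by
    rw [← normSq_apply, ← Complex.sq_norm, pow_eq_one_iff_of_nonneg (norm_nonneg t) two_ne_zero]
  refine ⟨h0, k.trans ⟨fun n => ?_, fun ⟨a, b⟩ => ?_⟩⟩
  · rw [n] at r1 r2
    refine ⟨by linarith, ?_⟩
    rw [show z.re = e * t.re by linarith, abs_mul, abs_of_pos he]
    exact mul_le_of_le_one_right he.le (abs_le_one_iff_mul_self_le_one.2 (by nlinarith))
  · by_contra n
    rw [a] at r2
    have i0 : t.im = 0 := by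
      have : e * t.im * (t.re * t.re + t.im * t.im - 1) = 0 := by linarith
      rcases mul_eq_zero.1 this with f | f
      · exact (mul_eq_zero.1 f).resolve_left he.ne'
      · exact absurd (by linarith) n
    rw [i0] at n h1
    have b2 : z.re ^ 2 ≤ e ^ 2 := sq_le_sq' (abs_le.1 b).1 (abs_le.1 b).2
    have h3 : e ^ 2 * (t.re * t.re + 1) ^ 2 = 4 * z.re ^ 2 * (t.re * t.re) := by
      linear_combination (e * (t.re * t.re + 1) + 2 * z.re * t.re) * h1
    have h4 : 0 < (t.re * t.re - 1) ^ 2 := sq_pos_of_ne_zero fun f => n (by linarith)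
    nlinarith [mul_pos (sq_pos_of_pos he) h4, mul_nonneg (sub_nonneg.2 b2) (mul_self_nonneg t.re)]

/-- the plane minus the segment from `-a / b` to `a / b` -/
theorem inst_slit {a b : ℕ} (ha : 0 < a) (hb : 0 < b) :
    ¬ ComputablePred fun sys : List (List (ℤ × List ℕ)) =>
      ∃ xs, Sol {z | ¬ (z.im = 0 ∧ |z.re| ≤ a / b)} sys xs := by
  obtain ⟨e, hed⟩ : ∃ e : ℝ, e = a / b := ⟨_, rfl⟩
  have he : 0 < e := by rw [hed]; positivity
  have he' : (e : ℂ) ≠ 0 := ofReal_ne_zero.2 he.ne'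
  have hb' : (b : ℂ) ≠ 0 := by exact_mod_cast hb.ne'
  have hab : (a : ℂ) = e * b := by rw [hed]; push_cast; field_simp
  rw [← hed]
  have z0 : ∀ z : ℂ, ¬ (z.im = 0 ∧ |z.re| ≤ e) → z ≠ 0 := by
    rintro _ hz rfl
    exact hz (by simp [he.le])
  have up : ∀ q ∈ DS, ¬ ((e * (q + q⁻¹) / 2).im = 0 ∧ |(e * (q + q⁻¹) / 2).re| ≤ e) :=
    fun q hq k => (mem_ball_zero_iff.1 hq.1).ne ((inst_jou he (t := q)
      (by have : q ≠ 0 := hq.2; field_simp)).2.2 k)
  have sl : ∀ z : ℂ, ¬ (z.im = 0 ∧ |z.re| ≤ e) → 1 - (e / z) ^ 2 ∈ slitPlane := fun z hz => by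
    by_contra n
    rw [mem_slitPlane_iff, not_or, not_lt, not_not, sub_re, sub_im, one_re, one_im, zero_sub,
      neg_eq_zero, sub_nonpos] at n
    have h0 := z0 z hz
    obtain ⟨n1, n2⟩ := n
    obtain ⟨r, hr⟩ : ∃ r : ℝ, r = √((e / z : ℂ) ^ 2).re := ⟨_, rfl⟩
    have r1 : 1 ≤ r := by rw [hr]; exact Real.one_le_sqrt.2 n1
    have r2 : (e / z : ℂ) ^ 2 = (r : ℂ) ^ 2 := by
      rw [← ofReal_pow, hr, Real.sq_sqrt (zero_le_one.trans n1)]
      exact Complex.ext rfl n2
    have r3 : (r : ℂ) ≠ 0 := ofReal_ne_zero.2 (by linarith)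
    have r4 : z ^ 2 = ((e / r : ℝ) : ℂ) ^ 2 := by
      push_cast
      field_simp at r2 ⊢
      linear_combination -r2
    have r5 : |e / r| ≤ e := by
      rw [abs_of_pos (by positivity)]; exact div_le_self he.le r1
    rcases sq_eq_sq_iff_eq_or_eq_neg.1 r4 with f | f
    · exact hz (by rw [f, ofReal_im, ofReal_re]; exact ⟨rfl, r5⟩)
    · exact hz (by rw [f, neg_im, neg_re, ofReal_im, ofReal_re, abs_neg]; exact ⟨neg_zero, r5⟩)
  obtain ⟨T, hT⟩ : ∃ T : ℂ → ℂ, T = fun z : ℂ => z / e * (1 - (1 - (e / z) ^ 2 : ℂ) ^ (2⁻¹ : ℂ)) :=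
    ⟨_, rfl⟩
  have T1 : DifferentiableOn ℂ T {z | ¬ (z.im = 0 ∧ |z.re| ≤ e)} := by
    rw [hT]
    refine DifferentiableOn.mul (by fun_prop) ((differentiableOn_const _).sub
      (DifferentiableOn.cpow_const ((differentiableOn_const _).sub
        (((differentiableOn_const _).div differentiableOn_id z0).pow 2)) sl))
  have T2 : ∀ z, ¬ (z.im = 0 ∧ |z.re| ≤ e) → e * (T z ^ 2 + 1) = 2 * z * T z := fun z hz => by
    have h0 := z0 z hz
    have h1 := cpow_ofNat_inv_pow (1 - (e / z) ^ 2 : ℂ) 2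
    simp only [hT]
    generalize (1 - (e / z) ^ 2 : ℂ) ^ (2⁻¹ : ℂ) = s at h1
    field_simp at h1 ⊢
    linear_combination h1
  have T3 : ∀ z, ¬ (z.im = 0 ∧ |z.re| ≤ e) → T z - 2 ≠ 0 := fun z hz f => by
    have h1 := T2 z hz
    rw [sub_eq_zero.1 f] at h1
    have h2 : z = 5 / 4 * e := by linear_combination -h1 / 4
    have h3 : (1 - (e / z) ^ 2 : ℂ) = (3 / 5) ^ 2 := by rw [h2]; field_simp; norm_num
    simp only [hT, h3] at f
    rw [pow_cpow_ofNat_inv (by
      rw [show (3 / 5 : ℂ) = ((3 / 5 : ℝ) : ℂ) by push_cast; rfl, arg_ofReal_of_nonneg (by norm_num)]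
      have := Real.pi_pos
      linarith) (by
      rw [show (3 / 5 : ℂ) = ((3 / 5 : ℝ) : ℂ) by push_cast; rfl, arg_ofReal_of_nonneg (by norm_num)]
      positivity), h2] at f
    field_simp at f
    norm_num at f
  refine disc_h10 _ (((isClosed_eq continuous_im continuous_const).inter
      (isClosed_le continuous_re.abs continuous_const)).isOpen_compl)
    [[(a, [0, 2]), (a, []), (-2 * b, [1, 1])], [(1, [0, 1, 1]), (-2, [0, 0, 1]), (-1, [])]]
    ⟨fun i => if i = 0 then T else fun z => (T z - 2)⁻¹, fun i => ?_, ?_⟩ fun xs h => ?_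
  · beta_reduce
    split_ifs
    · exact T1
    · exact (T1.sub_const 2).inv T3
  · simp only [List.forall_mem_cons, List.not_mem_nil, false_imp_iff, implies_true, and_true]
    refine ⟨fun w hw => ?_, fun w hw => ?_⟩
    · simp [List.range_succ, hab]
      linear_combination b * T2 w hw
    · simp [List.range_succ]
      linear_combination mul_inv_cancel₀ (T3 w hw)
  have e1 : ∀ w, ¬ (w.im = 0 ∧ |w.re| ≤ e) → e * (xs 0 w ^ 2 + 1) = 2 * w * xs 0 w := fun w hw => by
    have := h.2 _ List.mem_cons_self w hw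
    simp [List.range_succ, hab] at this
    exact mul_left_cancel₀ hb' (by linear_combination this)
  have e2 : ∀ w, ¬ (w.im = 0 ∧ |w.re| ≤ e) → xs 0 w ≠ 2 := fun w hw f => by
    have := h.2 _ (List.mem_cons_of_mem _ List.mem_cons_self) w hw
    simp [List.range_succ, f] at this
  have e3 : ∀ q ∈ DS, xs 0 (e * (q + q⁻¹) / 2) = q ∨ xs 0 (e * (q + q⁻¹) / 2) = q⁻¹ := by
    intro q hq
    have h0 : q ≠ 0 := hq.2
    have h1 := e1 _ (up q hq)
    generalize xs 0 (e * (q + q⁻¹) / 2) = t at h1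
    have : (t - q) * (t - q⁻¹) = 0 := mul_left_cancel₀ he' (by
      linear_combination h1 + e * mul_inv_cancel₀ h0)
    exact (mul_eq_zero.1 this).imp sub_eq_zero.1 sub_eq_zero.1
  have hc : ContinuousOn (fun q : ℂ => ‖xs 0 (e * (q + q⁻¹) / 2)‖) DS :=
    ((h.1 0).continuousOn.comp ((continuousOn_const.mul (continuousOn_id.add
      (continuousOn_id.inv₀ fun q hq => hq.2))).div_const 2) up).norm
  have half : (1 / 2 : ℂ) ∈ DS := ⟨by rw [mem_ball_zero_iff]; norm_num, by norm_num⟩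
  have e4 : ∀ q ∈ DS, ‖xs 0 (e * (q + q⁻¹) / 2)‖ < 1 := fun q hq => by
    by_contra n
    have h5 : ‖xs 0 (e * (1 / 2 + (1 / 2)⁻¹) / 2)‖ ≤ 1 := by
      rcases e3 _ half with f | f
      · rw [f]; norm_num
      · exact absurd (f.trans (by norm_num)) (e2 _ (up _ half))
    obtain ⟨q', hq', f⟩ := Z_conn.intermediate_value half hq hc ⟨h5, not_lt.1 n⟩
    exact up q' hq' ((inst_jou he (e1 _ (up q' hq'))).2.1 f)
  refine ⟨fun z hz w hw f => ?_, fun z hz => ?_, fun q hq => ⟨_, up q hq, ?_⟩⟩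
  · have h1 := e1 z hz
    have h2 := e1 w hw
    rw [← f] at h2
    exact mul_right_cancel₀ (inst_jou he h1).1 (by linear_combination (h2 - h1) / 2)
  · obtain ⟨h0, h1⟩ := inst_jou he (e1 z hz)
    have h2 : z = e * (xs 0 z + (xs 0 z)⁻¹) / 2 := by
      have := e1 z hz
      field_simp
      linear_combination -this
    rw [mem_ball_zero_iff]
    by_contra n
    have h3 : 1 < ‖xs 0 z‖ := lt_of_le_of_ne (not_lt.1 n) fun f => hz (h1.1 f.symm)
    have := e4 (xs 0 z)⁻¹ ⟨by rw [mem_ball_zero_iff, norm_inv]; exact inv_lt_one_of_one_lt₀ h3,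
      inv_ne_zero h0⟩
    rw [inv_inv, add_comm, ← h2] at this
    exact n this
  · refine (e3 q hq).resolve_right fun f => ?_
    have := e4 q hq
    rw [f, norm_inv] at this
    exact absurd ((one_lt_inv₀ (norm_pos_iff.2 hq.2)).2 (mem_ball_zero_iff.1 hq.1)) this.not_gt

end Pool.Agent.Lib.MP_b1b13a_lc.Dk
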