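import Pool.Agent.Lib.MP_b1b13a_lc.Dk.Wp
import Pool.Agent.Lib.MP_b1b13a_lc.Disc.Landau
import Pool.Agent.Lib.MP_102662_an.Koebe

set_option autoImplicit false

noncomputable section

namespace Pool.Agent.Lib.MP_b1b13a_lc.Dk

open Complex Set Filter Topology

-- BEGIN L2
theorem mob_den {a b c d : ℤ} (h : a * d - b * c = 1) {τ : ℂ} (hτ : τ ∈ UH) :
    (c : ℂ) * τ + d ≠ 0 := by
  intro e
  obtain ⟨h1, h2⟩ := coord_unique hτ (a := d) (b := c) (c := 0) (d := 0)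
    (by push_cast; linear_combination e)
  have h3 : d = 0 := by exact_mod_cast h1
  have h4 : c = 0 := by exact_mod_cast h2
  rw [h3, h4] at h
  simp at h

theorem L2_im (a b c d : ℤ) (τ : ℂ) :
    (mob a b c d τ).im = (a * d - b * c : ℤ) * τ.im / ‖(c : ℂ) * τ + d‖ ^ 2 := by
  rw [mob, Complex.div_im, Complex.sq_norm, ← sub_div]
  congr 1
  simp
  ring

theorem mob_im {a b c d : ℤ} (h : a * d - b * c = 1) {τ : ℂ} (hτ : τ ∈ UH) :
    (mob a b c d τ).im = τ.im / ‖(c : ℂ) * τ + d‖ ^ 2 := by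
  have _ := hτ
  rw [L2_im, h]
  simp

theorem mob_mem {a b c d : ℤ} (h : a * d - b * c = 1) {τ : ℂ} (hτ : τ ∈ UH) :
    mob a b c d τ ∈ UH := by
  show 0 < (mob a b c d τ).im
  rw [mob_im h hτ]
  exact div_pos hτ (pow_pos (norm_pos_iff.2 (mob_den h hτ)) 2)

theorem L2_mul {a b c d : ℤ} (h : a * d - b * c = 1) {τ : ℂ} (hτ : τ ∈ UH) :
    ((c : ℂ) * τ + d) * mob a b c d τ = a * τ + b := mul_div_cancel₀ _ (mob_den h hτ)

theorem lat_mob {a b c d : ℤ} (h : a * d - b * c = 1) {τ : ℂ} (hτ : τ ∈ UH) (z : ℂ) :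
    Lat (mob a b c d τ) z ↔ Lat τ ((c * τ + d) * z) := by
  have e := L2_mul h hτ
  have h' : (a : ℂ) * d - b * c = 1 := by exact_mod_cast h
  constructor
  · rintro ⟨m, n, rfl⟩
    exact ⟨m * d + n * b, m * c + n * a, by push_cast; linear_combination (n : ℂ) * e⟩
  · rintro ⟨p, q, k⟩
    refine ⟨a * p - b * q, d * q - c * p, mul_left_cancel₀ (mob_den h hτ) ?_⟩
    push_cast
    linear_combination k - ((d : ℂ) * q - c * p) * e - (p + q * τ) * h'

theorem wp_mob {a b c d : ℤ} (h : a * d - b * c = 1) {τ : ℂ} (hτ : τ ∈ UH) (w : ℂ) :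
    wp w (mob a b c d τ) = (c * τ + d) ^ 2 * wp ((c * τ + d) * w) τ :=
  (wp_homog (pp τ) (pp (mob a b c d τ)) (mob_den h hτ) (fun z => by
    rw [lat_iff (mob_mem h hτ), lat_iff hτ, lat_mob h hτ]) w).1

theorem L2_shift {τ w w' : ℂ} (hτ : τ ∈ UH) (m n : ℤ) (e : w' = w + (m + n * τ)) :
    wp w' τ = wp w τ := by
  rw [e]
  exact (wp_per hτ ⟨m, n, rfl⟩ w).1

theorem L2_e {a b c d : ℤ} (h : a * d - b * c = 1) {τ : ℂ} (hτ : τ ∈ UH) :
    eA (mob a b c d τ) = (c * τ + d) ^ 2 * wp ((a * τ + b) / 2) τ ∧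
    eB (mob a b c d τ) = (c * τ + d) ^ 2 * wp ((c * τ + d) / 2) τ ∧
    eC (mob a b c d τ) = (c * τ + d) ^ 2 * wp ((a * τ + b + (c * τ + d)) / 2) τ := by
  have e := L2_mul h hτ
  refine ⟨?_, ?_, ?_⟩
  · rw [eA, wp_mob h hτ]
    congr 2
    linear_combination (1 / 2 : ℂ) * e
  · rw [eB, wp_mob h hτ]
    congr 2
    ring
  · rw [eC, wp_mob h hτ]
    congr 2
    linear_combination (1 / 2 : ℂ) * e

theorem lam_G2 {a b c d : ℤ} (h : G2 a b c d) {τ : ℂ} (hτ : τ ∈ UH) :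
    lam (mob a b c d τ) = lam τ := by
  obtain ⟨h0, ha, hb, hc, hd⟩ := h
  obtain ⟨h1, h2, h3⟩ := L2_e h0 hτ
  obtain ⟨p, rfl⟩ : ∃ p, a = 2 * p + 1 := ⟨a / 2, by omega⟩
  obtain ⟨q, rfl⟩ : ∃ q, b = 2 * q := ⟨b / 2, by omega⟩
  obtain ⟨r, rfl⟩ : ∃ r, c = 2 * r := ⟨c / 2, by omega⟩
  obtain ⟨s, rfl⟩ : ∃ s, d = 2 * s + 1 := ⟨d / 2, by omega⟩
  rw [L2_shift (w := τ / 2) hτ q p (by push_cast; ring)] at h1
  rw [L2_shift (w := 1 / 2) hτ s r (by push_cast; ring)] at h2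
  rw [L2_shift (w := (1 + τ) / 2) hτ (q + s) (p + r) (by push_cast; ring)] at h3
  have hm := pow_ne_zero 2 (mob_den h0 hτ)
  rw [lam, DD, h1, h2, h3, ← mul_sub, ← mul_sub, mul_div_mul_left _ _ hm]
  rfl

theorem lam_add_one {τ : ℂ} (hτ : τ ∈ UH) : lam (τ + 1) = lam τ / (lam τ - 1) := by
  obtain ⟨h1, h2, h3⟩ := L2_e (a := 1) (b := 1) (c := 0) (d := 1) (by norm_num) hτ
  have e : mob 1 1 0 1 τ = τ + 1 := by simp [mob]
  rw [e] at h1 h2 h3
  rw [L2_shift (w := (1 + τ) / 2) hτ 0 0 (by push_cast; ring)] at h1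
  rw [L2_shift (w := 1 / 2) hτ 0 0 (by push_cast; ring)] at h2
  rw [L2_shift (w := τ / 2) hτ 1 0 (by push_cast; ring)] at h3
  have k1 : eA (τ + 1) = eC τ := by rw [h1, eC]; push_cast; ring
  have k2 : eB (τ + 1) = eB τ := by rw [h2, eB]; push_cast; ring
  have k3 : eC (τ + 1) = eA τ := by rw [h3, eA]; push_cast; ring
  obtain ⟨n1, -, n3⟩ := e_ne hτ
  have m1 : eB τ - eA τ ≠ 0 := sub_ne_zero.2 n1.symm
  have m3 : eB τ - eC τ ≠ 0 := sub_ne_zero.2 n3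
  have m4 : (eC τ - eA τ) / (eB τ - eA τ) - 1 = -(eB τ - eC τ) / (eB τ - eA τ) := by
    field_simp
    ring
  rw [lam, lam, DD, DD, k1, k2, k3, m4]
  field_simp
  ring

theorem lam_S {τ : ℂ} (hτ : τ ∈ UH) : lam (-1 / τ) = 1 - lam τ := by
  obtain ⟨h1, h2, h3⟩ := L2_e (a := 0) (b := -1) (c := 1) (d := 0) (by norm_num) hτ
  have hm := mob_den (a := 0) (b := -1) (c := 1) (d := 0) (by norm_num) hτ
  have e : mob 0 (-1) 1 0 τ = -1 / τ := by simp [mob]
  rw [e] at h1 h2 h3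
  rw [L2_shift (w := 1 / 2) hτ (-1) 0 (by push_cast; ring)] at h1
  rw [L2_shift (w := τ / 2) hτ 0 0 (by push_cast; ring)] at h2
  rw [L2_shift (w := (1 + τ) / 2) hτ (-1) 0 (by push_cast; ring)] at h3
  obtain ⟨n1, -, -⟩ := e_ne hτ
  have m1 : eB τ - eA τ ≠ 0 := sub_ne_zero.2 n1.symm
  have m2 : eA τ - eB τ ≠ 0 := sub_ne_zero.2 n1
  rw [lam, DD, h1, h2, h3, ← mul_sub, ← mul_sub, mul_div_mul_left _ _ (pow_ne_zero 2 hm)]
  show (eC τ - eB τ) / (eA τ - eB τ) = 1 - (eC τ - eA τ) / (eB τ - eA τ)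
  field_simp
  ring

theorem lam_add_two {τ : ℂ} (hτ : τ ∈ UH) (j : ℤ) : lam (τ + 2 * j) = lam τ := by
  have h := lam_G2 (a := 1) (b := 2 * j) (c := 0) (d := 1)
    ⟨by ring, by norm_num, by omega, by norm_num, by norm_num⟩ hτ
  have e : mob 1 (2 * j) 0 1 τ = τ + 2 * j := by simp [mob]
  rwa [e] at h

theorem lam_val : lam I = 1 / 2 ∧ lam (1 + I) = -1 ∧ lam (-1 + I) = -1 ∧
    lam ((1 + I) / 2) = 2 ∧ lam ((-1 + I) / 2) = 2 := by
  have m1 : (1 + I : ℂ) ∈ UH := by simp [UH]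
  have m2 : (-1 + I : ℂ) ∈ UH := by simp [UH]
  have n1 : (1 + I : ℂ) ≠ 0 := fun e => by simpa using congrArg Complex.im e
  have n2 : (-1 + I : ℂ) ≠ 0 := fun e => by simpa using congrArg Complex.im e
  have h1 : lam I = 1 / 2 := by
    have h := lam_S I_mem
    have e : (-1 / I : ℂ) = I := by
      rw [div_eq_iff I_ne_zero, I_mul_I]
    rw [e] at h
    linear_combination (1 / 2 : ℂ) * h
  have h2 : lam (1 + I) = -1 := by
    rw [add_comm, lam_add_one I_mem, h1]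
    norm_num
  have h3 : lam (-1 + I) = -1 := by
    rw [← lam_add_two m2 1, show (-1 + I + 2 * ((1 : ℤ) : ℂ)) = 1 + I by push_cast; ring, h2]
  refine ⟨h1, h2, h3, ?_, ?_⟩
  · have e : ((1 + I) / 2 : ℂ) = -1 / (-1 + I) := by
      rw [eq_div_iff n2]
      linear_combination (1 / 2 : ℂ) * I_mul_I
    rw [e, lam_S m2, h3]
    norm_num
  · have e : ((-1 + I) / 2 : ℂ) = -1 / (1 + I) := by
      rw [eq_div_iff n1]
      linear_combination (1 / 2 : ℂ) * I_mul_I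
    rw [e, lam_S m1, h2]
    norm_num

/-- complex multiplication by `I` -/
theorem cm_xy {c : ℂ} (hc : c ∈ UH) (hl : lam c = 1 / 2) {α β γ : ℤ} (h1 : I = α + γ * c)
    (h2 : I * c = β - α * c) (w : ℂ) :
    (Lat c (I * w) ↔ Lat c w) ∧ XX (I * w) c = 1 - XX w c ∧ wq (I * w) c = I * wq w c := by
  have k : ∀ z, Lat c z → Lat c (I * z) := by
    rintro z ⟨m, n, rfl⟩
    exact ⟨m * α + n * β, m * γ - n * α, by
      push_cast; linear_combination (m : ℂ) * h1 + (n : ℂ) * h2⟩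
  have k' : ∀ z, Lat c z ↔ Lat c (I * z) := fun z => ⟨k z, fun h => by
    have h3 := (k _ h).neg
    rwa [show -(I * (I * z)) = z by linear_combination (-z) * I_mul_I] at h3⟩
  obtain ⟨e1, e2, -⟩ := wp_homog (pp c) (pp c) I_ne_zero
    (fun z => by rw [lat_iff hc, lat_iff hc]; exact k' z) w
  have hD := DD_ne hc
  have hs := e_sum hc
  rw [lam, div_eq_iff hD, DD] at hl
  refine ⟨(k' w).symm, ?_, ?_⟩
  · have e3 : wp (I * w) c = -wp w c := by
      unfold wp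
      rw [e1, I_sq]
      ring
    have e4 : DD c = -2 * eA c := by
      rw [DD]
      linear_combination (2 / 3 : ℂ) * hs - (2 / 3 : ℂ) * hl
    rw [XX, XX, e3, eq_sub_iff_add_eq, ← add_div, div_eq_one_iff_eq hD, e4]
    ring
  · unfold wq
    rw [e2, ← mul_assoc, ← pow_succ', I_pow_four, one_mul]
-- END L2

-- BEGIN L3
theorem L3_e {τ : ℂ} (hτ : τ ∈ UH) : eA τ = -(1 + lam τ) * DD τ / 3 ∧
    eB τ = (2 - lam τ) * DD τ / 3 ∧ eC τ = (2 * lam τ - 1) * DD τ / 3 := by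
  have h1 : lam τ * DD τ = eC τ - eA τ := div_mul_cancel₀ _ (DD_ne hτ)
  have h2 : DD τ = eB τ - eA τ := rfl
  have h3 := e_sum hτ
  exact ⟨by linear_combination (1 / 3 : ℂ) * (h1 + h2 + h3),
    by linear_combination (1 / 3 : ℂ) * (h1 - 2 * h2 + h3),
    by linear_combination (1 / 3 : ℂ) * (-2 * h1 + h2 + h3)⟩

theorem L3_scale {τ j : ℂ} (hτ : τ ∈ UH) (hj : j ≠ 0) :
    ∃ L : PeriodPair, ∀ z, z ∈ L.lattice ↔ Lat τ (j * z) := by
  have hi : LinearIndependent ℝ ![(1 / j : ℂ), τ / j] := by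
    rw [LinearIndependent.pair_iff]
    intro s t e
    simp only [Complex.real_smul] at e
    exact coord_unique hτ (a := s) (b := t) (c := 0) (d := 0) (by
      have e2 : (s : ℂ) + t * τ = j * (s * (1 / j) + t * (τ / j)) := by field_simp
      rw [e2, e]
      simp)
  refine ⟨⟨1 / j, τ / j, hi⟩, fun z => ?_⟩
  rw [PeriodPair.mem_lattice]
  constructor
  · rintro ⟨m, n, e⟩
    exact ⟨m, n, by rw [← e]; field_simp⟩
  · rintro ⟨m, n, e⟩
    refine ⟨m, n, mul_left_cancel₀ hj ?_⟩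
    rw [e]
    field_simp

/-- two values with the same image have similar lattices with the same half periods -/
theorem L3_sim {τ σ : ℂ} (hτ : τ ∈ UH) (hσ : σ ∈ UH) (h : lam τ = lam σ) :
    ∃ j : ℂ, j ≠ 0 ∧ (∀ z, Lat σ z ↔ Lat τ (j * z)) ∧ Lat τ (j * (σ / 2) - τ / 2) ∧
      Lat τ (j * (1 / 2) - 1 / 2) := by
  obtain ⟨j, hj⟩ := IsAlgClosed.exists_pow_nat_eq (DD σ / DD τ) (n := 2) (by norm_num)
  have hD : j ^ 2 * DD τ = DD σ := by rw [hj, div_mul_cancel₀ _ (DD_ne hτ)]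
  have j0 : j ≠ 0 := by
    rintro rfl
    exact DD_ne hσ (by rw [← hD]; ring)
  obtain ⟨L, hL⟩ := L3_scale hτ j0
  have H := wp_homog (pp τ) L j0 fun z => by rw [hL, lat_iff hτ]
  obtain ⟨a1, a2, a3⟩ := L3_e hτ
  obtain ⟨b1, b2, b3⟩ := L3_e hσ
  have c1 : eA σ = j ^ 2 * eA τ := by rw [a1, b1, ← h, ← hD]; ring
  have c2 : eB σ = j ^ 2 * eB τ := by rw [a2, b2, ← h, ← hD]; ring
  have c3 : eC σ = j ^ 2 * eC τ := by rw [a3, b3, ← h, ← hD]; ring
  have hg : L.g₂ = (pp σ).g₂ := by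
    rw [(H 0).2.2, (g2_eq hτ).1, (g2_eq hσ).1, c1, c2, c3]
    ring
  have key : ∀ u v : ℂ, ¬ Lat τ u → ¬ Lat σ v → Lat τ (2 * u) → Lat σ (2 * v) →
      wp v σ = j ^ 2 * wp u τ → ∀ t, Lat τ (u + j * t) ↔ Lat σ (v + t) := by
    intro u v hu hv hu2 hv2 e t
    have e0 : j * (u / j) = u := mul_div_cancel₀ _ j0
    have k := wp_uniq L (pp σ) hg (u := u / j) (v := v) (by rw [hL, e0]; exact hu)
      (by rw [lat_iff hσ]; exact hv) (by rw [(H _).1, e0]; exact e.symm) (by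
        rw [(H _).2.1, e0, (wq_zero (pp τ) (by rw [lat_iff hτ]; exact hu)).2
          ((lat_iff hτ).2 hu2), (wq_zero (pp σ) (by rw [lat_iff hσ]; exact hv)).2
          ((lat_iff hσ).2 hv2), mul_zero]) t
    rwa [hL, lat_iff hσ, mul_add, e0] at k
  obtain ⟨n1, n2, -⟩ := half_not_lat hτ
  obtain ⟨m1, m2, -⟩ := half_not_lat hσ
  have k1 := key (τ / 2) (σ / 2) n1 m1 ⟨0, 1, by push_cast; ring⟩ ⟨0, 1, by push_cast; ring⟩ c1
  have k2 := key (1 / 2) (1 / 2) n2 m2 ⟨1, 0, by push_cast; ring⟩ ⟨1, 0, by push_cast; ring⟩ c2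
  have p1 : Lat τ (j * (σ / 2) - τ / 2) := by
    have := ((k1 (-(σ / 2))).2 (by simpa using Lat.zero σ)).neg
    rwa [show -(τ / 2 + j * -(σ / 2)) = j * (σ / 2) - τ / 2 by ring] at this
  have p2 : Lat τ (j * (1 / 2) - 1 / 2) := by
    have := ((k2 (-(1 / 2))).2 (by simpa using Lat.zero σ)).neg
    rwa [show -(1 / 2 + j * -(1 / 2)) = j * (1 / 2) - 1 / 2 by ring] at this
  refine ⟨j, j0, fun z => ?_, p1, p2⟩
  have k := k2 (z - 1 / 2)
  rw [show (1 / 2 : ℂ) + (z - 1 / 2) = z by ring] at k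
  rw [← k]
  constructor
  · intro q
    have := q.add p2
    rwa [show 1 / 2 + j * (z - 1 / 2) + (j * (1 / 2) - 1 / 2) = j * z by ring] at this
  · intro q
    have := q.sub p2
    rwa [show j * z - (j * (1 / 2) - 1 / 2) = 1 / 2 + j * (z - 1 / 2) by ring] at this

theorem L3_int {τ : ℂ} (hτ : τ ∈ UH) {a b c d : ℤ} (e : (a : ℂ) + b * τ = c + d * τ) :
    a = c ∧ b = d := by
  obtain ⟨h1, h2⟩ := coord_unique hτ (a := a) (b := b) (c := c) (d := d) (by exact_mod_cast e)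
  exact ⟨by exact_mod_cast h1, by exact_mod_cast h2⟩

theorem lam_fibre {τ σ : ℂ} (hτ : τ ∈ UH) (hσ : σ ∈ UH) (h : lam τ = lam σ) :
    ∃ a b c d : ℤ, G2 a b c d ∧ σ = mob a b c d τ := by
  obtain ⟨j, j0, hL, ⟨q, p, e1⟩, ⟨s, r, e2⟩⟩ := L3_sim hτ hσ h
  have f1 : j * σ = ((2 * p + 1 : ℤ) : ℂ) * τ + ((2 * q : ℤ) : ℂ) := by
    push_cast
    linear_combination 2 * e1
  have f2 : j = ((2 * r : ℤ) : ℂ) * τ + ((2 * s + 1 : ℤ) : ℂ) := by
    push_cast
    linear_combination 2 * e2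
  have hm : σ = mob (2 * p + 1) (2 * q) (2 * r) (2 * s + 1) τ := by
    rw [mob, ← f1, ← f2, mul_div_cancel_left₀ _ j0]
  obtain ⟨m, n, g1⟩ := (hL (1 / j)).2 ⟨1, 0, by field_simp; simp⟩
  obtain ⟨m', n', g2⟩ := (hL (τ / j)).2 ⟨0, 1, by field_simp; simp⟩
  rw [div_eq_iff j0] at g1 g2
  obtain ⟨u1, u2⟩ := L3_int hτ (a := 1) (b := 0) (c := m * (2 * s + 1) + n * (2 * q))
    (d := m * (2 * r) + n * (2 * p + 1)) (by
      push_cast at f1 f2 ⊢
      linear_combination g1 + (m : ℂ) * f2 + (n : ℂ) * f1)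
  obtain ⟨u3, u4⟩ := L3_int hτ (a := 0) (b := 1) (c := m' * (2 * s + 1) + n' * (2 * q))
    (d := m' * (2 * r) + n' * (2 * p + 1)) (by
      push_cast at f1 f2 ⊢
      linear_combination g2 + (m' : ℂ) * f2 + (n' : ℂ) * f1)
  have hdet : ((2 * p + 1) * (2 * s + 1) - 2 * q * (2 * r)) * (n' * m - m' * n) = 1 := by
    linear_combination (-(m' * (2 * r) + n' * (2 * p + 1))) * u1 - u4 +
      (m' * (2 * s + 1) + n' * (2 * q)) * u2
  have hpos : 0 < (2 * p + 1) * (2 * s + 1) - 2 * q * (2 * r) := by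
    have t1 : 0 < σ.im := hσ
    have t2 : 0 < τ.im := hτ
    rw [hm, L2_im] at t1
    have t3 := (div_pos_iff.1 t1).resolve_right fun k => not_lt.2 (sq_nonneg _) k.2
    exact_mod_cast (mul_pos_iff_of_pos_right t2).1 t3.1
  have hone := Int.eq_one_of_mul_eq_one_right hpos.le hdet
  have hps : (p + s) % 2 = 0 := by
    have : 2 * (p + s) = 4 * (q * r - p * s) := by linear_combination hone
    omega
  rcases Int.emod_two_eq_zero_or_one p with hp | hp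
  · exact ⟨_, _, _, _, ⟨hone, by omega, by omega, by omega, by omega⟩, hm⟩
  · refine ⟨-(2 * p + 1), -(2 * q), -(2 * r), -(2 * s + 1),
      ⟨by linear_combination hone, by omega, by omega, by omega, by omega⟩, ?_⟩
    rw [hm, mob, mob, ← neg_div_neg_eq]
    push_cast
    congr 1 <;> ring

theorem cm_data {c : ℂ} (hc : c ∈ UH) (hl : lam c = 1 / 2) : ∃ α β γ m : ℤ,
    I = α + γ * c ∧ I * c = β - α * c ∧ β - γ = -(4 * m + 2) := by
  obtain ⟨a, b, g, d, ⟨h0, ha, hb, hg, hd⟩, e⟩ := lam_fibre I_mem hc (lam_val.1.trans hl.symm)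
  have e1 := L2_mul h0 I_mem
  rw [← e] at e1
  have h' : (a : ℂ) * d - b * g = 1 := by exact_mod_cast h0
  obtain ⟨p, hp⟩ : ∃ p, a = 2 * p + 1 := ⟨a / 2, by omega⟩
  obtain ⟨q, hq⟩ : ∃ q, b = 2 * q := ⟨b / 2, by omega⟩
  obtain ⟨r, hr⟩ : ∃ r, g = 2 * r := ⟨g / 2, by omega⟩
  obtain ⟨s, hs⟩ : ∃ s, d = 2 * s + 1 := ⟨d / 2, by omega⟩
  refine ⟨-(a * g + b * d), -(a ^ 2 + b ^ 2), g ^ 2 + d ^ 2,
    p ^ 2 + p + q ^ 2 + r ^ 2 + s ^ 2 + s, ?_, ?_, ?_⟩
  · push_cast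
    linear_combination (-((d : ℂ) - g * I)) * e1 - I * h' + ((a : ℂ) * g - g ^ 2 * c) * I_sq
  · push_cast
    linear_combination (-((b : ℂ) - a * I)) * e1 - I * c * h' + ((a : ℂ) ^ 2 - a * g * c) * I_sq
  · rw [hp, hq, hr, hs]
    ring

theorem L3_far {a b c d : ℤ} (h : G2 a b c d) {t : ℂ} (ht : t ∈ UH) :
    mob a b c d t = t ∨ 2 ≤ ‖mob a b c d t - t‖ ∨
      4 * t.im ^ 3 * (mob a b c d t).im ≤ ‖mob a b c d t - t‖ ^ 2 := by
  obtain ⟨h0, ha, hb, hc, hd⟩ := h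
  have ht' : 0 < t.im := ht
  rcases eq_or_ne c 0 with rfl | c0
  · have h1 : a * d = 1 := by linear_combination h0
    have h2 : a = 1 ∧ d = 1 := by
      rcases Int.eq_one_or_neg_one_of_mul_eq_one' h1 with k | k
      · exact k
      · omega
    have e : mob a b 0 d t - t = b := by simp [mob, h2.1, h2.2]
    rcases eq_or_ne b 0 with rfl | b0
    · exact Or.inl (by simpa [sub_eq_zero] using e)
    · refine Or.inr (Or.inl ?_)
      rw [e, Complex.norm_intCast]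
      have : (2 : ℤ) ≤ |b| := by rcases abs_cases b with k | k <;> omega
      exact_mod_cast this
  · refine Or.inr (Or.inr ?_)
    have hden := mob_den h0 ht
    have hn : 0 < ‖(c : ℂ) * t + d‖ ^ 2 := pow_pos (norm_pos_iff.2 hden) 2
    have e : mob a b c d t - t = -(c * t ^ 2 + (d - a) * t - b) / (c * t + d) := by
      rw [eq_div_iff hden]
      linear_combination L2_mul h0 ht
    rw [e, mob_im h0 ht, norm_div, div_pow, ← mul_div_assoc, div_le_div_iff_of_pos_right hn,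
      norm_neg, Complex.sq_norm, Complex.normSq_apply]
    have c4 : (4 : ℝ) ≤ (c : ℝ) ^ 2 := by
      have : (4 : ℤ) ≤ c ^ 2 := by
        obtain ⟨r, rfl⟩ : ∃ r, c = 2 * r := ⟨c / 2, by omega⟩
        have : r ≠ 0 := by omega
        nlinarith [sq_pos_of_ne_zero this]
      exact_mod_cast this
    have hΔ : (0 : ℝ) ≤ ((d : ℝ) - a) ^ 2 + 4 * b * c := by
      have : (0 : ℤ) ≤ (d - a) ^ 2 + 4 * b * c := by
        obtain ⟨r, hr⟩ : ∃ r, a + d = 2 * r := ⟨(a + d) / 2, by omega⟩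
        have r0 : r ≠ 0 := by omega
        have : (d - a) ^ 2 + 4 * b * c = 4 * (r ^ 2 - 1) := by
          linear_combination (-4) * h0 + (a + d + 2 * r) * hr
        nlinarith [sq_pos_of_ne_zero r0]
      exact_mod_cast this
    have hre : ((c : ℂ) * t ^ 2 + (d - a) * t - b).re =
        (c * t.re ^ 2 + (d - a) * t.re - b) - c * t.im ^ 2 := by
      simp [pow_two]
      ring
    have him : ((c : ℂ) * t ^ 2 + (d - a) * t - b).im = t.im * (2 * c * t.re + (d - a)) := by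
      simp [pow_two]
      ring
    rw [hre, him]
    set x := t.re
    set y := t.im
    set p := (c : ℝ) * x ^ 2 + (d - a) * x - b with hp
    set s := 2 * (c : ℝ) * x + (d - a) with hs
    have hs2 : s ^ 2 = ((d : ℝ) - a) ^ 2 + 4 * b * c + 4 * c * p := by
      rw [hp, hs]
      ring
    have k1 : 2 * ((p - c * y ^ 2) * (p - c * y ^ 2) + y * s * (y * s)) =
        2 * p ^ 2 + 2 * (c ^ 2 * y ^ 4) + y ^ 2 * (s ^ 2 + (((d : ℝ) - a) ^ 2 + 4 * b * c)) := by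
      linear_combination y ^ 2 * hs2
    have k2 : 0 ≤ y ^ 2 * (s ^ 2 + (((d : ℝ) - a) ^ 2 + 4 * b * c)) := by positivity
    have k3 : 4 * y ^ 4 ≤ c ^ 2 * y ^ 4 := mul_le_mul_of_nonneg_right c4 (by positivity)
    nlinarith [sq_nonneg p]

theorem lam_deriv_ne {τ : ℂ} (hτ : τ ∈ UH) : deriv lam τ ≠ 0 := by
  have hy : 0 < τ.im := hτ
  set r := min (min (τ.im / 2) (τ.im ^ 2 / 4)) 1 with hr
  have r0 : 0 < r := by positivity
  have r1 : r ≤ τ.im / 2 := (min_le_left _ _).trans (min_le_left _ _)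
  have r2 : r ≤ τ.im ^ 2 / 4 := (min_le_left _ _).trans (min_le_right _ _)
  have r3 : r ≤ 1 := min_le_right _ _
  have hb : ∀ z ∈ Metric.ball τ r, τ.im / 2 < z.im := fun z hz => by
    have h1 := Complex.abs_im_le_norm (z - τ)
    rw [mem_ball_iff_norm] at hz
    rw [Complex.sub_im] at h1
    linarith [(abs_le.1 h1).1]
  have hU : ∀ z ∈ Metric.ball τ r, z ∈ UH := fun z hz =>
    show 0 < z.im by linarith [hb z hz]
  refine MP_102662_an.univ_deriv_ne r0 (hol_lam.mono hU) fun t ht s hs e => ?_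
  obtain ⟨a, b, c, d, hG, e1⟩ := lam_fibre (hU t ht) (hU s hs) e
  have hd : ‖s - t‖ < 2 * r := by
    have := Metric.dist_lt_add_of_nonempty_ball_inter_ball (x := s) (y := t) (ε₁ := r) (ε₂ := r)
      ⟨τ, Metric.mem_ball_comm.1 hs, Metric.mem_ball_comm.1 ht⟩
    rw [dist_eq_norm] at this
    linarith
  have h3 := L3_far hG (hU t ht)
  rw [← e1] at h3
  rcases h3 with k | k | k
  · exact k.symm
  · linarith
  · exfalso
    have t1 := hb t ht
    have t2 := hb s hs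
    have t3 : (τ.im / 2) ^ 3 * (τ.im / 2) ≤ t.im ^ 3 * s.im :=
      mul_le_mul (pow_le_pow_left₀ (by positivity) t1.le 3) t2.le (by positivity)
        (pow_nonneg (hU t ht).le 3)
    have t4 : ‖s - t‖ ^ 2 < (τ.im ^ 2 / 2) ^ 2 :=
      pow_lt_pow_left₀ (by linarith) (norm_nonneg _) (by norm_num)
    nlinarith

/-- high in the half plane the function stays away from two -/
theorem L3_away : ∃ ε : ℝ, 0 < ε ∧ ∀ τ : ℂ, 1 < τ.im → ε ≤ ‖lam τ - 2‖ := by
  have m0 : ((1 + I) / 2 : ℂ) ∈ UH := by simp [UH]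
  have ha : AnalyticAt ℂ lam ((1 + I) / 2) := hol_lam.analyticAt (isOpen_UH.mem_nhds m0)
  have hs := ha.hasStrictDerivAt.map_nhds_eq (lam_deriv_ne m0)
  have hN : {z : ℂ | 1 / 4 < z.im ∧ z.im < 1} ∈ 𝓝 ((1 + I) / 2 : ℂ) :=
    ((isOpen_lt continuous_const Complex.continuous_im).inter
      (isOpen_lt Complex.continuous_im continuous_const)).mem_nhds (by
        constructor <;> simp <;> norm_num)
  have hM := image_mem_map (m := lam) hN
  rw [hs, lam_val.2.2.2.1] at hM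
  obtain ⟨ε, ε0, hε⟩ := Metric.mem_nhds_iff.1 hM
  refine ⟨ε, ε0, fun τ hτ => not_lt.1 fun k => ?_⟩
  obtain ⟨σ, ⟨s1, s2⟩, e⟩ := hε (mem_ball_iff_norm.2 k)
  have hσ : σ ∈ UH := show 0 < σ.im by linarith
  obtain ⟨a, b, c, d, ⟨h0, ha, hb, hc, hd⟩, e1⟩ :=
    lam_fibre hσ (show 0 < τ.im by linarith) e
  have hn : 0 < ‖(c : ℂ) * σ + d‖ ^ 2 := pow_pos (norm_pos_iff.2 (mob_den h0 hσ)) 2
  rw [e1, mob_im h0 hσ, one_lt_div hn] at hτ
  rcases eq_or_ne c 0 with rfl | c0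
  · have d1 : (1 : ℝ) ≤ (d : ℝ) ^ 2 := by
      have : d ≠ 0 := by omega
      exact_mod_cast sq_pos_of_ne_zero this
    simp only [Int.cast_zero, zero_mul, zero_add, Complex.norm_intCast, sq_abs] at hτ
    linarith
  · have c4 : (4 : ℝ) ≤ (c : ℝ) ^ 2 := by
      have : (4 : ℤ) ≤ c ^ 2 := by
        obtain ⟨r, rfl⟩ : ∃ r, c = 2 * r := ⟨c / 2, by omega⟩
        have : r ≠ 0 := by omega
        nlinarith [sq_pos_of_ne_zero this]
      exact_mod_cast this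
    rw [Complex.sq_norm, Complex.normSq_apply] at hτ
    have him : ((c : ℂ) * σ + d).im = c * σ.im := by simp
    rw [him] at hτ
    nlinarith [mul_self_nonneg ((c : ℂ) * σ + d).re, mul_le_mul_of_nonneg_right c4 (sq_nonneg σ.im)]

theorem lam_cusp {e : ℝ} (he : 0 < e) : ∃ Y : ℝ, ∀ τ : ℂ, Y ≤ τ.im → ‖lam τ‖ ≤ e := by
  obtain ⟨ε, ε0, hε⟩ := L3_away
  have ne2 : ∀ τ : ℂ, 1 < τ.im → lam τ - 2 ≠ 0 := fun τ h k => by
    have := hε τ h
    rw [k, norm_zero] at this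
    linarith
  set g : ℂ → ℂ := fun τ => if 0 < τ.im then (lam τ - 2)⁻¹ else 0 with hg
  have g1 : ∀ τ : ℂ, 1 < τ.im → g τ = (lam τ - 2)⁻¹ := fun τ h => if_pos (by linarith)
  have hop : IsOpen {τ : ℂ | 1 < τ.im} := isOpen_lt continuous_const Complex.continuous_im
  have hev : ∀ᶠ τ : ℂ in comap Complex.im atTop, 1 < τ.im :=
    tendsto_comap.eventually (eventually_gt_atTop 1)
  have hper : Function.Periodic g ((2 : ℝ) : ℂ) := fun τ => by
    have e1 : (τ + ((2 : ℝ) : ℂ)).im = τ.im := by simp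
    simp only [hg, e1]
    split_ifs with h
    · rw [show τ + ((2 : ℝ) : ℂ) = τ + 2 * ((1 : ℤ) : ℂ) by push_cast; ring, lam_add_two h]
    · rfl
  have hdiff : ∀ᶠ τ : ℂ in comap Complex.im atTop, DifferentiableAt ℂ g τ :=
    hev.mono fun τ h => by
      have d1 : DifferentiableAt ℂ lam τ :=
        hol_lam.differentiableAt (isOpen_UH.mem_nhds (show 0 < τ.im by linarith))
      exact ((d1.sub_const 2).inv (ne2 τ h)).congr_of_eventuallyEq
        (eventually_of_mem (hop.mem_nhds h) g1)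
  have hbd : BoundedAtFilter (comap Complex.im atTop) g :=
    Asymptotics.IsBigO.of_bound ε⁻¹ (hev.mono fun τ h => by
      rw [g1 τ h, norm_inv]
      simpa using inv_anti₀ ε0 (hε τ h))
  have hl := Function.Periodic.tendsto_at_I_inf (by norm_num : (0 : ℝ) < 2) hper hdiff hbd
  set g0 := Function.Periodic.cuspFunction 2 g 0
  have hsh : Tendsto (fun τ : ℂ => τ + 1) (comap Complex.im atTop) (comap Complex.im atTop) := by
    rw [tendsto_comap_iff]
    have : (Complex.im ∘ fun τ : ℂ => τ + 1) = Complex.im := by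
      funext τ
      simp
    rw [this]
    exact tendsto_comap
  have hne : (comap Complex.im atTop).NeBot :=
    comap_neBot fun t ht => by
      obtain ⟨y, hy⟩ := Filter.nonempty_of_mem ht
      exact ⟨y * I, by simpa using hy⟩
  have h1 : Tendsto (fun τ => -1 - g τ) (comap Complex.im atTop) (𝓝 g0) :=
    (hl.comp hsh).congr' (hev.mono fun τ h => by
      have hτ : τ ∈ UH := show 0 < τ.im by linarith
      have n1 : lam τ - 1 ≠ 0 := sub_ne_zero.2 (lam_ne hτ).2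
      have n2 := ne2 τ h
      have e1 : lam τ / (lam τ - 1) - 2 = -(lam τ - 2) / (lam τ - 1) := by
        field_simp
        ring
      show g (τ + 1) = -1 - g τ
      rw [g1 (τ + 1) (by simpa using h), g1 τ h, lam_add_one hτ, e1]
      field_simp
      ring)
  have h2 : g0 = -1 / 2 := by
    have := tendsto_nhds_unique h1 (hl.const_sub (-1))
    linear_combination (1 / 2 : ℂ) * this
  have h3 : Tendsto lam (comap Complex.im atTop) (𝓝 0) := by
    have h4 := (hl.inv₀ (by rw [h2]; norm_num)).add_const 2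
    rw [h2, show (-1 / 2 : ℂ)⁻¹ + 2 = 0 by norm_num] at h4
    exact h4.congr' (hev.mono fun τ h => by
      show (g τ)⁻¹ + 2 = lam τ
      rw [g1 τ h, inv_inv]
      ring)
  have h5 := h3.norm.eventually (ge_mem_nhds (by simpa using he : ‖(0 : ℂ)‖ < e))
  obtain ⟨Y, hY⟩ := eventually_atTop.1 (eventually_comap.1 h5)
  exact ⟨Y, fun τ h => hY _ h τ rfl⟩
-- END L3

-- BEGIN C
theorem C_isLam : MPb1b13a.Disc.IsLam lam where
  diff := hol_lam
  ne_zero := fun _ ht => (lam_ne ht).1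
  ne_one := fun _ ht => (lam_ne ht).2
  deriv_ne := fun _ ht => lam_deriv_ne ht
  shift := fun _ ht => lam_add_one ht
  inv := fun _ ht => lam_S ht
  cusp := fun _ he => lam_cusp he
  fib := fun s t hs ht h => by
    obtain ⟨a, b, c, d, ⟨h1, -, h2, h3, -⟩, h4⟩ := lam_fibre ht hs h.symm
    exact ⟨a, b, c, d, h1, Int.even_iff.mpr h2, Int.even_iff.mpr h3, h4⟩

theorem lam_unique {f : ℂ → ℂ} (hf : Hol f) (h0 : ∀ τ ∈ UH, f τ ≠ 0 ∧ f τ ≠ 1)
    (h1 : f I = 1 / 2) (h2 : f (1 + I) = -1) (h3 : f (-1 + I) = -1) :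
    ∀ τ ∈ UH, f τ = lam τ :=
  C_isLam.unique hf h0 h1 h2 h3

theorem flat {u : ℂ → ℂ} (hu : Hol u) (h : ∀ τ ∈ UH, ¬ Lat τ (u τ)) :
    ∃ v : ℂ, ∀ τ ∈ UH, u τ = bt v τ := by
  obtain ⟨a, b, hab⟩ := C_isLam.flat u hu fun t ht m n e => h t ht ⟨m, n, e⟩
  exact ⟨⟨a, b⟩, hab⟩
-- END C

end Pool.Agent.Lib.MP_b1b13a_lc.Dk
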