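import Pool.Agent.Lib.MP_b1b13a_lc.Dk.Ring
import Pool.Agent.Lib.MP_b1b13a_lc.Rep

set_option autoImplicit false

noncomputable section

namespace Pool.Agent.Lib.MP_b1b13a_lc.Dk

open Complex Set Filter Topology

-- BEGIN E1
theorem Tm.var {α : Type} (a : α) : Tm fun _ _ v => v a :=
  ⟨MvPolynomial.X a, fun _ _ _ => by simp⟩

theorem Tm.int {α : Type} (n : ℤ) : Tm (α := α) fun R _ _ => (n : R) :=
  ⟨MvPolynomial.C n, fun _ _ _ => by rw [MvPolynomial.eval₂_C, eq_intCast]⟩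

theorem Tm.nat {α : Type} (n : ℕ) [n.AtLeastTwo] :
    Tm (α := α) fun R _ _ => (OfNat.ofNat n : R) :=
  ⟨MvPolynomial.C (n : ℤ), fun R _ _ => by
    rw [MvPolynomial.eval₂_C]
    simp only [eq_intCast, Int.cast_natCast]
    exact Nat.cast_ofNat.symm⟩

theorem Tm.one {α : Type} : Tm (α := α) fun R _ _ => (1 : R) := ⟨1, fun _ _ _ => by simp⟩

theorem Tm.zero {α : Type} : Tm (α := α) fun R _ _ => (0 : R) := ⟨0, fun _ _ _ => by simp⟩

theorem Tm.add {α : Type} {f g : (R : Type) → [CommRing R] → (α → R) → R} (hf : Tm f)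
    (hg : Tm g) : Tm fun R _ v => f R v + g R v := by
  obtain ⟨p, hp⟩ := hf
  obtain ⟨q, hq⟩ := hg
  exact ⟨p + q, fun R _ v => by simp [hp, hq]⟩

theorem Tm.sub {α : Type} {f g : (R : Type) → [CommRing R] → (α → R) → R} (hf : Tm f)
    (hg : Tm g) : Tm fun R _ v => f R v - g R v := by
  obtain ⟨p, hp⟩ := hf
  obtain ⟨q, hq⟩ := hg
  exact ⟨p - q, fun R _ v => by simp [hp, hq, MvPolynomial.eval₂_sub]⟩

theorem Tm.mul {α : Type} {f g : (R : Type) → [CommRing R] → (α → R) → R} (hf : Tm f)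
    (hg : Tm g) : Tm fun R _ v => f R v * g R v := by
  obtain ⟨p, hp⟩ := hf
  obtain ⟨q, hq⟩ := hg
  exact ⟨p * q, fun R _ v => by simp [hp, hq]⟩

theorem Tm.neg {α : Type} {f : (R : Type) → [CommRing R] → (α → R) → R} (hf : Tm f) :
    Tm fun R _ v => -f R v := by
  obtain ⟨p, hp⟩ := hf
  exact ⟨-p, fun R _ v => by simp [hp]⟩

theorem Tm.pow {α : Type} {f : (R : Type) → [CommRing R] → (α → R) → R} (hf : Tm f) (n : ℕ) :
    Tm fun R _ v => f R v ^ n := by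
  obtain ⟨p, hp⟩ := hf
  exact ⟨p ^ n, fun R _ v => by simp [hp, MvPolynomial.eval₂_pow]⟩

theorem PE.congr {α : Type} {S T : (R : Type) → [CommRing R] → (α → R) → Prop} (h : PE S)
    (e : ∀ (R : Type) [CommRing R] (v : α → R), S R v ↔ T R v) : PE T := by
  obtain ⟨β, hβ, ps, h⟩ := h
  exact ⟨β, hβ, ps, fun R _ v => (e R v).symm.trans (h R v)⟩

theorem PE.eq {α : Type} {f g : (R : Type) → [CommRing R] → (α → R) → R} (hf : Tm f)
    (hg : Tm g) : PE fun R _ v => f R v = g R v := by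
  obtain ⟨p, hp⟩ := hf
  obtain ⟨q, hq⟩ := hg
  refine ⟨Empty, inferInstance, [MvPolynomial.rename Sum.inl (p - q)], fun R _ v => ?_⟩
  simp only [List.mem_singleton, forall_eq, MvPolynomial.eval₂_rename, Sum.elim_comp_inl,
    MvPolynomial.eval₂_sub, hp, hq, sub_eq_zero]
  exact ⟨fun h => ⟨Empty.elim, h⟩, fun ⟨_, h⟩ => h⟩

theorem PE.dvd {α : Type} {f g : (R : Type) → [CommRing R] → (α → R) → R} (hf : Tm f)
    (hg : Tm g) : PE fun R _ v => f R v ∣ g R v := by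
  obtain ⟨p, hp⟩ := hf
  obtain ⟨q, hq⟩ := hg
  refine ⟨Unit, inferInstance, [MvPolynomial.rename Sum.inl q -
    MvPolynomial.rename Sum.inl p * MvPolynomial.X (Sum.inr ())], fun R _ v => ?_⟩
  simp only [List.mem_singleton, forall_eq, MvPolynomial.eval₂_rename, Sum.elim_comp_inl,
    MvPolynomial.eval₂_sub, MvPolynomial.eval₂_mul, MvPolynomial.eval₂_X, Sum.elim_inr, hp, hq,
    sub_eq_zero]
  exact ⟨fun ⟨x, h⟩ => ⟨fun _ => x, h⟩, fun ⟨t, h⟩ => ⟨t (), h⟩⟩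

theorem PE.and {α : Type} {S T : (R : Type) → [CommRing R] → (α → R) → Prop} (h : PE S)
    (k : PE T) : PE fun R _ v => S R v ∧ T R v := by
  obtain ⟨γ, _, L, h⟩ := h
  obtain ⟨δ, _, M, k⟩ := k
  refine ⟨γ ⊕ δ, inferInstance, L.map (MvPolynomial.rename (Sum.map id Sum.inl)) ++
    M.map (MvPolynomial.rename (Sum.map id Sum.inr)), fun R _ v => ?_⟩
  have e1 : ∀ y : γ ⊕ δ → R, (Sum.elim v y) ∘ (Sum.map id Sum.inl)
      = Sum.elim v fun g => y (.inl g) := fun y => by funext a; cases a <;> rfl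
  have e2 : ∀ y : γ ⊕ δ → R, (Sum.elim v y) ∘ (Sum.map id Sum.inr)
      = Sum.elim v fun g => y (.inr g) := fun y => by funext a; cases a <;> rfl
  simp only [List.forall_mem_append, List.forall_mem_map, MvPolynomial.eval₂_rename, e1, e2, h, k]
  exact ⟨fun ⟨⟨y, h1⟩, y', h2⟩ => ⟨Sum.elim y y', h1, h2⟩, fun ⟨_, h1, h2⟩ => ⟨⟨_, h1⟩, _, h2⟩⟩

/-- substitution of terms for the variables -/
theorem PE.comp {α β : Type} {S : (R : Type) → [CommRing R] → (β → R) → Prop} (h : PE S)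
    (f : β → (R : Type) → [CommRing R] → (α → R) → R) (hf : ∀ b, Tm (f b)) :
    PE fun R _ v => S R fun b => f b R v := by
  obtain ⟨γ, _, L, h⟩ := h
  choose q hq using hf
  refine ⟨γ, inferInstance, L.map (MvPolynomial.bind₁ (Sum.elim
    (fun b => MvPolynomial.rename Sum.inl (q b)) fun g => MvPolynomial.X (Sum.inr g))),
    fun R _ v => ?_⟩
  beta_reduce
  rw [h]
  refine exists_congr fun t => ?_
  simp only [List.forall_mem_map]
  refine forall₂_congr fun p _ => ?_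
  have := MvPolynomial.eval₂Hom_bind₁ (Int.castRingHom R) (Sum.elim v t) (Sum.elim
    (fun b => MvPolynomial.rename Sum.inl (q b)) fun g => MvPolynomial.X (Sum.inr g)) p
  simp only [MvPolynomial.coe_eval₂Hom] at this
  rw [this]
  congr! 2
  funext a
  cases a with
  | inl b => simp [hq, MvPolynomial.eval₂_rename]
  | inr g => simp

theorem PE.exFun {α γ : Type} [Countable γ] {S : (R : Type) → [CommRing R] → (α ⊕ γ → R) → Prop}
    (h : PE S) : PE fun R _ (v : α → R) => ∃ x : γ → R, S R (Sum.elim v x) := by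
  obtain ⟨δ, _, L, h⟩ := h
  refine ⟨γ ⊕ δ, inferInstance, L.map (MvPolynomial.rename (Equiv.sumAssoc α γ δ)),
    fun R _ v => ?_⟩
  have e1 : ∀ y : γ ⊕ δ → R, (Sum.elim v y) ∘ (Equiv.sumAssoc α γ δ)
      = Sum.elim (Sum.elim v fun k => y (.inl k)) fun g => y (.inr g) := fun y => by
    funext a; rcases a with (a | a) | a <;> rfl
  simp only [List.forall_mem_map, MvPolynomial.eval₂_rename, e1, h]
  exact ⟨fun ⟨x, y, h1⟩ => ⟨Sum.elim x y, h1⟩, fun ⟨_, h1⟩ => ⟨_, _, h1⟩⟩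

theorem PE.ex {α : Type} {S : (R : Type) → [CommRing R] → (α → R) → R → Prop}
    (h : PE fun R _ (v : Option α → R) => S R (fun a => v (some a)) (v none)) :
    PE fun R _ v => ∃ x, S R v x := by
  refine (PE.exFun (γ := Unit) (h.comp (α := α ⊕ Unit)
    (fun o _ _ v => v (o.elim (Sum.inr ()) Sum.inl)) fun _ => Tm.var _)).congr fun R _ v => ?_
  exact ⟨fun ⟨x, h⟩ => ⟨x (), h⟩, fun ⟨x, h⟩ => ⟨fun _ => x, h⟩⟩

theorem PE.exP {α : Type} {S : (R : Type) → [CommRing R] → (α → R) → R × R → Prop}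
    (h : PE fun R _ (v : Option (Option α) → R) =>
      S R (fun a => v (some (some a))) (v (some none), v none)) :
    PE fun R _ v => ∃ P, S R v P := by
  have h1 : PE fun R _ (v : Option α → R) => ∃ y, S R (fun a => v (some a)) (v none, y) :=
    PE.ex (S := fun R _ (v : Option α → R) y => S R (fun a => v (some a)) (v none, y)) h
  exact (PE.ex (S := fun R _ v x => ∃ y, S R v (x, y)) h1).congr fun R _ v => Prod.exists.symm

theorem PE.ball {α : Type} {S : ℕ → (R : Type) → [CommRing R] → (α → R) → Prop}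
    (h : ∀ j, PE (S j)) (d : ℕ) : PE fun R _ v => ∀ j < d, S j R v := by
  induction d with
  | zero => exact ⟨Empty, inferInstance, [], fun R _ v => by simp⟩
  | succ d ih => exact (ih.and (h d)).congr fun R _ v => Nat.forall_lt_succ_right.symm

theorem PE.map {α : Type} {S : (R : Type) → [CommRing R] → (α → R) → Prop} (h : PE S)
    {R R' : Type} [CommRing R] [CommRing R'] (φ : R →+* R') {v : α → R} (k : S R v) :
    S R' fun a => φ (v a) := by
  obtain ⟨β, _, L, h⟩ := h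
  obtain ⟨t, ht⟩ := (h R v).1 k
  refine (h R' _).2 ⟨fun b => φ (t b), fun p hp => ?_⟩
  have := congrArg φ (ht p hp)
  rw [MvPolynomial.eval₂_comp_left, map_zero] at this
  rw [← this]
  congr 1
  · exact RingHom.ext_int _ _
  · funext a
    cases a <;> rfl

theorem E1_ev {σ : Type} {U : Set ℂ} (v : σ → O U) (p : MvPolynomial σ ℤ) {w : ℂ} (hw : w ∈ U) :
    ev w hw (MvPolynomial.eval₂ (Int.castRingHom (O U)) v p)
      = MvPolynomial.aeval (fun a => ev w hw (v a)) p := by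
  rw [MvPolynomial.eval₂_comp_left, MvPolynomial.aeval_def]
  exact congrArg₂ (fun f g => MvPolynomial.eval₂ f g p) (RingHom.ext_int _ _) rfl

/-- the coding by lists: variable `0` is `z`, variable `1` is the first unknown -/
theorem PE.code {S : (R : Type) → [CommRing R] → (Fin 2 → R) → Prop} (h : PE S) :
    ∃ sys : List (List (ℤ × List ℕ)), ∀ (U : Set ℂ) (n : ℕ),
      S (O U) ![mk id differentiableOn_id, (n : O U)] ↔ ∃ xs : ℕ → ℂ → ℂ,
        (∀ i, DifferentiableOn ℂ (xs i) U) ∧ (∀ w ∈ U, xs 0 w = n) ∧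
          ∀ p ∈ sys, ∀ w ∈ U, MP_b1b13a_lc.ev p (val w fun i => xs i w) = 0 := by
  obtain ⟨β, _, L, h⟩ := h
  obtain ⟨e, he⟩ := Countable.exists_injective_nat β
  let r : Fin 2 ⊕ β → ℕ := Sum.elim (fun i => i) fun b => e b + 2
  choose cd hcd using exists_ev
  refine ⟨L.map fun p => cd (MvPolynomial.rename r p), fun U n => ?_⟩
  simp only [h, List.forall_mem_map, hcd, MvPolynomial.aeval_rename]
  constructor
  · rintro ⟨t, ht⟩
    refine ⟨fun i => Nat.casesOn i (fun _ => (n : ℂ))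
      (Function.extend e (fun b => fn (t b)) fun _ _ => 0), ?_, fun w _ => rfl, ?_⟩
    · rintro (_ | i)
      · exact differentiableOn_const _
      · show DifferentiableOn ℂ (Function.extend e (fun b => fn (t b)) (fun _ _ => 0) i) U
        by_cases hi : ∃ b, e b = i
        · obtain ⟨b, rfl⟩ := hi
          rw [he.extend_apply]
          exact hol_fn _
        · rw [Function.extend_apply' _ _ _ hi]
          exact differentiableOn_const _
    · intro p hp w hw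
      have := congrArg (ev w hw) (ht p hp)
      rw [E1_ev, map_zero] at this
      rw [← this]
      congr 2
      funext a
      rcases a with i | b
      · fin_cases i
        · simp [r, ev_mk]
        · simp [r, val]
      · simp only [r, Function.comp, Sum.elim_inr, val_succ, he.extend_apply, ev_eq]
  · rintro ⟨xs, hx, h0, hs⟩
    refine ⟨fun b => mk (xs (e b + 1)) (hx _), fun p hp => O_ext fun w hw => ?_⟩
    rw [E1_ev, map_zero, ← hs p hp w hw]
    congr 2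
    funext a
    rcases a with i | b
    · fin_cases i
      · simp [r, ev_mk]
      · simp [r, val, h0 w hw]
    · simp only [r, Function.comp, Sum.elim_inr, val_succ, ev_mk]
-- END E1

-- BEGIN E2
theorem Tm.E2ren {α β : Type} {f : (R : Type) → [CommRing R] → (α → R) → R} (hf : Tm f)
    (r : α → β) : Tm fun R _ (v : β → R) => f R fun a => v (r a) := by
  obtain ⟨p, hp⟩ := hf
  exact ⟨MvPolynomial.rename r p, fun R _ v => by
    rw [MvPolynomial.eval₂_rename]; exact hp R _⟩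

/-- a pair of terms -/
def E2P {α : Type} (P : (R : Type) → [CommRing R] → (α → R) → R × R) : Prop :=
  (Tm fun R _ v => (P R v).1) ∧ Tm fun R _ v => (P R v).2

theorem E2P.ren {α β : Type} {P : (R : Type) → [CommRing R] → (α → R) → R × R} (h : E2P P)
    (r : α → β) : E2P fun R _ (v : β → R) => P R fun a => v (r a) :=
  ⟨h.1.E2ren r, h.2.E2ren r⟩

theorem E2P.var {α : Type} (a b : α) : E2P fun _ _ v => (v a, v b) := ⟨Tm.var a, Tm.var b⟩

/-- the fixed elements are terms -/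
structure E2C {α : Type} (c : (R : Type) → [CommRing R] → (α → R) → Cx R) : Prop where
  i : Tm fun R _ v => (c R v).i
  τ : Tm fun R _ v => (c R v).τ
  l : Tm fun R _ v => (c R v).l
  δ : Tm fun R _ v => (c R v).δ
  p0 : E2P fun R _ v => (c R v).p0
  r0 : E2P fun R _ v => (c R v).r0
  b0 : E2P fun R _ v => (c R v).b0

theorem E2C.ren {α β : Type} {c : (R : Type) → [CommRing R] → (α → R) → Cx R} (h : E2C c)
    (r : α → β) : E2C fun R _ (v : β → R) => c R fun a => v (r a) :=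
  ⟨h.i.E2ren r, h.τ.E2ren r, h.l.E2ren r, h.δ.E2ren r, h.p0.ren r, h.r0.ren r, h.b0.ren r⟩

section
variable {α : Type} {c : (R : Type) → [CommRing R] → (α → R) → Cx R}
  {g : (R : Type) → [CommRing R] → (α → R) → R}
  {P Q S T : (R : Type) → [CommRing R] → (α → R) → R × R}

theorem E2_sec (hc : E2C c) (hP : E2P P) : PE fun R _ v => Sec (c R v) (P R v) :=
  (PE.dvd hP.2 Tm.one).and
    (PE.eq (hP.2.pow 2) (hc.δ.mul ((hP.1.mul (hP.1.sub Tm.one)).mul (hP.1.sub hc.l))))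

theorem E2_ad (hc : E2C c) (hP : E2P P) (hQ : E2P Q) (hS : E2P S) :
    PE fun R _ v => Ad (c R v) (P R v) (Q R v) (S R v) := by
  have hc := hc.ren some
  have hP := hP.ren some
  have hQ := hQ.ren some
  have hS := hS.ren some
  have hm : Tm fun R _ (v : Option α → R) => v none := Tm.var _
  exact PE.ex <| (PE.dvd (hP.1.sub hQ.1) Tm.one).and <|
    (PE.eq (hm.mul (hP.1.sub hQ.1)) (hP.2.sub hQ.2)).and <|
    (PE.eq (hc.δ.mul ((((hP.1.add hQ.1).add hS.1).sub Tm.one).sub hc.l)) (hm.pow 2)).and <|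
    PE.eq hS.2 (hP.2.add (hm.mul (hS.1.sub hP.1))).neg

theorem E2_cm (hc : E2C c) (hg : Tm g) (hP : E2P P) (hQ : E2P Q) :
    PE fun R _ v => Cm (c R v) (g R v) (P R v) (Q R v) :=
  (PE.dvd hg ((hQ.1.add hP.1).sub Tm.one)).and (PE.dvd hg (hQ.2.sub (hc.i.mul hP.2)))

theorem E2_jm (hc : E2C c) (hP : E2P P) (hQ : E2P Q) :
    PE fun R _ v => Jm (c R v) (P R v) (Q R v) :=
  E2_cm hc (hc.τ.sub hc.i) hP hQ

theorem E2_pt (hc : E2C c) (hg : Tm g) : PE fun R _ v => Pt (c R v) (g R v) := by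
  refine (PE.dvd hg (((Tm.nat 2).mul hc.l).sub Tm.one)).and <|
    (PE.dvd ((hg.sub Tm.one).mul (hg.sub hc.l)) Tm.one).and <|
    (PE.ex <| PE.eq ((Tm.var _).pow 2) ((hg.E2ren _).sub (hc.l.E2ren _))).and <|
    (PE.ex <| (PE.dvd ((Tm.var _).mul (Tm.one.sub (Tm.var _))) Tm.one).and <|
      (PE.dvd ((hc.τ.E2ren _).sub (hc.i.E2ren _)) ((Tm.var _).sub (hg.E2ren _))).and <|
      PE.dvd (((Tm.nat 500).mul (hc.τ.E2ren _)).sub ((Tm.nat 501).mul (hc.i.E2ren _)))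
        (((Tm.nat 2).mul (Tm.var _)).sub Tm.one)).and <| PE.exP <|
    (E2_sec (hc.ren _) (E2P.var _ _)).and <|
    (PE.dvd ((hc.τ.E2ren _).sub (hc.i.E2ren _)) ((hg.E2ren _).sub (Tm.var _))).and <|
    PE.ex <| PE.ex <| PE.eq (((Tm.var _).mul ((hg.E2ren _).sub (Tm.var _))).add ((Tm.var _).mul
      ((hc.τ.E2ren _).sub ((Tm.nat 2).mul (hc.i.E2ren _))))) Tm.one

theorem E2_ok1 (hc : E2C c) : PE fun R _ v => Ok1 (c R v) :=
  (PE.dvd (hc.l.mul (Tm.one.sub hc.l)) Tm.one).and <|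
    (PE.dvd (hc.τ.sub hc.i) (((Tm.nat 2).mul hc.l).sub Tm.one)).and <|
    (PE.dvd ((hc.τ.sub Tm.one).sub hc.i) (hc.l.add Tm.one)).and <|
    (PE.dvd ((hc.τ.add Tm.one).sub hc.i) (hc.l.add Tm.one)).and <|
    (E2_sec hc hc.p0).and <|
    PE.dvd (hc.τ.sub hc.i) (((Tm.nat 4).mul hc.p0.1).sub (Tm.nat 5))

theorem E2_ok2 (hc : E2C c) : PE fun R _ v => Ok2 (c R v) :=
  (E2_sec hc hc.r0).and <| (E2_sec hc hc.b0).and <| (E2_jm hc hc.p0 hc.r0).and <|
    PE.exP <| PE.exP <| (E2_sec (hc.ren _) (E2P.var _ _)).and <|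
    (E2_sec (hc.ren _) (E2P.var _ _)).and <|
    (E2_ad (hc.ren _) (hc.p0.ren _) (hc.r0.ren _) (E2P.var _ _)).and <|
    (E2_jm (hc.ren _) (E2P.var _ _) (E2P.var _ _)).and <|
    E2_ad (hc.ren _) (E2P.var _ _) ⟨Tm.var _, (Tm.var _).neg⟩ (hc.b0.ren _)

theorem E2_eq4 (hc : E2C c) (hP : E2P P) (hQ : E2P Q) (hS : E2P S) (hT : E2P T) :
    PE fun R _ v => Eq4 (c R v) (P R v) (Q R v) (S R v) (T R v) :=
  PE.exP <| PE.exP <| PE.exP <| (E2_sec (hc.ren _) (E2P.var _ _)).and <|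
    (E2_sec (hc.ren _) (E2P.var _ _)).and <| (E2_sec (hc.ren _) (E2P.var _ _)).and <|
    (E2_ad (hc.ren _) (hP.ren _) (hc.r0.ren _) (E2P.var _ _)).and <|
    (E2_ad (hc.ren _) (E2P.var _ _) (hQ.ren _) (E2P.var _ _)).and <|
    (E2_ad (hc.ren _) (hS.ren _) (hc.r0.ren _) (E2P.var _ _)).and <|
    E2_ad (hc.ren _) (E2P.var _ _) (hT.ren _) (E2P.var _ _)

theorem E2_sc (hc : E2C c) (hg : Tm g) (hP : E2P P) (hQ : E2P Q) :
    PE fun R _ v => Sc (c R v) (g R v) (P R v) (Q R v) :=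
  PE.exP <| PE.exP <| PE.exP <| PE.exP <| (E2_sec (hc.ren _) (E2P.var _ _)).and <|
    (E2_sec (hc.ren _) (E2P.var _ _)).and <| (E2_sec (hc.ren _) (E2P.var _ _)).and <|
    (E2_sec (hc.ren _) (E2P.var _ _)).and <| (E2_sec (hc.ren _) (hQ.ren _)).and <|
    (E2_jm (hc.ren _) (hP.ren _) (E2P.var _ _)).and <|
    (E2_cm (hc.ren _) (hg.E2ren _) (E2P.var _ _) (E2P.var _ _)).and <|
    (E2_cm (hc.ren _) (hg.E2ren _) (hP.ren _) (E2P.var _ _)).and <|
    (E2_jm (hc.ren _) (E2P.var _ _) (E2P.var _ _)).and <|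
    E2_ad (hc.ren _) (E2P.var _ _) (E2P.var _ _) (hQ.ren _)

theorem E2_pl (hc : E2C c) (hP : E2P P) (hQ : E2P Q) (hS : E2P S) :
    PE fun R _ v => Pl (c R v) (P R v) (Q R v) (S R v) :=
  E2_eq4 hc hP hQ hS hc.b0

theorem E2_dom (hc : E2C c) (hP : E2P P) : PE fun R _ v => Dom (c R v) (P R v) :=
  PE.ex <| PE.ex <| PE.ex <| PE.exP <| PE.exP <| PE.exP <|
    (E2_pt (hc.ren _) (Tm.var _)).and <| (E2_pt (hc.ren _) (Tm.var _)).and <|
    (E2_pt (hc.ren _) (Tm.var _)).and <|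
    (E2_sc (hc.ren _) (Tm.var _) (hc.p0.ren _) (E2P.var _ _)).and <|
    (E2_sc (hc.ren _) (Tm.var _) (hc.p0.ren _) (E2P.var _ _)).and <|
    (E2_sc (hc.ren _) (Tm.var _) (hc.p0.ren _) (E2P.var _ _)).and <|
    (E2_sec (hc.ren _) (hP.ren _)).and <|
    E2_eq4 (hc.ren _) (E2P.var _ _) (E2P.var _ _) (E2P.var _ _) (hP.ren _)

theorem E2_ml (hc : E2C c) (hP : E2P P) (hQ : E2P Q) (hS : E2P S) :
    PE fun R _ v => Ml (c R v) (P R v) (Q R v) (S R v) :=
  PE.ex <| PE.ex <| PE.ex <| PE.exP <| PE.exP <| PE.exP <| PE.exP <| PE.exP <| PE.exP <|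
    PE.exP <| PE.exP <| PE.exP <| PE.exP <| PE.exP <| PE.exP <|
    (E2_pt (hc.ren _) (Tm.var _)).and <| (E2_pt (hc.ren _) (Tm.var _)).and <|
    (E2_pt (hc.ren _) (Tm.var _)).and <|
    (E2_sc (hc.ren _) (Tm.var _) (hc.p0.ren _) (E2P.var _ _)).and <|
    (E2_sc (hc.ren _) (Tm.var _) (hc.p0.ren _) (E2P.var _ _)).and <|
    (E2_sc (hc.ren _) (Tm.var _) (hc.p0.ren _) (E2P.var _ _)).and <|
    (E2_sc (hc.ren _) (Tm.var _) (hQ.ren _) (E2P.var _ _)).and <|
    (E2_sc (hc.ren _) (Tm.var _) (hQ.ren _) (E2P.var _ _)).and <|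
    (E2_sc (hc.ren _) (Tm.var _) (hQ.ren _) (E2P.var _ _)).and <|
    (E2_sec (hc.ren _) (E2P.var _ _)).and <| (E2_sec (hc.ren _) (E2P.var _ _)).and <|
    (E2_sec (hc.ren _) (E2P.var _ _)).and <| (E2_sec (hc.ren _) (E2P.var _ _)).and <|
    (E2_sec (hc.ren _) (E2P.var _ _)).and <| (E2_sec (hc.ren _) (E2P.var _ _)).and <|
    (E2_eq4 (hc.ren _) (E2P.var _ _) (E2P.var _ _) (E2P.var _ _) (hP.ren _)).and <|
    (E2_eq4 (hc.ren _) (E2P.var _ _) (E2P.var _ _) (E2P.var _ _) (E2P.var _ _)).and <|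
    (E2_dom (hc.ren _) (hS.ren _)).and <|
    (E2_pl (hc.ren _) (hS.ren _) (hS.ren _) (E2P.var _ _)).and <|
    (E2_pl (hc.ren _) (E2P.var _ _) (hP.ren _) (E2P.var _ _)).and <|
    (E2_pl (hc.ren _) (E2P.var _ _) (hQ.ren _) (E2P.var _ _)).and <|
    (E2_ad (hc.ren _) (E2P.var _ _) (hc.r0.ren _) (E2P.var _ _)).and <|
    (E2_ad (hc.ren _) (E2P.var _ _) (E2P.var _ _) (E2P.var _ _)).and <|
    E2_ad (hc.ren _) (E2P.var _ _) (E2P.var _ _) (hc.r0.ren _)

theorem E2_par (hc : E2C c) (hg : Tm g) (hP : E2P P) :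
    PE fun R _ v => Par (c R v) (g R v) (P R v) :=
  E2_sc hc ((hc.τ.sub hc.i).sub ((Tm.nat 2).mul (hg.add Tm.one))) hc.p0 hP
end

theorem E2_gr (e : Ex) : ∀ {α : Type} {c : (R : Type) → [CommRing R] → (α → R) → Cx R}
    {A : ℕ → (R : Type) → [CommRing R] → (α → R) → R × R}
    {W : (R : Type) → [CommRing R] → (α → R) → R × R}, E2C c → (∀ j, E2P (A j)) → E2P W →
    PE fun R _ v => Gr (c R v) (fun j => A j R v) e (W R v) := by
  induction e with
  | var j => exact fun _ hA hW => (PE.eq hW.1 (hA j).1).and (PE.eq hW.2 (hA j).2)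
  | one => exact fun hc _ hW => E2_par hc Tm.zero hW
  | neg a ih =>
    exact fun hc hA hW => PE.exP <| (ih (hc.ren _) (fun j => (hA j).ren _) (E2P.var _ _)).and <|
      (E2_sec (hc.ren _) (hW.ren _)).and <|
      E2_pl (hc.ren _) (E2P.var _ _) (hW.ren _) (hc.b0.ren _)
  | add a b iha ihb =>
    exact fun hc hA hW => PE.exP <| PE.exP <|
      (iha (hc.ren _) (fun j => (hA j).ren _) (E2P.var _ _)).and <|
      (ihb (hc.ren _) (fun j => (hA j).ren _) (E2P.var _ _)).and <|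
      (E2_sec (hc.ren _) (hW.ren _)).and <|
      E2_pl (hc.ren _) (E2P.var _ _) (E2P.var _ _) (hW.ren _)
  | mul a b iha ihb =>
    exact fun hc hA hW => PE.exP <| PE.exP <|
      (iha (hc.ren _) (fun j => (hA j).ren _) (E2P.var _ _)).and <|
      (ihb (hc.ren _) (fun j => (hA j).ren _) (E2P.var _ _)).and <|
      E2_ml (hc.ren _) (E2P.var _ _) (E2P.var _ _) (hW.ren _)

theorem E2_eqn (e : Ex) {α : Type} {c : (R : Type) → [CommRing R] → (α → R) → Cx R}
    {k : (R : Type) → [CommRing R] → (α → R) → R} (hc : E2C c) (hk : Tm k) :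
    PE fun R _ v => Eqn (c R v) e (k R v) := by
  refine (E2_ok2 hc).and ?_
  have hc' := hc.ren (Sum.inl : α → α ⊕ ℕ ⊕ ℕ)
  have hA : ∀ j : ℕ, E2P fun R _ (v : α ⊕ ℕ ⊕ ℕ → R) =>
      (v (Sum.inr (Sum.inl j)), v (Sum.inr (Sum.inr j))) := fun j => E2P.var _ _
  refine (PE.exFun ((PE.ball (fun j => E2_dom hc' (hA j)) (e.bd + 1)).and
    ((E2_par hc' (hk.E2ren Sum.inl) (hA 0)).and (E2_gr e hc' hA hc'.b0)))).congr fun R _ v => ?_
  exact ⟨fun ⟨x, h⟩ => ⟨fun j => (x (Sum.inl j), x (Sum.inr j)), h⟩,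
    fun ⟨A, h⟩ => ⟨Sum.elim (fun j => (A j).1) fun j => (A j).2, h⟩⟩

theorem E2_mainH (e : Ex) {α : Type} {i τ k : (R : Type) → [CommRing R] → (α → R) → R}
    (hi : Tm i) (hτ : Tm τ) (hk : Tm k) : PE fun R _ v => MainH e (i R v) (τ R v) (k R v) :=
  PE.ex <| PE.exP <| PE.exP <| PE.exP <|
    (E2_ok1 ⟨hi.E2ren _, hτ.E2ren _, Tm.var _, Tm.one, E2P.var _ _, E2P.var _ _,
      E2P.var _ _⟩).and <|
    E2_eqn e ⟨hi.E2ren _, hτ.E2ren _, Tm.var _, Tm.one, E2P.var _ _, E2P.var _ _, E2P.var _ _⟩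
      (hk.E2ren _)

theorem E2_mainD (e : Ex) {α : Type} {t k : (R : Type) → [CommRing R] → (α → R) → R}
    (ht : Tm t) (hk : Tm k) : PE fun R _ v => MainD e (t R v) (k R v) :=
  PE.ex <| PE.ex <| (PE.eq ((Tm.var _).pow 2) Tm.one.neg).and <|
    (PE.eq (((Tm.nat 1000).mul (Tm.var _)).mul (Tm.one.sub (ht.E2ren _)))
      (((Tm.nat 1001).mul (Tm.var _)).mul (Tm.one.add (ht.E2ren _)))).and <|
    E2_mainH e (Tm.var _) (Tm.var _) (hk.E2ren _)

theorem pe_mainH (e : Ex) : PE fun R _ (v : Fin 3 → R) => MainH e (v 0) (v 1) (v 2) :=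
  E2_mainH e (Tm.var 0) (Tm.var 1) (Tm.var 2)

theorem pe_mainD (e : Ex) : PE fun R _ (v : Fin 2 → R) => MainD e (v 0) (v 1) :=
  E2_mainD e (Tm.var 0) (Tm.var 1)
-- END E2

end Pool.Agent.Lib.MP_b1b13a_lc.Dk
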