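import Pool.Agent.Lib.MP_b1b13a_lc.Dk.Sect
import Pool.Agent.Lib.MP_b1b13a_lc.Disc.FlatP

set_option autoImplicit false

noncomputable section

namespace Pool.Agent.Lib.MP_b1b13a_lc.Dk

open Complex Set Filter Topology

-- BEGIN Q0
/-- the puncture -/
def c0 : ℂ := 1001 / 1000 * I
/-- an auxiliary point -/
def q1 : ℂ := 501 / 500 * I
/-- the punctured half plane -/
def HS : Set ℂ := UH \ {c0}

theorem c0_mem : c0 ∈ UH := by simp [UH, c0]
theorem isOpen_HS : IsOpen HS := isOpen_UH.sdiff isClosed_singleton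
theorem HS_sub : HS ⊆ UH := sdiff_subset
-- END Q0

-- BEGIN Q1
/-- the two point form of the Schwarz lemma -/
theorem Q1_sp {φ : ℂ → ℂ} (hφ : Hol φ) (hm : ∀ τ ∈ UH, φ τ ∈ UH) {a b : ℂ} (ha : a ∈ UH)
    (hb : b ∈ UH) :
    ‖φ a - φ b‖ ^ 2 * (a.im * b.im) ≤ ‖a - b‖ ^ 2 * ((φ a).im * (φ b).im) := by
  have a0 : 0 < a.im := ha
  have b0 : 0 < b.im := hb
  have c0 : 0 < (φ b).im := hm b hb
  have k : ∀ t : ℂ, 0 < t.im → (b.re + b.im * t : ℂ) ∈ UH := fun t ht => by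
    simpa [UH] using mul_pos b0 ht
  have e1 : (b.re + b.im * I : ℂ) = b := re_add_im b
  have e2 : (b.re + b.im * ((a - b.re) / b.im) : ℂ) = a := by
    rw [mul_div_cancel₀ _ (ofReal_ne_zero.2 b0.ne'), add_sub_cancel]
  have n : ∀ z w : ℂ, 0 < w.im → ((z - w.re) / w.im).im = z.im / w.im ∧
      ‖(z - w.re) / w.im - I‖ = ‖z - w‖ / w.im := fun z w hw => by
    refine ⟨by simp, ?_⟩
    rw [div_sub' (ofReal_ne_zero.2 hw.ne'), sub_sub, re_add_im, norm_div, norm_real,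
      Real.norm_of_nonneg hw.le]
  have s : ∀ t : ℂ, ‖t + I‖ ^ 2 = ‖t - I‖ ^ 2 + 4 * t.im := fun t => by
    simp [Complex.sq_norm, normSq_apply]
    ring
  have h := (MPb1b13a.Disc.schwarz_I (σ := fun t => (φ (b.re + b.im * t) - (φ b).re) / (φ b).im)
    (((hφ.comp (by fun_prop) k).sub_const _).div_const _)
    (fun t ht => by rw [(n _ _ c0).1]; exact div_pos (hm _ (k t ht)) c0)
    (by rw [e1, ← sub_eq_zero, ← norm_eq_zero, (n _ _ c0).2]; simp)).1 ((a - b.re) / b.im)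
    (by rw [(n _ _ b0).1]; positivity)
  have d0 : 0 < (φ a).im := hm a ha
  have p1 := norm_pos_iff.2 (MPb1b13a.Disc.add_I_ne_zero (t := (a - b.re) / b.im)
    (by rw [(n _ _ b0).1]; positivity))
  have p2 := norm_pos_iff.2 (MPb1b13a.Disc.add_I_ne_zero (t := (φ a - (φ b).re) / (φ b).im)
    (by rw [(n _ _ c0).1]; positivity))
  rw [e2, norm_div, norm_div, div_le_div_iff₀ p2 p1, ← sq_le_sq₀ (by positivity) (by positivity),
    mul_pow, mul_pow, s, s, (n _ _ b0).1, (n _ _ b0).2, (n _ _ c0).1, (n _ _ c0).2] at h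
  have h1 : (‖φ a - φ b‖ / (φ b).im) ^ 2 * (a.im / b.im) ≤
      (‖a - b‖ / b.im) ^ 2 * ((φ a).im / (φ b).im) := by linarith
  rw [div_pow, div_pow, div_mul_div_comm, div_mul_div_comm,
    div_le_div_iff₀ (by positivity) (by positivity)] at h1
  refine le_of_mul_le_mul_right ?_ (mul_pos (mul_pos b0 c0) one_pos)
  nlinarith [h1]

/-- deck transformations move the points far from the cusps a long way -/
theorem Q1_far {σ σ' : ℂ} (h1 : 1 / 2 ≤ σ.im) (h2 : σ.im ≤ 2) (hσ' : σ' ∈ UH)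
    (h : lam σ = lam σ') {Y : ℝ} (hY : 1 < Y)
    (hd : ‖σ' - σ‖ ^ 2 * (Y * Y) ≤ σ'.im * σ.im) : σ' = σ := by
  have hσ : σ ∈ UH := show 0 < σ.im by linarith
  obtain ⟨a, b, c, d, hG, rfl⟩ := lam_fibre hσ hσ' h
  have y0 : 0 < (mob a b c d σ).im := hσ'
  have hY2 : 1 < Y * Y := by nlinarith
  have h3 : (mob a b c d σ).im ≤ σ.im := by
    rw [mob_im hG.1 hσ]
    refine div_le_self (by linarith) (one_le_pow₀ ?_)
    obtain ⟨-, -, -, hc, hd⟩ := hG
    rcases eq_or_ne c 0 with rfl | c0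
    · simp only [Int.cast_zero, zero_mul, zero_add, norm_intCast]
      exact_mod_cast Int.one_le_abs (by omega)
    · refine le_trans ?_ (abs_im_le_norm _)
      have c2 : (2 : ℝ) ≤ |(c : ℝ)| := by
        have : (2 : ℤ) ≤ |c| := by rcases abs_cases c with k | k <;> omega
        exact_mod_cast this
      have e : ((c : ℂ) * σ + d).im = c * σ.im := by simp
      rw [e, abs_mul, abs_of_nonneg (by linarith : 0 ≤ σ.im)]
      nlinarith
  rcases L3_far hG hσ with k | k | k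
  · exact k
  · have k1 : 4 ≤ ‖mob a b c d σ - σ‖ ^ 2 := by nlinarith
    nlinarith
  · have k1 : 1 ≤ 4 * σ.im ^ 2 := by nlinarith
    have k2 : 0 < (mob a b c d σ).im * σ.im := mul_pos y0 hσ
    have k3 : (mob a b c d σ).im * σ.im ≤ ‖mob a b c d σ - σ‖ ^ 2 := by nlinarith
    nlinarith

/-- two lifts with a common value agree -/
theorem Q1_uniq {φ ψ : ℂ → ℂ} (hφ : Hol φ) (hψ : Hol ψ) (h : ∀ τ ∈ UH, lam (φ τ) = lam (ψ τ))
    {s : ℂ} (hs : s ∈ UH) (h1 : φ s ∈ UH) (e : φ s = ψ s) : ∀ τ ∈ UH, φ τ = ψ τ := by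
  obtain ⟨Φ, k1, -, k2⟩ := C_isLam.exists_chart h1
  have hN := isOpen_UH.mem_nhds hs
  refine (hφ.analyticOnNhd isOpen_UH).eqOn_of_preconnected_of_eventuallyEq
    (hψ.analyticOnNhd isOpen_UH) convex_UH.isPreconnected hs ?_
  filter_upwards [hN, (hφ.differentiableAt hN).continuousAt (Φ.open_source.mem_nhds k1),
    (hψ.differentiableAt hN).continuousAt (Φ.open_source.mem_nhds (e ▸ k1))] with t t1 t2 t3
  exact Φ.injOn t2 t3 (by rw [k2]; exact h t t1)

theorem Q1_inv {q : ℂ} (h0 : q ≠ 0) (h1 : ‖q‖ < 1) : Function.Periodic.invQParam 1 q ∈ UH := by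
  show 0 < Complex.im _
  rw [Function.Periodic.im_invQParam]
  exact mul_pos_of_neg_of_neg (div_neg_of_neg_of_pos (by norm_num) (by positivity))
    (Real.log_neg (norm_pos_iff.2 h0) h1)

/-- a periodic self map of the half plane descends to the disc -/
theorem Q1_desc {φ : ℂ → ℂ} (hφ : Hol φ) (hm : ∀ τ ∈ UH, φ τ ∈ UH)
    (hp : ∀ τ ∈ UH, φ (τ + 1) = φ τ) : ∃ G : ℂ → ℂ, DifferentiableOn ℂ G (Metric.ball 0 1) ∧
      (∀ q : ℂ, ‖q‖ < 1 → G q ∈ UH) ∧
      ∀ q : ℂ, q ≠ 0 → ‖q‖ < 1 → G q = φ (Function.Periodic.invQParam 1 q) := by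
  set g : ℂ → ℂ := fun τ => if 0 < τ.im then (φ τ - I) / (φ τ + I) else 0 with hg
  have g1 : ∀ τ ∈ UH, g τ = (φ τ - I) / (φ τ + I) := fun τ h => if_pos h
  have g2 : ∀ τ ∈ UH, ‖g τ‖ < 1 := fun τ h => g1 τ h ▸ MPb1b13a.Disc.norm_cay_lt_one (hm τ h)
  have hev : ∀ᶠ τ : ℂ in comap Complex.im atTop, τ ∈ UH :=
    tendsto_comap.eventually (eventually_gt_atTop 0)
  have hper : Function.Periodic g ((1 : ℝ) : ℂ) := fun τ => by
    have e1 : (τ + ((1 : ℝ) : ℂ)).im = τ.im := by simp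
    simp only [hg, e1]
    split_ifs with h
    · rw [ofReal_one, hp τ h]
    · rfl
  have hd : ∀ τ ∈ UH, DifferentiableAt ℂ g τ := fun τ h => by
    have d1 := hφ.differentiableAt (isOpen_UH.mem_nhds h)
    exact ((d1.sub_const _).div (d1.add_const _)
      (MPb1b13a.Disc.add_I_ne_zero (hm τ h))).congr_of_eventuallyEq
        (eventually_of_mem (isOpen_UH.mem_nhds h) g1)
  set F := Function.Periodic.cuspFunction 1 g
  have F1 : ∀ q : ℂ, ‖q‖ < 1 → DifferentiableAt ℂ F q := fun q hq => by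
    rcases eq_or_ne q 0 with rfl | h0
    · exact Function.Periodic.differentiableAt_cuspFunction_zero one_pos hper (hev.mono hd)
        (Asymptotics.IsBigO.of_bound 1 (hev.mono fun τ h => by simpa using (g2 τ h).le))
    · have := Function.Periodic.differentiableAt_cuspFunction one_ne_zero hper
        (hd _ (Q1_inv h0 hq))
      rwa [Function.Periodic.qParam_right_inv one_ne_zero h0] at this
  have F2 : ∀ q : ℂ, q ≠ 0 → ‖q‖ < 1 → ‖F q‖ < 1 := fun q h0 hq => by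
    rw [show F q = _ from Function.Periodic.cuspFunction_eq_of_nonzero 1 g h0]
    exact g2 _ (Q1_inv h0 hq)
  have F3 : ∀ q : ℂ, ‖q‖ < 1 → ‖F q‖ < 1 := fun q hq => by
    rcases eq_or_ne q 0 with rfl | h0
    · obtain ⟨z, z1, z2⟩ := exists_mem_frontier_isMaxOn_norm (f := F)
        (U := Metric.ball 0 (1 / 2)) Metric.isBounded_ball ⟨0, by simp⟩
        (DifferentiableOn.diffContOnCl fun z hz => (F1 z (by
          have := mem_closedBall_zero_iff.1 (Metric.closure_ball_subset_closedBall hz)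
          linarith)).differentiableWithinAt)
      rw [frontier_ball _ (by norm_num), mem_sphere_zero_iff_norm] at z1
      exact lt_of_le_of_lt (z2 (subset_closure (by simp)))
        (F2 z (fun e => by simp [e] at z1) (by rw [z1]; norm_num))
    · exact F2 q h0 hq
  refine ⟨fun q => I * (1 + F q) / (1 - F q), fun q hq => ?_,
    fun q hq => MPb1b13a.Disc.cayley_im (F3 q hq), fun q h0 hq => ?_⟩
  · have d1 := F1 q (mem_ball_zero_iff.1 hq)
    refine (((d1.const_add _).const_mul _).div (d1.const_sub _) fun e => ?_).differentiableWithinAt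
    have := F3 q (mem_ball_zero_iff.1 hq)
    rw [← sub_eq_zero.1 e] at this
    simp at this
  · show I * (1 + F q) / (1 - F q) = _
    rw [show F q = _ from Function.Periodic.cuspFunction_eq_of_nonzero 1 g h0,
      g1 _ (Q1_inv h0 hq), MPb1b13a.Disc.cay_cay (hm _ (Q1_inv h0 hq))]

theorem Q1_cay {c τ : ℂ} (hc : c ∈ UH) (h0 : c.re = 0) (hτ : τ ∈ UH) :
    τ + c ≠ 0 ∧ ‖(τ - c) / (τ + c)‖ < 1 := by
  have h := MPb1b13a.Disc.norm_sub_lt_norm_sub_conj hτ hc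
  rw [show τ - (starRingEnd ℂ) c = τ + c from Complex.ext (by simp [h0]) (by simp)] at h
  have h1 := (norm_nonneg _).trans_lt h
  exact ⟨norm_pos_iff.1 h1, by rwa [norm_div, div_lt_one h1]⟩

/-- a function without the values `0, 1` whose value near the puncture is far from the cusps -/
theorem lam_ext {f : ℂ → ℂ} (hf : DifferentiableOn ℂ f HS) (h0 : ∀ τ ∈ HS, f τ ≠ 0 ∧ f τ ≠ 1)
    {p σ : ℂ} (hp : p ∈ HS) (hq : 2000 * ‖p - c0‖ ≤ ‖p + c0‖) (h1 : 1 / 2 ≤ σ.im) (h2 : σ.im ≤ 2)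
    (h : lam σ = f p) :
    ∃ Φ, Hol Φ ∧ Φ p = σ ∧ (∀ τ ∈ UH, Φ τ ∈ UH) ∧ ∀ τ ∈ HS, lam (Φ τ) = f τ := by
  have r0 : c0.re = 0 := by simp [c0]
  have n0 : c0 ≠ 0 := fun e => by simpa [e, UH] using c0_mem
  set Q := Function.Periodic.qParam 1 with hQ
  set π : ℂ → ℂ := fun s => c0 * (1 + Q s) / (1 - Q s) with hπ
  have q1 : ∀ s ∈ UH, 1 - Q s ≠ 0 := fun s hs e => by
    have := Function.Periodic.norm_qParam_lt_one one_pos hs
    rw [← hQ, ← sub_eq_zero.1 e] at this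
    simp at this
  have π1 : ∀ s ∈ UH, π s ∈ HS := fun s hs => by
    refine ⟨?_, fun e => Function.Periodic.qParam_ne_zero (h := 1) s ?_⟩
    · have := MPb1b13a.Disc.cayley_im (Function.Periodic.norm_qParam_lt_one one_pos hs)
      show 0 < (c0 * (1 + Q s) / (1 - Q s)).im
      rw [c0, mul_assoc, mul_div_assoc, show (1001 / 1000 : ℂ) = ((1001 / 1000 : ℝ) : ℂ) by simp,
        im_ofReal_mul]
      positivity
    · have e1 : c0 * (1 + Q s) = c0 * (1 - Q s) := (div_eq_iff (q1 s hs)).1 e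
      linear_combination (1 / 2 : ℂ) * mul_left_cancel₀ n0 e1
  have π2 : Hol π := fun s hs => by
    have d1 : DifferentiableAt ℂ Q s := Function.Periodic.differentiable_qParam s
    exact (((d1.const_add _).const_mul _).div (d1.const_sub _) (q1 s hs)).differentiableWithinAt
  have π3 : ∀ s, π (s + 1) = π s := fun s => by
    have : Q (s + 1) = Q s := by
      simp [hQ, Function.Periodic.qParam, mul_add, Complex.exp_add]
    simp only [hπ, this]
  have k1 : ∀ τ ∈ HS, (τ - c0) / (τ + c0) ≠ 0 := fun τ hτ =>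
    div_ne_zero (sub_ne_zero.2 hτ.2) (Q1_cay c0_mem r0 hτ.1).1
  have k2 : ∀ τ ∈ HS, Function.Periodic.invQParam 1 ((τ - c0) / (τ + c0)) ∈ UH := fun τ hτ =>
    Q1_inv (k1 τ hτ) (Q1_cay c0_mem r0 hτ.1).2
  have k3 : ∀ τ ∈ HS, π (Function.Periodic.invQParam 1 ((τ - c0) / (τ + c0))) = τ := fun τ hτ => by
    have e := q1 _ (k2 τ hτ)
    have n1 := (Q1_cay c0_mem r0 hτ.1).1
    simp only [hπ, hQ, Function.Periodic.qParam_right_inv one_ne_zero (k1 τ hτ)] at e ⊢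
    rw [div_eq_iff e]
    field_simp
    ring
  obtain ⟨φ, φ1, φ2, φ3⟩ := C_isLam.lift convex_UH isOpen_UH (hf.comp π2 π1)
    (fun s hs => (h0 _ (π1 s hs)).1) (fun s hs => (h0 _ (π1 s hs)).2) (k2 p hp) (s₀ := σ)
    (by linarith) (h.trans (congrArg f (k3 p hp).symm))
  have m1 : ∀ s ∈ UH, s + 1 ∈ UH := fun s hs => by simpa [UH] using hs
  have l1 : ∀ s ∈ UH, lam (φ (s + 1)) = lam (φ s) := fun s hs => by
    rw [(φ2 _ (m1 s hs)).2, (φ2 s hs).2, Function.comp, Function.comp, π3]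
  have hY : 1 < (Function.Periodic.invQParam 1 ((p - c0) / (p + c0))).im := by
    have t1 : ‖(p - c0) / (p + c0)‖ ≤ (2 ^ 10)⁻¹ := by
      rw [norm_div, div_le_iff₀ (norm_pos_iff.2 (Q1_cay c0_mem r0 hp.1).1)]
      linarith [norm_nonneg (p - c0)]
    have t2 := Real.log_le_log (norm_pos_iff.2 (k1 p hp)) t1
    rw [Real.log_inv, Real.log_pow] at t2
    rw [Function.Periodic.im_invQParam, div_mul_eq_mul_div, lt_div_iff₀ (by positivity)]
    push_cast at t2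
    linarith [Real.log_two_gt_d9, Real.pi_lt_d2]
  have per := Q1_uniq (φ := fun s => φ (s + 1)) (φ1.comp (by fun_prop) m1) φ1 l1 (k2 p hp)
    (φ2 _ (m1 _ (k2 p hp))).1 (by
      have t := Q1_sp φ1 (fun s hs => (φ2 s hs).1) (m1 _ (k2 p hp)) (k2 p hp)
      rw [φ3] at t ⊢
      exact Q1_far h1 h2 (φ2 _ (m1 _ (k2 p hp))).1 (φ3 ▸ (l1 _ (k2 p hp)).symm) hY
        (by simpa using t))
  obtain ⟨G, G1, G2, G3⟩ := Q1_desc φ1 (fun s hs => (φ2 s hs).1) per
  refine ⟨fun τ => G ((τ - c0) / (τ + c0)), G1.comp (DifferentiableOn.div (by fun_prop)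
    (by fun_prop) fun τ hτ => (Q1_cay c0_mem r0 hτ).1) fun τ hτ =>
      mem_ball_zero_iff.2 (Q1_cay c0_mem r0 hτ).2, ?_,
    fun τ hτ => G2 _ (Q1_cay c0_mem r0 hτ).2, fun τ hτ => ?_⟩
  · exact (G3 _ (k1 p hp) (Q1_cay c0_mem r0 hp.1).2).trans φ3
  · show lam (G _) = _
    rw [G3 _ (k1 τ hτ) (Q1_cay c0_mem r0 hτ.1).2, (φ2 _ (k2 τ hτ)).2, Function.comp, k3 τ hτ]

theorem Q1_mem : q1 ∈ UH := by simp [UH, q1]

theorem harnack {Φ : ℂ → ℂ} (hΦ : Hol Φ) (hm : ∀ τ ∈ UH, Φ τ ∈ UH) (h : Φ q1 = I) :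
    1 / 2 ≤ (Φ I).im ∧ (Φ I).im ≤ 2 := by
  have t := Q1_sp hΦ hm I_mem Q1_mem
  have e1 : ‖I - q1‖ = 1 / 500 := by
    rw [show I - q1 = -(1 / 500) * I by rw [q1]; ring]
    simp
  have e2 : q1.im = 501 / 500 := by simp [q1]
  have e3 := sq_le_sq' (abs_le.1 (abs_im_le_norm (Φ I - I))).1
    (abs_le.1 (abs_im_le_norm (Φ I - I))).2
  rw [h, e1, e2, I_im] at t
  rw [sub_im, I_im] at e3
  have y0 : 0 < (Φ I).im := hm I I_mem
  constructor <;> nlinarith

theorem cert : ∃ ε : ℝ, 0 < ε ∧ ∀ a : ℂ, ‖a - 1 / 2‖ < ε →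
    ∃ h, Hol h ∧ (∀ τ ∈ UH, h τ ≠ 0 ∧ h τ ≠ 1) ∧ h I = a ∧ h q1 = 1 / 2 := by
  have hs := (hol_lam.analyticAt (isOpen_UH.mem_nhds I_mem)).hasStrictDerivAt.map_nhds_eq
    (lam_deriv_ne I_mem)
  have hM := image_mem_map (m := lam) (Metric.ball_mem_nhds I (by norm_num : (0 : ℝ) < 1 / 1001))
  rw [hs, lam_val.1] at hM
  obtain ⟨ε, ε0, hε⟩ := Metric.mem_nhds_iff.1 hM
  refine ⟨ε, ε0, fun a ha => ?_⟩
  obtain ⟨w, w1, rfl⟩ := hε (mem_ball_iff_norm.2 ha)
  have r0 : q1.re = 0 := by simp [q1]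
  have m : ∀ τ ∈ UH, I + 1001 * (I - w) * ((τ - q1) / (τ + q1)) ∈ UH := fun τ hτ => by
    have t1 : ‖1001 * (I - w) * ((τ - q1) / (τ + q1))‖ < 1 := by
      rw [norm_mul, norm_mul, norm_sub_rev]
      rw [mem_ball_iff_norm] at w1
      refine mul_lt_one_of_nonneg_of_lt_one_right ?_ (norm_nonneg _) (Q1_cay Q1_mem r0 hτ).2
      simp only [norm_ofNat]
      linarith
    show 0 < Complex.im _
    rw [add_im, I_im]
    linarith [(abs_le.1 (abs_im_le_norm (1001 * (I - w) * ((τ - q1) / (τ + q1))))).1]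
  refine ⟨fun τ => lam (I + 1001 * (I - w) * ((τ - q1) / (τ + q1))), hol_lam.comp
    (((DifferentiableOn.div (by fun_prop) (by fun_prop)
      fun τ hτ => (Q1_cay Q1_mem r0 hτ).1).const_mul _).const_add _) m,
    fun τ hτ => lam_ne (m τ hτ), congrArg lam ?_, by simpa using lam_val.1⟩
  have e : (I - q1) / (I + q1) = -(1 / 1001) := by
    rw [div_eq_iff (Q1_cay Q1_mem r0 I_mem).1, q1]
    ring
  rw [e]
  ring
-- END Q1

-- BEGIN Q2
theorem flat_p {u : ℂ → ℂ} (hu : Hol u) (h : ∀ τ ∈ HS, ¬ Lat τ (u τ)) :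
    ∃ v : ℂ, ∀ τ ∈ UH, u τ = bt v τ := by
  obtain ⟨a, b, hab⟩ := C_isLam.flat_p hu c0_mem fun t ht hc m n e => h t ⟨ht, hc⟩ ⟨m, n, e⟩
  exact ⟨⟨a, b⟩, hab⟩
-- END Q2

-- BEGIN Q3
theorem Q3_D {p u v : ℂ → ℂ} {t a b : ℂ} (hp : AnalyticAt ℂ p t) (h0 : deriv p t ≠ 0)
    (hv : AnalyticAt ℂ v t) (h : ∀ᶠ s in 𝓝 t, u s = v s + a + b * p s) :
    deriv (fun z => deriv u z / deriv p z) t = deriv (fun z => deriv v z / deriv p z) t := by
  have h1 : (fun z => deriv u z / deriv p z) =ᶠ[𝓝 t] fun s => deriv v s / deriv p s + b := by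
    filter_upwards [EventuallyEq.deriv h, hv.eventually_analyticAt, hp.eventually_analyticAt,
      hp.deriv.continuousAt.eventually_ne h0] with s a1 a2 a3 a4
    rw [a1, ((a2.differentiableAt.hasDerivAt.add_const a).fun_add
      (a3.differentiableAt.hasDerivAt.const_mul b)).deriv]
    field_simp
  rw [h1.deriv_eq, deriv_add_const]

theorem Q3_aff {p f : ℂ → ℂ} {t : ℂ} (hp : AnalyticAt ℂ p t) (h0 : deriv p t ≠ 0)
    (hf : AnalyticAt ℂ f t) (h : ∀ᶠ s in 𝓝 t, deriv (fun z => deriv f z / deriv p z) s = 0) :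
    ∃ a b, ∀ᶠ s in 𝓝 t, f s = a + b * p s := by
  obtain ⟨b, hb⟩ := MPb1b13a.Disc.ev_const (hf.deriv.fun_div hp.deriv h0) h
  obtain ⟨a, ha⟩ := MPb1b13a.Disc.ev_const (f := fun z => f z - b * p z)
    (hf.sub (analyticAt_const.mul hp)) (by
      filter_upwards [hb, hf.eventually_analyticAt, hp.eventually_analyticAt,
        hp.deriv.continuousAt.eventually_ne h0] with s a1 a2 a3 a4
      rw [(a2.differentiableAt.hasDerivAt.fun_sub
        (a3.differentiableAt.hasDerivAt.const_mul b)).deriv, ← a1, div_mul_cancel₀ _ a4, sub_self])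
  exact ⟨a, b, ha.mono fun s hs => by linear_combination hs⟩

/-- local sections that differ by periods of a pulled back family glue -/
theorem Q3_glue {p : ℂ → ℂ} (hp : ∀ t : ℂ, 0 < t.im → AnalyticAt ℂ p t ∧ deriv p t ≠ 0)
    {Q : ℂ → ℂ → Prop} (h1 : ∀ (t w : ℂ) (m n : ℤ), Q t w → Q t (w + m + n * p t))
    (h2 : ∀ t : ℂ, 0 < t.im → ∃ u, AnalyticAt ℂ u t ∧ ∀ᶠ s in 𝓝 t, Q s (u s))
    (h3 : ∀ t : ℂ, 0 < t.im → ∀ u v : ℂ → ℂ, AnalyticAt ℂ u t → AnalyticAt ℂ v t →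
      (∀ᶠ s in 𝓝 t, Q s (u s)) → (∀ᶠ s in 𝓝 t, Q s (v s)) →
        ∃ m n : ℤ, ∀ᶠ s in 𝓝 t, u s = v s + m + n * p s) :
    ∃ w : ℂ → ℂ, ∀ t : ℂ, 0 < t.im → AnalyticAt ℂ w t ∧ Q t (w t) := by
  have ho : IsOpen {t : ℂ | 0 < t.im} := isOpen_UH
  choose! u hu hQ using h2
  have h4 : ∀ t : ℂ, 0 < t.im → ∀ᶠ s in 𝓝 t, deriv (fun z => deriv (u t) z / deriv p z) s =
      deriv (fun z => deriv (u s) z / deriv p z) s := fun t ht => by
    filter_upwards [ho.mem_nhds ht, (hu t ht).eventually_analyticAt,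
      (hQ t ht).eventually_nhds] with s a1 a2 a3
    obtain ⟨m, n, h⟩ := h3 s a1 _ _ a2 (hu s a1) a3 (hQ s a1)
    exact Q3_D (hp s a1).1 (hp s a1).2 (hu s a1) h
  obtain ⟨G, hG⟩ := MPb1b13a.Disc.exists_prim fun t ht =>
    ((hu t ht).deriv.fun_div (hp t ht).1.deriv (hp t ht).2).deriv.congr (h4 t ht)
  obtain ⟨F, hF⟩ := MPb1b13a.Disc.exists_prim (g := fun t => G t * deriv p t)
    fun t ht => (hG t ht).1.mul (hp t ht).1.deriv
  have h5 : ∀ t : ℂ, 0 < t.im → ∃ a b, ∀ᶠ s in 𝓝 t, F s - u t s = a + b * p s := fun t ht => by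
    refine Q3_aff (hp t ht).1 (hp t ht).2 ((hF t ht).1.sub (hu t ht)) ?_
    have a1 : (fun s => deriv (fun s => F s - u t s) s / deriv p s) =ᶠ[𝓝 t]
        fun s => G s - deriv (u t) s / deriv p s := by
      filter_upwards [ho.mem_nhds ht, (hu t ht).eventually_analyticAt] with s a1 a2
      rw [deriv_fun_sub (hF s a1).1.differentiableAt a2.differentiableAt, (hF s a1).2, sub_div,
        mul_div_cancel_right₀ _ (hp s a1).2]
    filter_upwards [ho.mem_nhds ht, (hu t ht).eventually_analyticAt, EventuallyEq.deriv a1,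
      h4 t ht] with s a1 a2 a3 a4
    rw [a3, deriv_fun_sub (hG s a1).1.differentiableAt
      (a2.deriv.fun_div (hp s a1).1.deriv (hp s a1).2).differentiableAt, (hG s a1).2, a4, sub_self]
  obtain ⟨a₀, b₀, h6⟩ := h5 _ I_mem
  have h7 : ∀ t : ℂ, 0 < t.im → AnalyticAt ℂ (fun s => F s - (a₀ + b₀ * p s)) t := fun t ht =>
    (hF t ht).1.sub (analyticAt_const.add (analyticAt_const.mul (hp t ht).1))
  refine ⟨fun s => F s - (a₀ + b₀ * p s), fun t ht => ⟨h7 t ht, Eventually.self_of_nhds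
    (p := fun s => Q s (F s - (a₀ + b₀ * p s)))
    (convex_UH.isPreconnected.subset_of_closure_inter_subset
      (u := {t | ∀ᶠ s in 𝓝 t, Q s (F s - (a₀ + b₀ * p s))}) isOpen_setOfPred_eventually_nhds
      ⟨_, I_mem, (h6.and (hQ _ I_mem)).mono fun s hs => ?_⟩ ?_ ht)⟩⟩
  · rw [← hs.1, sub_sub_cancel]
    exact hs.2
  · rintro z ⟨c1, c2⟩
    obtain ⟨a, b, c3⟩ := h5 z c2
    obtain ⟨s, ⟨⟨d1, d2⟩, d3, d4⟩, d5⟩ := mem_closure_iff_nhds.1 c1 _
      (((hu z c2).eventually_analyticAt.and (hQ z c2).eventually_nhds).and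
        (c3.eventually_nhds.and (ho.mem_nhds c2)))
    obtain ⟨m, n, d6⟩ := h3 s d4 _ _ (h7 s d4) d1 d5 d2
    have d7 : (fun y => a - a₀ - m + (b - b₀ - n) * p y) =ᶠ[𝓝 s] fun _ => 0 :=
      (d3.and d6).mono fun y hy => by linear_combination hy.2 - hy.1
    have d8 : b - b₀ - n = 0 := by
      have := d7.deriv_eq
      rw [(((hp s d4).1.differentiableAt.hasDerivAt.const_mul _).const_add _).deriv,
        deriv_const] at this
      exact (mul_eq_zero.1 this).resolve_right (hp s d4).2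
    have d9 : a - a₀ - m = 0 := by simpa [d8] using d7.self_of_nhds
    filter_upwards [c3, hQ z c2] with y e1 e2
    rw [show F y - (a₀ + b₀ * p y) = u z y + m + n * p y by
      linear_combination e1 + d9 + p y * d8]
    exact h1 _ _ m n e2

theorem Q3_loc {x y : ℂ → ℂ} (hx : DifferentiableOn ℂ x HS) (hy : DifferentiableOn ℂ y HS)
    (h0 : ∀ τ ∈ HS, y τ ≠ 0)
    (h : ∀ τ ∈ HS, y τ ^ 2 = 4 * DD τ ^ 3 * (x τ * (x τ - 1) * (x τ - lam τ))) {τ : ℂ}
    (hτ : τ ∈ HS) : ∃ u, AnalyticAt ℂ u τ ∧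
      ∀ᶠ σ in 𝓝 τ, ¬ Lat σ (u σ) ∧ XX (u σ) σ = x σ ∧ wq (u σ) σ = y σ := by
  have hN := isOpen_HS.mem_nhds hτ
  obtain ⟨w, a1, a2, a3⟩ := xy_surj hτ.1 (h τ hτ)
  have a4 := mt (lat_iff hτ.1).1 a1
  obtain ⟨u, b1, rfl, b2⟩ := F_fam.local_lift (x := fun σ => eA σ + DD σ * x σ) hτ.1 a4
    (fun e => h0 τ hτ (a3.symm.trans e))
    (((hol_e.1.mono HS_sub).add ((hol_DD.mono HS_sub).mul hx)).analyticAt hN)
    (a2 ▸ L1_wp hτ.1 w)
  have tq := (continuousAt_id.prodMk b1.continuousAt).tendsto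
  have b3 : ∀ᶠ s in 𝓝 τ, wq (u s) s + y s ≠ 0 :=
    ((F_fam.comp_wp' hτ.1 b1 a4).continuousAt.add
      (hy.differentiableAt hN).continuousAt).eventually_ne (by
        change wq (u τ) τ + y τ ≠ 0
        rw [a3, ← two_mul]
        exact mul_ne_zero two_ne_zero (h0 τ hτ))
  refine ⟨u, b1, ?_⟩
  filter_upwards [tq.eventually b2, tq.eventually (F_fam.ev_notMem hτ.1 a4), b3, hN]
    with s c1 c2 c3 c4
  have d1 : ¬ Lat s (u s) := mt (lat_iff c4.1).2 c2.2
  have d2 : XX (u s) s = x s := by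
    rw [XX, show wp (u s) s = eA s + DD s * x s from c1.2 rfl, add_sub_cancel_left,
      mul_div_cancel_left₀ _ (DD_ne c4.1)]
  have d3 := wq_sq c4.1 d1
  rw [d2, ← h s c4] at d3
  exact ⟨d1, d2, sub_eq_zero.1 ((mul_eq_zero.1 (by linear_combination d3)).resolve_left c3)⟩

theorem Q3_vert {w : ℂ → ℂ} (hw : Hol w) {A δ : ℝ}
    (hL : ∀ t : ℂ, 0 < t.im → ‖deriv w t‖ * t.im ≤ |(w t).im| + A)
    (hδ : ∀ x : ℝ, ‖w (x + I)‖ ≤ δ) {s : ℂ} (hs : 1 ≤ s.im) : ‖w s‖ ≤ (δ + |A|) * s.im := by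
  have him : ∀ t : ℝ, ((s.re : ℂ) + (Real.exp t : ℝ) * I).im = Real.exp t := fun t => by
    simp [exp_ofReal_re]
  have hm : ∀ t : ℝ, 0 < ((s.re : ℂ) + (Real.exp t : ℝ) * I).im := fun t =>
    (him t).symm ▸ Real.exp_pos t
  have hd : ∀ t : ℝ, HasDerivAt (fun t : ℝ => w (s.re + (Real.exp t : ℝ) * I))
      (deriv w (s.re + (Real.exp t : ℝ) * I) * ((Real.exp t : ℝ) * I)) t := fun t =>
    (hw.differentiableAt (isOpen_UH.mem_nhds (hm t))).hasDerivAt.comp t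
      (((Real.hasDerivAt_exp t).ofReal_comp.mul_const I).const_add _)
  have h := norm_le_gronwallBound_of_norm_deriv_right_le (a := 0) (b := Real.log s.im) (δ := δ)
    (K := 1) (ε := A) (fun t _ => (hd t).continuousAt.continuousWithinAt)
    (fun t _ => (hd t).hasDerivWithinAt) (by simpa using hδ s.re) (fun t _ => by
      have := hL _ (hm t)
      rw [him] at this
      rw [norm_mul, norm_mul, norm_I, mul_one, norm_real, Real.norm_of_nonneg (Real.exp_pos t).le,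
        one_mul]
      linarith [abs_im_le_norm (w (s.re + (Real.exp t : ℝ) * I))]) _
    ⟨Real.log_nonneg hs, le_rfl⟩
  rw [gronwallBound_of_K_ne_0 one_ne_zero] at h
  simp only [sub_zero, one_mul, div_one, Real.exp_log (lt_of_lt_of_le one_pos hs), re_add_im] at h
  nlinarith [le_abs_self A, abs_nonneg A]

theorem Q3_hor {g : ℂ → ℂ} (hg : Hol g) {A Y : ℝ}
    (hL : ∀ t : ℂ, 0 < t.im → ‖deriv g t‖ * t.im ≤ |(g t).im| + A) (hY : 0 < Y)
    (h1 : |(g (Y * I)).im| ≤ 1) :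
    ‖g (Y * I + 1) - g (Y * I)‖ ≤ (1 + A) * (Real.exp Y⁻¹ - 1) := by
  have him : ∀ t : ℝ, ((Y : ℂ) * I + t).im = Y := fun t => by simp
  have hm : ∀ t : ℝ, 0 < ((Y : ℂ) * I + t).im := fun t => (him t).symm ▸ hY
  have hd : ∀ t : ℝ, HasDerivAt (fun t : ℝ => g (Y * I + t) - g (Y * I))
      (deriv g (Y * I + t) * (1 : ℝ)) t := fun t =>
    ((hg.differentiableAt (isOpen_UH.mem_nhds (hm t))).hasDerivAt.comp t
      ((hasDerivAt_id t).ofReal_comp.const_add _)).sub_const _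
  have h := norm_le_gronwallBound_of_norm_deriv_right_le (a := 0) (b := 1) (δ := 0)
    (K := Y⁻¹) (ε := (1 + A) * Y⁻¹) (fun t _ => (hd t).continuousAt.continuousWithinAt)
    (fun t _ => (hd t).hasDerivWithinAt) (by simp) (fun t _ => by
      have h2 := hL _ (hm t)
      have h3 := abs_im_le_norm (g (Y * I + t) - g (Y * I))
      have h4 := abs_add_le (g (Y * I + t) - g (Y * I)).im (g (Y * I)).im
      rw [him] at h2
      rw [sub_im, sub_add_cancel, ← sub_im] at h4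
      rw [ofReal_one, mul_one, mul_comm Y⁻¹, ← add_mul, ← div_eq_mul_inv, le_div_iff₀ hY]
      linarith) 1 ⟨zero_le_one, le_rfl⟩
  rw [gronwallBound_of_K_ne_0 (inv_ne_zero hY.ne')] at h
  simpa [mul_div_cancel_right₀ _ (inv_ne_zero hY.ne')] using h

theorem wp_lift_p {x y : ℂ → ℂ} (hx : DifferentiableOn ℂ x HS) (hy : DifferentiableOn ℂ y HS)
    (h0 : ∀ τ ∈ HS, y τ ≠ 0)
    (h : ∀ τ ∈ HS, y τ ^ 2 = 4 * DD τ ^ 3 * (x τ * (x τ - 1) * (x τ - lam τ))) :
    ∃ u, Hol u ∧ ∀ τ ∈ HS, ¬ Lat τ (u τ) ∧ XX (u τ) τ = x τ ∧ wq (u τ) τ = y τ := by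
  have r0 : c0.re = 0 := by simp [c0]
  have n0 : c0 ≠ 0 := fun e => by simpa [e, UH] using c0_mem
  set Q := Function.Periodic.qParam 1 with hQ
  set π : ℂ → ℂ := fun s => c0 * (1 + Q s) / (1 - Q s) with hπ
  have q1 : ∀ s ∈ UH, 1 - Q s ≠ 0 := fun s hs e => by
    have := Function.Periodic.norm_qParam_lt_one one_pos hs
    rw [← hQ, ← sub_eq_zero.1 e] at this
    simp at this
  have π1 : ∀ s ∈ UH, π s ∈ HS := fun s hs => by
    refine ⟨?_, fun e => Function.Periodic.qParam_ne_zero (h := 1) s ?_⟩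
    · have := MPb1b13a.Disc.cayley_im (Function.Periodic.norm_qParam_lt_one one_pos hs)
      show 0 < (c0 * (1 + Q s) / (1 - Q s)).im
      rw [c0, mul_assoc, mul_div_assoc, show (1001 / 1000 : ℂ) = ((1001 / 1000 : ℝ) : ℂ) by simp,
        im_ofReal_mul]
      positivity
    · have e1 : c0 * (1 + Q s) = c0 * (1 - Q s) := (div_eq_iff (q1 s hs)).1 e
      linear_combination (1 / 2 : ℂ) * mul_left_cancel₀ n0 e1
  have dQ : ∀ s, HasDerivAt Q (Q s * (2 * Real.pi * I)) s := fun s => by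
    have := (((hasDerivAt_id s).const_mul (2 * Real.pi * I)).div_const ((1 : ℝ) : ℂ)).cexp
    rwa [mul_one, show 2 * (Real.pi : ℂ) * I / ((1 : ℝ) : ℂ) = 2 * Real.pi * I by simp] at this
  have dπ := fun s (hs : s ∈ UH) =>
    (((dQ s).const_add 1).const_mul c0).fun_div ((dQ s).const_sub 1) (q1 s hs)
  have π2 : Hol π := fun s hs => (dπ s hs).differentiableAt.differentiableWithinAt
  have π4 : ∀ t : ℂ, 0 < t.im → AnalyticAt ℂ π t ∧ deriv π t ≠ 0 := fun t ht =>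
    ⟨π2.analyticAt (isOpen_UH.mem_nhds ht), by
      rw [(dπ t ht).deriv]
      refine div_ne_zero (fun e => ?_) (pow_ne_zero 2 (q1 t ht))
      exact mul_ne_zero (mul_ne_zero two_ne_zero n0) (mul_ne_zero
        (Function.Periodic.qParam_ne_zero (h := 1) t) two_pi_I_ne_zero) (by linear_combination e)⟩
  have π3 : ∀ s, π (s + 1) = π s := fun s => by
    have : Q (s + 1) = Q s := by
      simp [hQ, Function.Periodic.qParam, mul_add, Complex.exp_add]
    simp only [hπ, this]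
  have k1 : ∀ τ ∈ HS, (τ - c0) / (τ + c0) ≠ 0 := fun τ hτ =>
    div_ne_zero (sub_ne_zero.2 hτ.2) (Q1_cay c0_mem r0 hτ.1).1
  have k2 : ∀ τ ∈ HS, Function.Periodic.invQParam 1 ((τ - c0) / (τ + c0)) ∈ UH := fun τ hτ =>
    Q1_inv (k1 τ hτ) (Q1_cay c0_mem r0 hτ.1).2
  have k3 : ∀ τ ∈ HS, π (Function.Periodic.invQParam 1 ((τ - c0) / (τ + c0))) = τ := fun τ hτ => by
    have e := q1 _ (k2 τ hτ)
    have n1 := (Q1_cay c0_mem r0 hτ.1).1
    simp only [hπ, hQ, Function.Periodic.qParam_right_inv one_ne_zero (k1 τ hτ)] at e ⊢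
    rw [div_eq_iff e]
    field_simp
    ring
  have h3 : ∀ t : ℂ, 0 < t.im → ∀ u v : ℂ → ℂ, AnalyticAt ℂ u t → AnalyticAt ℂ v t →
      (∀ᶠ s in 𝓝 t, s ∈ UH ∧ ¬ Lat (π s) (u s) ∧ XX (u s) (π s) = x (π s) ∧
        wq (u s) (π s) = y (π s)) →
      (∀ᶠ s in 𝓝 t, s ∈ UH ∧ ¬ Lat (π s) (v s) ∧ XX (v s) (π s) = x (π s) ∧
        wq (v s) (π s) = y (π s)) → ∃ m n : ℤ, ∀ᶠ s in 𝓝 t, u s = v s + m + n * π s := by
    intro t ht u v hu hv a1 a2
    have a3 : ∀ᶠ s in 𝓝 t, Lat (π s) (u s - v s) := (a1.and a2).mono fun s hs =>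
      xy_inj (π1 s hs.1.1).1 hs.1.2.1 hs.2.2.1 (hs.1.2.2.1.trans hs.2.2.2.1.symm)
        (hs.1.2.2.2.trans hs.2.2.2.2.symm)
    obtain ⟨m, n, e⟩ := a3.self_of_nhds
    have a4 : Tendsto (fun s => (π s, u s - v s - (m + n * π s))) (𝓝 t)
        (𝓝 (π t, u t - v t - (m + n * π t))) :=
      ((π4 t ht).1.continuousAt.prodMk ((hu.continuousAt.sub hv.continuousAt).sub
        (continuousAt_const.add (continuousAt_const.mul (π4 t ht).1.continuousAt)))).tendsto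
    rw [sub_eq_zero.2 e] at a4
    refine ⟨m, n, ?_⟩
    filter_upwards [a3, a4.eventually (F_fam.ev_ne (π1 t ht).1 (S := {k | k ≠ 0}) (w := 0)
      fun k hk => (MPb1b13a.Disc.lp_ne (π1 t ht).1 hk).symm)] with s b1 b2
    obtain ⟨m', n', e'⟩ := b1.sub (⟨m, n, rfl⟩ : Lat (π s) (m + n * π s))
    by_cases e0 : (m', n') = 0
    · obtain ⟨rfl, rfl⟩ := Prod.mk_eq_zero.1 e0
      linear_combination (exp := 1) e' + (Int.cast_zero : ((0 : ℤ) : ℂ) = 0) * (1 + π s)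
    · exact absurd e' (b2 _ e0)
  obtain ⟨w, hw⟩ := Q3_glue π4 (Q := fun s w => s ∈ UH ∧ ¬ Lat (π s) w ∧
      XX w (π s) = x (π s) ∧ wq w (π s) = y (π s)) (fun t w m n a => by
      have a5 : Lat (π t) (m + n * π t) := ⟨m, n, rfl⟩
      have a6 := wp_per (π1 t a.1).1 a5 w
      rw [add_assoc]
      exact ⟨a.1, fun e => a.2.1 (by simpa using e.sub a5), by rw [← a.2.2.1, XX, XX, a6.1],
        a6.2.trans a.2.2.2⟩) (fun t ht => by
      obtain ⟨u, a1, a2⟩ := Q3_loc hx hy h0 h (π1 t ht)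
      exact ⟨fun s => u (π s), a1.comp (π4 t ht).1, (isOpen_UH.eventually_mem ht).and
        ((π4 t ht).1.continuousAt.tendsto.eventually a2)⟩) h3
  have w1 : Hol w := fun t ht => (hw t ht).1.differentiableAt.differentiableWithinAt
  have m1 : ∀ s ∈ UH, s + 1 ∈ UH := fun s hs => by simpa [UH] using hs
  have w2 : ∀ s ∈ UH, AnalyticAt ℂ (fun s => w (s + 1)) s := fun s hs =>
    (hw _ (m1 s hs)).1.comp_of_eq (analyticAt_id.add analyticAt_const) rfl
  obtain ⟨m, n, e⟩ := h3 I I_mem _ w (w2 I I_mem) (hw I I_mem).1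
    ((isOpen_UH.eventually_mem I_mem).mono fun s hs => ⟨hs, π3 s ▸ (hw _ (m1 s hs)).2.2⟩)
    ((isOpen_UH.eventually_mem I_mem).mono fun s hs => (hw s hs).2)
  have e1 : EqOn (fun s => w (s + 1)) (fun s => w s + m + n * π s) UH :=
    AnalyticOnNhd.eqOn_of_preconnected_of_eventuallyEq w2 (fun s hs => ((hw s hs).1.add
      analyticAt_const).add (analyticAt_const.mul (π4 s hs).1)) convex_UH.isPreconnected I_mem e
  obtain ⟨A, hA⟩ := C_isLam.landau
  have hL := fun k : ℤ => hA (fun s => w s - k * π s) (w1.sub (π2.const_mul _))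
    fun t ht j e => (hw t ht).2.2.1 ⟨j, k, by linear_combination e⟩
  have t1 : Tendsto (fun Y : ℝ => π (Y * I)) atTop (𝓝 c0) := by
    have a1 : Tendsto (fun Y : ℝ => Q (Y * I)) atTop (𝓝 0) :=
      ((Function.Periodic.qParam_tendsto one_pos).mono_right nhdsWithin_le_nhds).comp
        (tendsto_comap_iff.2 (tendsto_id.congr fun Y => by simp))
    have a2 := ((a1.const_add 1).const_mul c0).div (a1.const_sub 1) (by simp)
    rwa [add_zero, sub_zero, mul_one, div_one] at a2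
  have e2 : (m : ℂ) + n * c0 = 0 := by
    refine norm_le_zero_iff.1 (le_of_tendsto_of_tendsto ((t1.const_mul _).const_add _).norm
      (b := atTop) (g := fun Y : ℝ => (1 + A) * (Real.exp Y⁻¹ - 1)) ?_ ?_)
    · simpa using (((Real.continuous_exp.tendsto 0).comp tendsto_inv_atTop_zero).sub_const
        1).const_mul (1 + A)
    · filter_upwards [eventually_gt_atTop 0, ((continuous_im.tendsto c0).comp t1).eventually
        (gt_mem_nhds (show c0.im < 2 by norm_num [c0]))] with Y a1 a2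
      have a3 : (Y : ℂ) * I ∈ UH := by simpa [UH] using a1
      have a4 : 0 < (π (Y * I)).im := (π1 _ a3).1
      have a5 := Q3_hor (w1.sub (π2.const_mul _)) (hL (round ((w (Y * I)).im / (π (Y * I)).im)))
        a1 (by
          have := abs_sub_round ((w (Y * I)).im / (π (Y * I)).im)
          rw [div_sub' a4.ne', abs_div, abs_of_pos a4, div_le_iff₀ a4] at this
          simp only [Pi.sub_apply, sub_im, mul_im, intCast_re, intCast_im, zero_mul, add_zero]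
          rw [mul_comm (π (Y * I)).im] at this
          linarith [show (π (Y * I)).im < 2 from a2])
      simp only [Pi.sub_apply, π3, show w (Y * I + 1) = _ from e1 a3] at a5
      refine le_of_eq_of_le (congrArg _ ?_) a5
      ring
  obtain ⟨e3, e4⟩ := coord_unique c0_mem (a := m) (b := n) (c := 0) (d := 0) (by simpa using e2)
  have per : ∀ s ∈ UH, w (s + 1) = w s := fun s hs => by
    simpa [show m = 0 by exact_mod_cast e3, show n = 0 by exact_mod_cast e4] using e1 hs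
  set g : ℂ → ℂ := fun τ => if 0 < τ.im then w τ else 0 with hg
  have g1 : ∀ τ ∈ UH, g τ = w τ := fun τ h => if_pos h
  have hper : Function.Periodic g ((1 : ℝ) : ℂ) := fun τ => by
    have e1 : (τ + ((1 : ℝ) : ℂ)).im = τ.im := by simp
    simp only [hg, e1]
    split_ifs with h
    · rw [ofReal_one, per τ h]
    · rfl
  have hd : ∀ τ ∈ UH, DifferentiableAt ℂ g τ := fun τ h =>
    (hw τ h).1.differentiableAt.congr_of_eventuallyEq (eventually_of_mem (isOpen_UH.mem_nhds h) g1)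
  have mI : ∀ r : ℝ, (r : ℂ) + I ∈ UH := fun r => by simp [UH]
  obtain ⟨δ, hδ⟩ := (Function.Periodic.isBounded_of_continuous (f := fun r : ℝ => w (r + I))
    (c := 1) (fun r => by simpa [add_right_comm] using per _ (mI r)) one_ne_zero
    (continuous_iff_continuousAt.2 fun r => (hw _ (mI r)).1.continuousAt.comp_of_eq
      (by fun_prop) rfl)).exists_norm_le
  have gr := fun s => Q3_vert w1 (s := s) (by simpa using hL 0) fun r => hδ _ ⟨r, rfl⟩
  set F := Function.Periodic.cuspFunction 1 g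
  have F0 : ∀ q : ℂ, q ≠ 0 → ‖q‖ < 1 → F q = w (Function.Periodic.invQParam 1 q) := fun q a1 a2 =>
    (Function.Periodic.cuspFunction_eq_of_nonzero 1 g a1).trans (g1 _ (Q1_inv a1 a2))
  have F1 := differentiableOn_update_limUnder_of_isLittleO (f := F) (c := 0)
    (Metric.ball_mem_nhds 0 one_pos) (fun q hq => by
      have := Function.Periodic.differentiableAt_cuspFunction one_ne_zero hper
        (hd _ (Q1_inv hq.2 (mem_ball_zero_iff.1 hq.1)))
      rw [Function.Periodic.qParam_right_inv one_ne_zero hq.2] at this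
      exact this.differentiableWithinAt) (by
      refine Asymptotics.isLittleO_of_tendsto' (eventually_mem_nhdsWithin.mono fun q a1 a2 =>
        absurd (by simpa using a2) a1) (squeeze_zero_norm' (a := fun q : ℂ =>
          (δ + |A|) * (-1 / (2 * Real.pi)) * (‖q‖ * Real.log ‖q‖) + ‖F 0‖ * ‖q‖) ?_ ?_)
      · filter_upwards [eventually_mem_nhdsWithin, mem_nhdsWithin_of_mem_nhds
          (Metric.ball_mem_nhds 0 one_pos), (tendsto_comap_iff.1
            (Function.Periodic.invQParam_tendsto one_pos)).eventually (eventually_ge_atTop 1)]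
          with q a1 a2 a3
        have a4 := gr _ a3
        rw [← F0 q a1 (mem_ball_zero_iff.1 a2), Function.Periodic.im_invQParam] at a4
        rw [sub_zero, div_inv_eq_mul, norm_mul]
        nlinarith [norm_sub_le (F q) (F 0), norm_nonneg q]
      · have a1 : Tendsto (fun q : ℂ => ‖q‖) (𝓝[≠] 0) (𝓝 0) :=
          tendsto_norm_zero.mono_left nhdsWithin_le_nhds
        simpa using (((Real.continuous_mul_log.tendsto 0).comp a1).const_mul
          ((δ + |A|) * (-1 / (2 * Real.pi)))).add (a1.const_mul ‖F 0‖))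
  refine ⟨fun τ => Function.update F 0 _ ((τ - c0) / (τ + c0)), F1.comp (DifferentiableOn.div
    (by fun_prop) (by fun_prop) fun τ hτ => (Q1_cay c0_mem r0 hτ).1) fun τ hτ =>
      mem_ball_zero_iff.2 (Q1_cay c0_mem r0 hτ).2, fun τ hτ => ?_⟩
  have := (hw _ (k2 τ hτ)).2.2
  rw [k3 τ hτ] at this
  simpa only [Function.update_of_ne (k1 τ hτ), F0 _ (k1 τ hτ) (Q1_cay c0_mem r0 hτ.1).2] using this
-- END Q3

-- BEGIN Q4
theorem Q4_near {ε : ℝ} (hε : 0 < ε) : ∃ δ : ℝ, 0 < δ ∧ ∀ w : ℂ,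
    ‖w ^ 2 - 1 / 4‖ < δ → ‖lam I / XX w I - 1 / 2‖ < ε := by
  have h1 : XX (1 / 2) I = 1 := div_self (DD_ne I_mem)
  have h2 : ContinuousAt (fun w => lam I / XX w I) (1 / 2) :=
    continuousAt_const.div (XX_hasDeriv I_mem (half_not_lat I_mem).2.1).continuousAt
      (by rw [h1]; exact one_ne_zero)
  obtain ⟨δ, hδ, h3⟩ := Metric.continuousAt_iff.mp h2 ε hε
  simp only [h1, div_one, dist_eq_norm] at h3
  have h4 : ∀ w : ℂ, ‖w - 1 / 2‖ < δ → ‖lam I / XX w I - 1 / 2‖ < ε := fun w hw => by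
    have := h3 hw
    rwa [lam_val.1] at this ⊢
  refine ⟨δ / 2, half_pos hδ, fun w hw => ?_⟩
  have e : w ^ 2 - 1 / 4 = (w - 1 / 2) * (-w - 1 / 2) * (-1) := by ring
  rw [e, norm_mul, norm_mul, norm_neg, norm_one, mul_one] at hw
  have tri : 1 ≤ ‖w - 1 / 2‖ + ‖-w - 1 / 2‖ := by
    have := norm_add_le (w - 1 / 2) (-w - 1 / 2)
    rwa [show w - 1 / 2 + (-w - 1 / 2) = -1 by ring, norm_neg, norm_one] at this
  have n1 := norm_nonneg (w - 1 / 2)
  have n2 := norm_nonneg (-w - 1 / 2)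
  rcases le_total ‖w - 1 / 2‖ ‖-w - 1 / 2‖ with k | k
  · exact h4 w (by nlinarith)
  · have := h4 (-w) (by nlinarith)
    rwa [XX, (wp_neg w I).1] at this

theorem Q4_test {κ a b : ℝ} {j m n : ℤ} (hj : 2 ≤ j) (hκ : 16 * j ^ 2 * κ = 1)
    (h1 : a ^ 2 - b ^ 2 = 4 * j ^ 2 * κ) (h2 : a * b = -2 * j * κ)
    (h3 : (a - m) ^ 2 - (2 * (b - n)) ^ 2 = (4 * j ^ 2 - 3) * κ)
    (h4 : (a - m) * (2 * (b - n)) = -4 * j * κ) : False := by
  have hj' : (2 : ℝ) ≤ j := by exact_mod_cast hj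
  have j2 : (4 : ℝ) ≤ j ^ 2 := by nlinarith
  have k0 : 0 < κ := by
    by_contra hc
    nlinarith [mul_nonneg (show (0 : ℝ) ≤ 16 * j ^ 2 by positivity) (neg_nonneg.mpr (not_lt.mp hc))]
  have k1 : κ ≤ 1 / 64 := by nlinarith
  have e1 : a ^ 2 * b ^ 2 = κ / 4 := by
    rw [← mul_pow, h2]
    linear_combination κ / 4 * hκ
  have e2 : ((a - m) ^ 2) * (2 * (b - n)) ^ 2 = κ := by
    rw [← mul_pow, h4]
    linear_combination κ * hκ
  have e3 : a ^ 2 = 1 / 4 + b ^ 2 := by linear_combination h1 + hκ / 4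
  have e4 : (a - m) ^ 2 = 1 / 4 - 3 * κ + (2 * (b - n)) ^ 2 := by linear_combination h3 + hκ / 4
  have e5 : b ^ 2 ≤ 1 / 64 := by
    rw [e3] at e1
    nlinarith [sq_nonneg (b ^ 2)]
  have e6 : (2 * (b - n)) ^ 2 ≤ 1 / 4 := by
    rw [e4] at e2
    nlinarith [sq_nonneg ((2 * (b - n)) ^ 2), sq_nonneg (2 * (b - n))]
  have e7 : (n : ℝ) ^ 2 < 1 := by nlinarith [sq_nonneg (2 * b - n)]
  have e8 : n ^ 2 < 1 := by exact_mod_cast e7
  obtain rfl : n = 0 := by nlinarith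
  simp only [Int.cast_zero, sub_zero] at h3 h4 e4
  have e9 : (m : ℝ) * b = 0 := by linear_combination h2 - h4 / 2
  have b0 : b ≠ 0 := by
    rintro rfl
    linarith
  have m0 : (m : ℝ) = 0 := (mul_eq_zero.mp e9).resolve_right b0
  rw [m0, sub_zero] at e4
  have e10 : b ^ 2 = κ := by linear_combination (e3 - e4) / 3
  rw [e3, e10] at e1
  nlinarith

theorem nonunit_p {ε : ℝ} (hε : 0 < ε) : ∃ j0 : ℤ, ∀ j : ℤ, j0 ≤ j →
    ∃ (g h : ℂ → ℂ) (v : ℂ), Hol g ∧ Hol h ∧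
    (∀ τ ∈ UH, g τ * h τ = τ - I - 2 * j ∧ g τ ≠ 1 ∧ g τ ≠ lam τ) ∧
    ¬ Lat I (2 * v) ∧ g I = XX v I ∧ g (2 * I) ≠ XX (bt v (2 * I)) (2 * I) ∧
    ‖g I - 1 / 2‖ < ε := by
  obtain ⟨δ, hδ, hnear⟩ := Q4_near hε
  refine ⟨max 2 ⌈1 / δ⌉, fun j hj0 => ?_⟩
  have hj2 : 2 ≤ j := (le_max_left _ _).trans hj0
  have hjδ : 1 / δ ≤ (j : ℝ) := Int.ceil_le.mp ((le_max_right _ _).trans hj0)
  have hj2' : (2 : ℝ) ≤ j := by exact_mod_cast hj2
  have hj : j ≠ 0 := by omega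
  obtain ⟨q, hq⟩ : ∃ q : ℂ → ℂ, q = fun τ => (τ - I - 2 * j) * (τ + I - 2 * j) := ⟨_, rfl⟩
  obtain ⟨κ, k0, k1, k2⟩ : ∃ κ : ℝ, 0 < κ ∧ κ < 1 / 4 ∧ 16 * j ^ 2 * κ = 1 := by
    refine ⟨1 / (16 * j ^ 2), by positivity, ?_, by field_simp⟩
    exact one_div_lt_one_div_of_lt (by norm_num) (by nlinarith)
  choose t ht using fun τ => IsAlgClosed.exists_pow_nat_eq (κ * q τ) two_pos
  have hκ : (κ : ℂ) ≠ 0 := ofReal_ne_zero.2 k0.ne'
  have a1 : ∀ τ ∈ UH, τ + I - 2 * j ≠ 0 := fun τ hτ e => by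
    have h1 := congrArg Complex.im e
    have h2 : 0 < τ.im := hτ
    simp at h1
    linarith
  have a2 : ∀ τ ∈ UH, κ * q τ = 0 ↔ τ = I + 2 * j := fun τ hτ => by
    simp only [hq, mul_eq_zero, hκ, a1 τ hτ, false_or, or_false, sub_sub, sub_eq_zero]
  have a3 : ∀ τ ∈ UH, Lat τ (2 * t τ) → t τ = 0 := fun τ hτ => N_off k0 k1 hτ (by rw [ht, hq])
  have a4 : ∀ τ ∈ UH, τ ≠ I + 2 * j → ¬ Lat τ (2 * t τ) := fun τ hτ h e =>
    h ((a2 τ hτ).1 (by rw [← ht, a3 τ hτ e, zero_pow two_ne_zero]))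
  have a5 : Differentiable ℂ fun τ => κ * q τ := by rw [hq]; fun_prop
  have a6 := N_even (c := I + 2 * j) (by simp [UH]) a5 ht a2 fun τ hτ e => a3 τ hτ e.two
  obtain ⟨d, hd⟩ : ∃ d : ℂ → ℂ,
    d = fun τ => 1 + κ * q τ * ((pp τ).weierstrassPExcept 0 (t τ) - eA τ) := ⟨_, rfl⟩
  have a7 : Hol d := hd ▸ (differentiableOn_const 1).add (a5.differentiableOn.mul (a6.sub hol_e.1))
  have a8 : ∀ τ ∈ UH, τ ≠ I + 2 * j → d τ = κ * q τ * DD τ * XX (t τ) τ := fun τ hτ h => by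
    have b1 := mt (a2 τ hτ).1 h
    rw [hd, XX, wp, MPb1b13a.Disc.wp_eq, ht, mul_assoc _ (DD τ), mul_div_cancel₀ _ (DD_ne hτ)]
    simp only
    generalize κ * q τ = z at b1
    field_simp
    ring
  have a9 : ∀ τ ∈ UH, d τ ≠ 0 := fun τ hτ => by
    by_cases h : τ = I + 2 * j
    · simp only [hd, (a2 τ hτ).2 h, zero_mul, add_zero]
      exact one_ne_zero
    · rw [a8 τ hτ h]
      exact mul_ne_zero (mul_ne_zero (mt (a2 τ hτ).1 h) (DD_ne hτ)) (N_x hτ (a4 τ hτ h)).1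
  have b1 : ∀ τ ∈ UH, τ ≠ I + 2 * j →
      lam τ * DD τ * (κ * q τ) / d τ = lam τ / XX (t τ) τ := fun τ hτ h => by
    rw [div_eq_div_iff (a9 τ hτ) (N_x hτ (a4 τ hτ h)).1, a8 τ hτ h]
    ring
  have b2 : (I : ℂ) ≠ I + 2 * j := fun e => hj (by simpa using e)
  have b3 : (2 * I : ℂ) ∈ UH := by simp [UH]
  have b4 : (2 * I : ℂ) ≠ I + 2 * j := fun e => by simpa using congrArg Complex.im e
  have b5 := a4 I I_mem b2
  have b6 : ¬ Lat (2 * I) (2 * bt (t I) (2 * I)) := by rwa [← bt_two, lat_bt b3]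
  refine ⟨fun τ => lam τ * DD τ * (κ * q τ) / d τ,
    fun τ => d τ / (lam τ * DD τ * (κ * (τ + I - 2 * j))), I / 2 + t I,
    ((hol_lam.mul hol_DD).mul a5.differentiableOn).div a7 a9,
    a7.div ((hol_lam.mul hol_DD).mul (by fun_prop)) fun τ hτ =>
      mul_ne_zero (mul_ne_zero (lam_ne hτ).1 (DD_ne hτ)) (mul_ne_zero hκ (a1 τ hτ)),
    fun τ hτ => ⟨?_, ?_⟩, fun e => b5 ?_, (b1 I I_mem b2).trans (N_half I_mem b5).symm,
    fun e => ?_, ?_⟩
  · have c1 := (lam_ne hτ).1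
    have c2 := DD_ne hτ
    have c3 := a1 τ hτ
    have c4 := a9 τ hτ
    simp only [hq]
    field_simp
  · by_cases h : τ = I + 2 * j
    · simp only [(a2 τ hτ).2 h, mul_zero, zero_div]
      exact ⟨zero_ne_one, (lam_ne hτ).1.symm⟩
    · obtain ⟨c1, c2, c3⟩ := N_x hτ (a4 τ hτ h)
      simp only [b1 τ hτ h]
      exact ⟨fun e => c3 ((div_eq_one_iff_eq c1).1 e).symm,
        fun e => c2 (mul_left_cancel₀ (lam_ne hτ).1 (((div_eq_iff c1).1 e).symm.trans
          (mul_one _).symm))⟩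
  · rw [show 2 * t I = 2 * (I / 2 + t I) - I by ring]
    exact e.sub ⟨0, 1, by simp⟩
  · have c1 : bt (I / 2 + t I) (2 * I) = 2 * I / 2 + bt (t I) (2 * I) := by
      rw [bt_add]
      simp [bt]
    have c2 := a4 _ b3 b4
    simp only [b1 _ b3 b4] at e
    rw [c1, N_half b3 b6, div_eq_div_iff (N_x b3 c2).1 (N_x b3 b6).1] at e
    have c7 := ht I
    have c8 := ht (2 * I)
    rw [hq] at c7 c8
    have d2 := congrArg Complex.re c7
    have d3 := congrArg Complex.im c7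
    have key : ∀ s : ℂ, s ^ 2 = t (2 * I) ^ 2 → ¬ Lat (2 * I) (bt (t I) (2 * I) - s) := by
      rintro s hs ⟨m, n, f⟩
      have f1 : s = bt (t I) (2 * I) - (m + n * (2 * I)) := by linear_combination -f
      rw [c8, f1, bt] at hs
      have d4 := congrArg Complex.re hs
      have d5 := congrArg Complex.im hs
      simp [sq] at d2 d3 d4 d5
      exact Q4_test (a := (t I).re) (b := (t I).im) (m := m) (n := n) hj2 k2
        (by linear_combination d2) (by linear_combination d3 / 2) (by linear_combination d4)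
        (by linear_combination d5 / 2)
    rcases x_eq b3 (mt Lat.two b6) (mt Lat.two c2) (mul_left_cancel₀ (lam_ne b3).1 e) with f | f
    · exact key _ rfl f
    · exact key (-t (2 * I)) (neg_sq _) (by rwa [sub_neg_eq_add])
  · simp only [b1 I I_mem b2]
    refine hnear _ ?_
    have k3 : (16 : ℂ) * j ^ 2 * κ = 1 := by exact_mod_cast k2
    have e1 : t I ^ 2 - 1 / 4 = -(4 * j * κ * I) := by
      rw [ht, hq]
      linear_combination k3 / 4
    rw [e1, norm_neg]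
    simp only [norm_mul, norm_ofNat, norm_intCast, norm_real, Real.norm_eq_abs, norm_I, mul_one,
      abs_of_pos k0, abs_of_pos (show (0 : ℝ) < j by linarith)]
    rw [div_le_iff₀ hδ] at hjδ
    have e2 : 4 * j * κ * (4 * j) = 1 := by linear_combination k2
    by_contra hc
    nlinarith [mul_le_mul_of_nonneg_right (not_lt.mp hc) (show (0 : ℝ) ≤ 4 * j by linarith)]
-- END Q4

end Pool.Agent.Lib.MP_b1b13a_lc.Dk
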