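import Pool.Agent.Lib.MP_b1b13a_lc.Dk.Lam

set_option autoImplicit false

noncomputable section

namespace Pool.Agent.Lib.MP_b1b13a_lc.Dk

open Complex Set Filter Topology

-- BEGIN X
theorem wp_lift {x y : ℂ → ℂ} (hx : Hol x) (hy : Hol y) (h0 : ∀ τ ∈ UH, y τ ≠ 0)
    (h : ∀ τ ∈ UH, y τ ^ 2 = 4 * DD τ ^ 3 * (x τ * (x τ - 1) * (x τ - lam τ))) :
    ∃ u, Hol u ∧ ∀ τ ∈ UH, ¬ Lat τ (u τ) ∧ XX (u τ) τ = x τ ∧ wq (u τ) τ = y τ := by
  obtain ⟨u, hu⟩ := F_fam.global_lift (fun L _ _ => wp_inj L) (x := fun τ => DD τ * x τ + eA τ)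
    (y := y) (fun τ hτ => ((hol_DD.mul hx).add hol_e.1).analyticAt (isOpen_UH.mem_nhds hτ))
    (fun τ hτ => (hy.differentiableAt (isOpen_UH.mem_nhds hτ)).continuousAt) h0 fun τ hτ => by
      obtain ⟨w, h1, h2, h3⟩ := xy_surj hτ (h τ hτ)
      refine ⟨w, mt (lat_iff hτ).1 h1, ?_, h3⟩
      rw [← h2, XX, mul_div_cancel₀ _ (DD_ne hτ), sub_add_cancel]
      rfl
  refine ⟨u, fun τ hτ => (hu τ hτ).1.differentiableAt.differentiableWithinAt, fun τ hτ =>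
    ⟨mt (lat_iff hτ).2 (hu τ hτ).2.1, ?_, (hu τ hτ).2.2.2⟩⟩
  rw [XX, wp, (hu τ hτ).2.2.1, add_sub_cancel_right, mul_div_cancel_left₀ _ (DD_ne hτ)]

theorem sec_class {x y : ℂ → ℂ} (hx : Hol x) (hy : Hol y) (h0 : ∀ τ ∈ UH, y τ ≠ 0)
    (h : ∀ τ ∈ UH, y τ ^ 2 = 4 * DD τ ^ 3 * (x τ * (x τ - 1) * (x τ - lam τ))) :
    ∃ v, ¬ Lat I (2 * v) ∧ ∀ τ ∈ UH, x τ = XX (bt v τ) τ ∧ y τ = wq (bt v τ) τ := by
  obtain ⟨u, hu, h1⟩ := wp_lift hx hy h0 h
  obtain ⟨v, hv⟩ := flat hu fun τ hτ => (h1 τ hτ).1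
  refine ⟨v, ?_, fun τ hτ => hv τ hτ ▸ ⟨(h1 τ hτ).2.1.symm, (h1 τ hτ).2.2.symm⟩⟩
  have h2 := (wq_ne I_mem (h1 I I_mem).1).1 ((h1 I I_mem).2.2 ▸ h0 I I_mem)
  rwa [hv I I_mem, bt_I] at h2
-- END X

-- BEGIN N
theorem N_x {τ t : ℂ} (hτ : τ ∈ UH) (h : ¬ Lat τ (2 * t)) :
    XX t τ ≠ 0 ∧ XX t τ ≠ 1 ∧ XX t τ ≠ lam τ := by
  have h1 : ¬ Lat τ t := mt Lat.two h
  have h2 := pow_ne_zero 2 ((wq_ne hτ h1).2 h)
  rw [wq_sq hτ h1] at h2
  refine ⟨fun e => h2 ?_, fun e => h2 ?_, fun e => h2 ?_⟩ <;> simp [e]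

/-- translation by the half period -/
theorem N_half {τ t : ℂ} (hτ : τ ∈ UH) (h : ¬ Lat τ (2 * t)) :
    XX (τ / 2 + t) τ = lam τ / XX t τ := by
  have h1 : ¬ Lat τ t := mt Lat.two h
  have h2 : Lat τ τ := ⟨0, 1, by simp⟩
  have h3 := (half_not_lat hτ).1
  have h4 : wq (τ / 2) τ = 0 := by
    by_contra e
    exact (wq_ne hτ h3).1 e (by rwa [mul_div_cancel₀ _ two_ne_zero])
  have h5 : XX (τ / 2) τ = 0 := by simp [XX, eA]
  have h6 := (N_x hτ h).1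
  have h7 := (xy_add (m := wq t τ / XX t τ) hτ h3 h
    (fun e => h (by rw [show 2 * t = 2 * (τ / 2 + t) - τ by ring]; exact e.two.sub h2))
    (fun e => h (by rw [show 2 * t = τ - 2 * (τ / 2 - t) by ring]; exact h2.sub e.two))
    (by rw [h4, h5]; field_simp; ring)).1
  rw [div_pow, wq_sq hτ h1, h5, eq_div_iff (pow_ne_zero 2 h6)] at h7
  rw [eq_div_iff h6]
  refine mul_left_cancel₀ (mul_ne_zero (mul_ne_zero (by norm_num : (4 : ℂ) ≠ 0)
    (pow_ne_zero 3 (DD_ne hτ))) h6) ?_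
  linear_combination h7

theorem N_off {κ : ℝ} (h0 : 0 < κ) (h1 : κ < 1 / 4) {j : ℤ} {τ t : ℂ} (hτ : τ ∈ UH)
    (ht : t ^ 2 = κ * ((τ - I - 2 * j) * (τ + I - 2 * j))) (h : Lat τ (2 * t)) : t = 0 := by
  obtain ⟨m, n, e⟩ := h
  have h2 : ((m : ℂ) + n * τ) ^ 2 = 4 * κ * ((τ - 2 * j) ^ 2 + 1) := by
    rw [← e]
    linear_combination 4 * ht - 4 * κ * I_sq
  have hy : 0 < τ.im := hτ
  have h3 := congrArg Complex.re h2
  have h4 := congrArg Complex.im h2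
  simp [sq] at h3 h4
  have h5 : ((m : ℝ) + n * τ.re) * n = 4 * κ * (τ.re - 2 * j) :=
    mul_right_cancel₀ hy.ne' (by linear_combination (1 / 2 : ℝ) * h4)
  have h6 : 4 * κ * (((m : ℝ) + 2 * j * n) ^ 2 + n ^ 2 - 4 * κ) =
      -((n ^ 2 - 4 * κ) * τ.im) ^ 2 := by
    linear_combination (-(n : ℝ) ^ 2 + 4 * κ) * h3 +
      (((m : ℝ) + n * τ.re) * n + 4 * κ * (τ.re - 2 * j) -
        8 * κ * (τ.re - 2 * j)) * h5
  have h7 : ((m : ℝ) + 2 * j * n) ^ 2 + n ^ 2 < 1 := by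
    by_contra h8
    nlinarith [sq_nonneg ((n ^ 2 - 4 * κ) * τ.im), mul_pos h0 (show 0 <
      ((m : ℝ) + 2 * j * n) ^ 2 + n ^ 2 - 4 * κ by linarith [not_lt.1 h8])]
  have h8 : (m + 2 * j * n) ^ 2 + n ^ 2 < 1 := by exact_mod_cast h7
  obtain rfl : n = 0 := by nlinarith [sq_nonneg (m + 2 * j * n)]
  obtain rfl : m = 0 := by nlinarith
  simpa using e

theorem N_small {z : ℂ} (h : Lat (2 * I) z) (h1 : ‖z‖ < 1) : z = 0 := by
  obtain ⟨m, n, rfl⟩ := h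
  have h2 := (abs_re_le_norm _).trans_lt h1
  have h3 := (abs_im_le_norm _).trans_lt h1
  simp at h2 h3
  obtain rfl : m = 0 := Int.abs_lt_one_iff.1 (by exact_mod_cast h2)
  obtain rfl : n = 0 := Int.abs_lt_one_iff.1 (by
    have : |(n : ℝ)| < 1 := by linarith [abs_nonneg (n : ℝ)]
    exact_mod_cast this)
  simp

/-- an even function of a square root -/
theorem N_even {s t : ℂ → ℂ} {c : ℂ} (hc : c ∈ UH) (hs : Differentiable ℂ s)
    (ht : ∀ τ, t τ ^ 2 = s τ) (h0 : ∀ τ ∈ UH, s τ = 0 ↔ τ = c)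
    (h1 : ∀ τ ∈ UH, Lat τ (t τ) → t τ = 0) :
    Hol fun τ => (pp τ).weierstrassPExcept 0 (t τ) := by
  refine (differentiableOn_compl_singleton_and_continuousAt_iff (isOpen_UH.mem_nhds hc)).1
    ⟨fun τ hτ => ?_, ?_⟩
  · have h2 : t τ ≠ 0 := fun e => hτ.2 ((h0 τ hτ.1).1 (by rw [← ht, e, zero_pow two_ne_zero]))
    obtain ⟨u, h3, h4, h5⟩ := MPb1b13a.Disc.exists_implicit (t := τ) (w := t τ)
      (F := fun q => q.2 ^ 2 - s q.1) ((analyticAt_snd.fun_pow 2).fun_sub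
        ((hs.analyticAt τ).comp_of_eq (f := Prod.fst) analyticAt_fst rfl)) (by simpa using h2)
    have h6 := (continuousAt_id.prodMk h3.continuousAt).tendsto
    simp only [id, h4] at h6
    refine ((F_fam.comp_except hτ.1 h3 fun e => h4 ▸ h1 τ hτ.1 (h4 ▸ (lat_iff hτ.1).1 e)).congr
      ((h6.eventually h5).mono fun σ hσ => ?_)).differentiableAt.differentiableWithinAt
    have h7 := hσ.2 rfl
    rw [ht, sub_self, sub_eq_zero, ← ht] at h7
    rcases sq_eq_sq_iff_eq_or_eq_neg.1 h7 with e | e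
    · exact congrArg _ e
    · exact (congrArg _ e).trans (by rw [PeriodPair.weierstrassPExcept_neg, neg_zero])
  · have h2 : t c = 0 := pow_eq_zero_iff two_ne_zero |>.1 ((ht c).trans ((h0 c hc).2 rfl))
    have h3 : ContinuousAt t c := by
      rw [ContinuousAt, h2, tendsto_zero_iff_norm_tendsto_zero]
      have h4 := (hs.continuous.norm.sqrt).tendsto c
      rw [(h0 c hc).2 rfl, norm_zero, Real.sqrt_zero] at h4
      exact h4.congr fun τ => by rw [← ht, norm_pow, Real.sqrt_sq (norm_nonneg _)]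
    exact (F_fam.analyticAt_except hc fun _ => h2).continuousAt.comp_of_eq
      (f := fun τ => (τ, t τ)) (continuousAt_id.prodMk h3) rfl

theorem nonunit {j : ℤ} (hj : j ≠ 0) : ∃ (g h : ℂ → ℂ) (v : ℂ), Hol g ∧ Hol h ∧
    (∀ τ ∈ UH, g τ * h τ = τ - I - 2 * j ∧ g τ ≠ 1 ∧ g τ ≠ lam τ) ∧
    ¬ Lat I (2 * v) ∧ g I = XX v I ∧ g (2 * I) ≠ XX (bt v (2 * I)) (2 * I) := by
  obtain ⟨q, hq⟩ : ∃ q : ℂ → ℂ, q = fun τ => (τ - I - 2 * j) * (τ + I - 2 * j) := ⟨_, rfl⟩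
  obtain ⟨κ, k0, k1, k2, k3⟩ : ∃ κ : ℝ, 0 < κ ∧ κ < 1 / 4 ∧ κ * ‖q I‖ ≤ (1 / 8) ^ 2 ∧
      κ * ‖q (2 * I)‖ ≤ (1 / 8) ^ 2 := by
    have a1 := norm_nonneg (q I)
    have a2 := norm_nonneg (q (2 * I))
    refine ⟨1 / (64 * (‖q I‖ + ‖q (2 * I)‖ + 1)), by positivity, ?_, ?_, ?_⟩
    · exact one_div_lt_one_div_of_lt (by norm_num) (by linarith)
    all_goals
      rw [div_mul_eq_mul_div, div_le_iff₀ (by positivity)]
      linarith
  choose t ht using fun τ => IsAlgClosed.exists_pow_nat_eq (κ * q τ) two_pos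
  have hκ : (κ : ℂ) ≠ 0 := ofReal_ne_zero.2 k0.ne'
  have a1 : ∀ τ ∈ UH, τ + I - 2 * j ≠ 0 := fun τ hτ e => by
    have h1 := congrArg Complex.im e
    have h2 : 0 < τ.im := hτ
    simp at h1
    linarith
  have a2 : ∀ τ ∈ UH, κ * q τ = 0 ↔ τ = I + 2 * j := fun τ hτ => by
    simp only [hq, mul_eq_zero, hκ, a1 τ hτ, false_or, or_false, sub_sub, sub_eq_zero]
  have a3 : ∀ τ ∈ UH, Lat τ (2 * t τ) → t τ = 0 := fun τ hτ => N_off k0 k1 hτ (by rw [ht, hq])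
  have a4 : ∀ τ ∈ UH, τ ≠ I + 2 * j → ¬ Lat τ (2 * t τ) := fun τ hτ h e =>
    h ((a2 τ hτ).1 (by rw [← ht, a3 τ hτ e, zero_pow two_ne_zero]))
  have a5 : Differentiable ℂ fun τ => κ * q τ := by rw [hq]; fun_prop
  have a6 := N_even (c := I + 2 * j) (by simp [UH]) a5 ht a2 fun τ hτ e => a3 τ hτ e.two
  obtain ⟨d, hd⟩ : ∃ d : ℂ → ℂ,
    d = fun τ => 1 + κ * q τ * ((pp τ).weierstrassPExcept 0 (t τ) - eA τ) := ⟨_, rfl⟩
  have a7 : Hol d := hd ▸ (differentiableOn_const 1).add (a5.differentiableOn.mul (a6.sub hol_e.1))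
  have a8 : ∀ τ ∈ UH, τ ≠ I + 2 * j → d τ = κ * q τ * DD τ * XX (t τ) τ := fun τ hτ h => by
    have b1 := mt (a2 τ hτ).1 h
    rw [hd, XX, wp, MPb1b13a.Disc.wp_eq, ht, mul_assoc _ (DD τ), mul_div_cancel₀ _ (DD_ne hτ)]
    simp only
    generalize κ * q τ = z at b1
    field_simp
    ring
  have a9 : ∀ τ ∈ UH, d τ ≠ 0 := fun τ hτ => by
    by_cases h : τ = I + 2 * j
    · simp only [hd, (a2 τ hτ).2 h, zero_mul, add_zero]
      exact one_ne_zero
    · rw [a8 τ hτ h]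
      exact mul_ne_zero (mul_ne_zero (mt (a2 τ hτ).1 h) (DD_ne hτ)) (N_x hτ (a4 τ hτ h)).1
  have b1 : ∀ τ ∈ UH, τ ≠ I + 2 * j →
      lam τ * DD τ * (κ * q τ) / d τ = lam τ / XX (t τ) τ := fun τ hτ h => by
    rw [div_eq_div_iff (a9 τ hτ) (N_x hτ (a4 τ hτ h)).1, a8 τ hτ h]
    ring
  have b2 : (I : ℂ) ≠ I + 2 * j := fun e => hj (by simpa using e)
  have b3 : (2 * I : ℂ) ∈ UH := by simp [UH]
  have b4 : (2 * I : ℂ) ≠ I + 2 * j := fun e => by simpa using congrArg Complex.im e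
  have b5 := a4 I I_mem b2
  have b6 : ¬ Lat (2 * I) (2 * bt (t I) (2 * I)) := by rwa [← bt_two, lat_bt b3]
  refine ⟨fun τ => lam τ * DD τ * (κ * q τ) / d τ,
    fun τ => d τ / (lam τ * DD τ * (κ * (τ + I - 2 * j))), I / 2 + t I,
    ((hol_lam.mul hol_DD).mul a5.differentiableOn).div a7 a9,
    a7.div ((hol_lam.mul hol_DD).mul (by fun_prop)) fun τ hτ =>
      mul_ne_zero (mul_ne_zero (lam_ne hτ).1 (DD_ne hτ)) (mul_ne_zero hκ (a1 τ hτ)),
    fun τ hτ => ⟨?_, ?_⟩, fun e => b5 ?_, (b1 I I_mem b2).trans (N_half I_mem b5).symm,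
    fun e => ?_⟩
  · have c1 := (lam_ne hτ).1
    have c2 := DD_ne hτ
    have c3 := a1 τ hτ
    have c4 := a9 τ hτ
    simp only [hq]
    field_simp
  · by_cases h : τ = I + 2 * j
    · simp only [(a2 τ hτ).2 h, mul_zero, zero_div]
      exact ⟨zero_ne_one, (lam_ne hτ).1.symm⟩
    · obtain ⟨c1, c2, c3⟩ := N_x hτ (a4 τ hτ h)
      simp only [b1 τ hτ h]
      exact ⟨fun e => c3 ((div_eq_one_iff_eq c1).1 e).symm,
        fun e => c2 (mul_left_cancel₀ (lam_ne hτ).1 (((div_eq_iff c1).1 e).symm.trans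
          (mul_one _).symm))⟩
  · rw [show 2 * t I = 2 * (I / 2 + t I) - I by ring]
    exact e.sub ⟨0, 1, by simp⟩
  · have c1 : bt (I / 2 + t I) (2 * I) = 2 * I / 2 + bt (t I) (2 * I) := by
      rw [bt_add]
      simp [bt]
    have c2 := a4 _ b3 b4
    simp only [b1 _ b3 b4] at e
    rw [c1, N_half b3 b6, div_eq_div_iff (N_x b3 c2).1 (N_x b3 b6).1] at e
    have c3 : ∀ τ, κ * ‖q τ‖ ≤ (1 / 8) ^ 2 → ‖t τ‖ ≤ 1 / 8 := fun τ h =>
      (abs_le_of_sq_le_sq' (by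
        rwa [← norm_pow, ht, norm_mul, norm_real, Real.norm_of_nonneg k0.le]) (by norm_num)).2
    have c4 : ‖bt (t I) (2 * I)‖ ≤ 3 / 8 := by
      refine (norm_add_le _ _).trans ?_
      have d1 := (abs_re_le_norm _).trans (c3 I k2)
      have d2 := (abs_im_le_norm _).trans (c3 I k2)
      simp only [norm_mul, norm_real, Real.norm_eq_abs, norm_ofNat, norm_I]
      linarith
    have c5 := c3 _ k3
    have c6 : bt (t I) (2 * I) ^ 2 = t (2 * I) ^ 2 := by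
      rcases x_eq b3 (mt Lat.two b6) (mt Lat.two c2) (mul_left_cancel₀ (lam_ne b3).1 e) with f | f
      · rw [sub_eq_zero.1 (N_small f ((norm_sub_le _ _).trans_lt (by linarith)))]
      · rw [eq_neg_of_add_eq_zero_left (N_small f ((norm_add_le _ _).trans_lt (by linarith))),
          neg_sq]
    have c7 := ht I
    rw [ht, hq, bt] at c6
    rw [hq] at c7
    have d1 := congrArg Complex.re c6
    have d2 := congrArg Complex.re c7
    have d3 := congrArg Complex.im c7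
    simp [sq] at d1 d2 d3
    have d4 : (t I).im ^ 2 = κ := by linear_combination (1 / 3 : ℝ) * d2 - (1 / 3 : ℝ) * d1
    have d5 : (t I).re ^ 2 = κ * (4 * j ^ 2 + 1) := by linear_combination d2 + d4
    have d6 : (t I).re * (t I).im = -2 * κ * j := by linear_combination (1 / 2 : ℝ) * d3
    have d7 : κ ^ 2 = 0 := by
      linear_combination -(t I).re ^ 2 * d4 - κ * d5 + ((t I).re * (t I).im - 2 * κ * j) * d6
    exact k0.ne' (pow_eq_zero_iff two_ne_zero |>.1 d7)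
-- END N

-- BEGIN P
theorem p_good {v : ℂ} (hv : ¬ Lat I v) (h0 : (2 * XX v I - 1) ^ 2 ≠ 0)
    (h1 : (2 * XX v I - 1) ^ 2 ≠ 1) : ¬ Lat I (2 * v) := by
  rw [← wq_ne I_mem hv]
  intro e
  have h := wq_sq I_mem hv
  rw [e, lam_val.1] at h
  have hD := DD_ne I_mem
  have : DD I ^ 3 * ((2 * XX v I - 1) * ((2 * XX v I - 1) ^ 2 - 1)) = 0 := by
    linear_combination (-2) * h
  rcases mul_eq_zero.1 this with k | k
  · exact hD (pow_eq_zero_iff (by norm_num) |>.1 k)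
  rcases mul_eq_zero.1 k with k | k
  · exact h0 (by rw [k]; ring)
  · exact h1 (by linear_combination k)

theorem p_cm (w : ℂ) :
    (Lat I (I * w) ↔ Lat I w) ∧ XX (I * w) I = 1 - XX w I ∧ wq (I * w) I = I * wq w I :=
  cm_xy I_mem lam_val.1 (α := 0) (β := -1) (γ := 1) (by simp) (by simp) w

theorem XX_per {τ l : ℂ} (hτ : τ ∈ UH) (hl : Lat τ l) (w : ℂ) : XX (w + l) τ = XX w τ := by
  simp only [XX, (wp_per hτ hl w).1]

theorem XX_neg (w τ : ℂ) : XX (-w) τ = XX w τ := by simp only [XX, (wp_neg w τ).1]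

theorem p_step {v : ℂ} (hv : ¬ Lat I v) (h0 : (2 * XX v I - 1) ^ 2 ≠ 0)
    (h1 : (2 * XX v I - 1) ^ 2 ≠ 1) : ¬ Lat I ((1 + I) * v) ∧
      4 * (2 * XX v I - 1) ^ 2 * (2 * XX ((1 + I) * v) I - 1) ^ 2 =
        -((2 * XX v I - 1) ^ 2 - 1) ^ 2 := by
  obtain ⟨-, c2, c3⟩ := p_cm v
  have ht : 2 * XX v I - 1 ≠ 0 := fun e => h0 (by rw [e]; ring)
  have hs : ¬ Lat I (v + I * v) := fun e => by
    have := XX_per I_mem e (-v)
    rw [XX_neg, neg_add_cancel_left, c2] at this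
    exact ht (by linear_combination -this)
  have hd : ¬ Lat I (v - I * v) := fun e => by
    have := XX_per I_mem e (I * v)
    rw [add_sub_cancel, c2] at this
    exact ht (by linear_combination this)
  have h2 : ¬ Lat I (2 * (I * v)) := fun e =>
    p_good hv h0 h1 ((p_cm (2 * v)).1.1 (by rwa [mul_left_comm]))
  have e : (1 + I) * v = v + I * v := by ring
  rw [e]
  refine ⟨hs, ?_⟩
  have k := (xy_add (m := (1 - I) * wq v I / (2 * XX v I - 1)) I_mem hv h2 hs hd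
    (by rw [c2, c3]; field_simp; ring)).1
  have q := wq_sq I_mem hv
  rw [lam_val.1] at q k
  rw [c2, div_pow, eq_div_iff h0, mul_pow, q] at k
  have hD := pow_ne_zero 3 (DD_ne I_mem)
  have k2 : (2 * XX v I - 1) * (2 * (2 * XX (v + I * v) I - 1)) =
      -I * ((2 * XX v I - 1) ^ 2 - 1) := by
    apply mul_left_cancel₀ (mul_ne_zero hD ht)
    have hI : (1 - I) ^ 2 = -2 * I := by linear_combination I_sq
    rw [hI] at k
    linear_combination k
  have k3 := congrArg (· ^ 2) k2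
  simp only [mul_pow, neg_mul, neg_sq, I_sq] at k3
  linear_combination k3

theorem p_val {s : ℚ} (h : padicValRat 2 s < 0) :
    s ≠ 0 ∧ s ≠ 1 ∧ padicValRat 2 (-(s - 1) ^ 2 / (4 * s)) = padicValRat 2 s - 2 := by
  have h0 : s ≠ 0 := by rintro rfl; simp at h
  have h1 : s ≠ 1 := by rintro rfl; simp at h
  have h2 : s - 1 ≠ 0 := sub_ne_zero.2 h1
  refine ⟨h0, h1, ?_⟩
  have h3 : padicValRat 2 (s - 1) = padicValRat 2 s := by
    have := padicValRat.add_eq_of_lt (p := 2) (q := s) (r := -1) (by rwa [← sub_eq_add_neg]) h0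
      (by simp) (by simpa using h)
    rwa [← sub_eq_add_neg] at this
  have h4 : padicValRat 2 4 = 2 := by
    have : (4 : ℚ) = ((2 : ℕ) : ℚ) ^ 2 := by norm_num
    rw [this, padicValRat.pow, padicValRat.self (by norm_num)]
    simp
  rw [padicValRat.div (by simpa using h2) (by simpa using h0), padicValRat.neg,
    padicValRat.pow, padicValRat.mul (by norm_num) h0, h3, h4]
  push_cast
  ring

theorem p_orbit {v : ℂ} (hv : ¬ Lat I v) (h : XX v I = 5 / 4) (n : ℕ) :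
    ¬ Lat I ((1 + I) ^ n * v) ∧ ∃ s : ℚ, padicValRat 2 s = -2 - 2 * n ∧
      (2 * XX ((1 + I) ^ n * v) I - 1) ^ 2 = s := by
  induction n with
  | zero =>
    refine ⟨by simpa using hv, 9 / 4, ?_, by simp [h]; norm_num⟩
    have h4 : padicValRat 2 4 = 2 := by
      have : (4 : ℚ) = ((2 : ℕ) : ℚ) ^ 2 := by norm_num
      rw [this, padicValRat.pow, padicValRat.self (by norm_num)]
      simp
    have h9 : padicValRat 2 9 = 0 := by
      have : (9 : ℚ) = ((9 : ℕ) : ℚ) := by norm_num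
      rw [this, padicValRat.of_nat, padicValNat.eq_zero_of_not_dvd (by norm_num)]
      simp
    rw [padicValRat.div (by norm_num) (by norm_num), h4, h9]
    simp
  | succ n ih =>
    obtain ⟨h1, s, h2, h3⟩ := ih
    obtain ⟨k0, k1, k2⟩ := p_val (s := s) (by omega)
    have k0' : (s : ℂ) ≠ 0 := by exact_mod_cast k0
    obtain ⟨e1, e2⟩ := p_step h1 (by rwa [h3]) (by rw [h3]; exact_mod_cast k1)
    rw [← mul_assoc, ← pow_succ'] at e1 e2
    refine ⟨e1, -(s - 1) ^ 2 / (4 * s), by rw [k2, h2]; push_cast; ring, ?_⟩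
    rw [h3] at e2
    push_cast
    rw [eq_div_iff (by simpa using k0')]
    linear_combination e2

theorem nontorsion {v : ℂ} (hv : ¬ Lat I v) (h : XX v I = 5 / 4) (N : ℤ) (hN : Lat I (N * v)) :
    N = 0 := by
  by_contra h0
  have hN' : (N : ℂ) ≠ 0 := by exact_mod_cast h0
  have h1 : ∀ n : ℕ, Lat I (N * ((1 + I) ^ n * v)) := by
    intro n
    induction n with
    | zero => simpa using hN
    | succ n ih =>
      have := ih.add ((p_cm _).1.2 ih)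
      convert this using 1
      ring
  choose a b hab using h1
  have : NeZero N.natAbs := ⟨by omega⟩
  obtain ⟨n, n', hne, e⟩ := Finite.exists_ne_map_eq_of_infinite
    fun n : ℕ => (((a n : ℤ) : ZMod N.natAbs), ((b n : ℤ) : ZMod N.natAbs))
  obtain ⟨e1, e2⟩ := Prod.ext_iff.1 e
  simp only [ZMod.intCast_eq_intCast_iff_dvd_sub, Int.natAbs_dvd] at e1 e2
  obtain ⟨p, hp⟩ := e1
  obtain ⟨q, hq⟩ := e2
  have e3 : (1 + I) ^ n' * v = (1 + I) ^ n * v + (p + q * I) := by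
    apply mul_left_cancel₀ hN'
    have hp' : (a n' : ℂ) - a n = N * p := by exact_mod_cast hp
    have hq' : (b n' : ℂ) - b n = N * q := by exact_mod_cast hq
    linear_combination hab n' - hab n + hp' + I * hq'
  obtain ⟨-, s, s1, s2⟩ := p_orbit hv h n
  obtain ⟨-, t, t1, t2⟩ := p_orbit hv h n'
  rw [e3, XX_per I_mem ⟨p, q, rfl⟩, s2] at t2
  have : s = t := by exact_mod_cast t2
  rw [this, t1] at s1
  omega
-- END P

end Pool.Agent.Lib.MP_b1b13a_lc.Dk
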