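import Pool.Agent.Lib.MP_b1b13a_lc.Dk.Defs
import Pool.Agent.Lib.MP_b1b13a_lc.Disc.WpAdd
import Pool.Agent.Lib.MP_b1b13a_lc.Disc.LamA
import Pool.Agent.Lib.MP_b1b13a_lc.Disc.FamL

set_option autoImplicit false

noncomputable section

namespace Pool.Agent.Lib.MP_b1b13a_lc.Dk

open Complex Set Filter Topology

-- BEGIN D0
theorem isOpen_UH : IsOpen UH := isOpen_lt continuous_const Complex.continuous_im
theorem convex_UH : Convex ℝ UH := convex_halfSpace_im_gt 0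
theorem I_mem : I ∈ UH := by simp [UH]

theorem lat_iff {τ z : ℂ} (h : τ ∈ UH) : z ∈ (pp τ).lattice ↔ Lat τ z := by
  have h' : 0 < τ.im := h
  rw [PeriodPair.mem_lattice]
  simp only [pp, dif_pos h', Lat, mul_one]
  exact ⟨fun ⟨m, n, e⟩ => ⟨m, n, e.symm⟩, fun ⟨m, n, e⟩ => ⟨m, n, e.symm⟩⟩

theorem Lat.zero (τ : ℂ) : Lat τ 0 := ⟨0, 0, by simp⟩
theorem Lat.add {τ z w : ℂ} (h : Lat τ z) (k : Lat τ w) : Lat τ (z + w) := by
  obtain ⟨a, b, rfl⟩ := h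
  obtain ⟨c, d, rfl⟩ := k
  exact ⟨a + c, b + d, by push_cast; ring⟩
theorem Lat.zmul {τ z : ℂ} (h : Lat τ z) (n : ℤ) : Lat τ (n * z) := by
  obtain ⟨a, b, rfl⟩ := h
  exact ⟨n * a, n * b, by push_cast; ring⟩
theorem Lat.neg {τ z : ℂ} (h : Lat τ z) : Lat τ (-z) := by simpa using h.zmul (-1)
theorem Lat.sub {τ z w : ℂ} (h : Lat τ z) (k : Lat τ w) : Lat τ (z - w) := by
  simpa [sub_eq_add_neg] using h.add k.neg
theorem Lat.two {τ z : ℂ} (h : Lat τ z) : Lat τ (2 * z) := by simpa using h.zmul 2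

/-- real coordinates in the basis `1, τ` are unique -/
theorem coord_unique {τ : ℂ} (h : τ ∈ UH) {a b c d : ℝ} (e : (a : ℂ) + b * τ = c + d * τ) :
    a = c ∧ b = d := by
  have h' : 0 < τ.im := h
  have h1 := congrArg Complex.im e
  have h2 := congrArg Complex.re e
  simp at h1 h2
  have hb : b = d := h1.resolve_right h'.ne'
  rw [hb] at h2
  exact ⟨by linarith, hb⟩

theorem bt_I (v : ℂ) : bt v I = v := Complex.re_add_im v
theorem bt_add (v w τ : ℂ) : bt (v + w) τ = bt v τ + bt w τ := by simp [bt]; ring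
theorem bt_neg (v τ : ℂ) : bt (-v) τ = -bt v τ := by simp [bt]; ring
theorem bt_sub (v w τ : ℂ) : bt (v - w) τ = bt v τ - bt w τ := by simp [bt]; ring
theorem bt_two (v τ : ℂ) : bt (2 * v) τ = 2 * bt v τ := by simp [bt]; ring
theorem hol_bt (v : ℂ) : Differentiable ℂ (bt v) := by unfold bt; fun_prop

theorem lat_bt {τ : ℂ} (h : τ ∈ UH) (v : ℂ) : Lat τ (bt v τ) ↔ Lat I v := by
  constructor
  · rintro ⟨m, n, e⟩
    obtain ⟨h1, h2⟩ := coord_unique h (a := v.re) (b := v.im) (c := m) (d := n)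
      (by simpa [bt] using e)
    exact ⟨m, n, by apply Complex.ext <;> simp [h1, h2]⟩
  · rintro ⟨m, n, rfl⟩
    exact ⟨m, n, by simp [bt]⟩
-- END D0

-- BEGIN W1
theorem wp_hasDeriv (L : PeriodPair) {z : ℂ} (hz : z ∉ L.lattice) :
    HasDerivAt L.weierstrassP (L.derivWeierstrassP z) z :=
  MPb1b13a.Disc.wp_hasDerivAt L hz

theorem wq_hasDeriv (L : PeriodPair) {z : ℂ} (hz : z ∉ L.lattice) :
    HasDerivAt L.derivWeierstrassP (6 * L.weierstrassP z ^ 2 - L.g₂ / 2) z :=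
  MPb1b13a.Disc.wp'_hasDerivAt L hz

theorem W1_aux {f f' : ℂ → ℂ} {k z : ℂ}
    (hf : ∀ᶠ t in 𝓝 z, HasDerivAt f (f' t) t ∧ HasDerivAt f' (6 * f t ^ 2 - k) t) :
    AnalyticAt ℂ f z ∧ deriv f z = f' z ∧
      ∀ᶠ t in 𝓝[≠] z, deriv (deriv f) t = 6 * f t ^ 2 - k := by
  refine ⟨analyticAt_iff_eventually_differentiableAt.mpr
    (hf.mono fun t h => h.1.differentiableAt), hf.self_of_nhds.1.deriv,
    mem_nhdsWithin_of_mem_nhds ?_⟩
  filter_upwards [hf.eventually_nhds] with t ht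
  have e : deriv f =ᶠ[𝓝 t] f' := ht.mono fun s h => h.1.deriv
  rw [e.deriv_eq, ht.self_of_nhds.2.deriv]

/-- uniqueness for `y'' = 6 y ^ 2 - k` -/
theorem ode_uniq {f g f' g' : ℂ → ℂ} {k z : ℂ}
    (hf : ∀ᶠ t in 𝓝 z, HasDerivAt f (f' t) t ∧ HasDerivAt f' (6 * f t ^ 2 - k) t)
    (hg : ∀ᶠ t in 𝓝 z, HasDerivAt g (g' t) t ∧ HasDerivAt g' (6 * g t ^ 2 - k) t)
    (h0 : f z = g z) (h1 : f' z = g' z) : f =ᶠ[𝓝 z] g :=
  MPb1b13a.Disc.ode_unique (W1_aux hf).1 (W1_aux hg).1 h0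
    (by rw [(W1_aux hf).2.1, (W1_aux hg).2.1, h1]) (W1_aux hf).2.2 (W1_aux hg).2.2

/-- at a lattice point the function is unbounded -/
theorem wp_pole (L : PeriodPair) {l : ℂ} (hl : l ∈ L.lattice) :
    Tendsto L.weierstrassP (𝓝[≠] l) (Bornology.cobounded ℂ) :=
  tendsto_cobounded_of_meromorphicOrderAt_neg (by rw [L.order_weierstrassP l hl]; decide)

theorem wp_uniq (L L' : PeriodPair) (hg : L.g₂ = L'.g₂) {u v : ℂ} (hu : u ∉ L.lattice)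
    (hv : v ∉ L'.lattice) (h0 : L.weierstrassP u = L'.weierstrassP v)
    (h1 : L.derivWeierstrassP u = L'.derivWeierstrassP v) (t : ℂ) :
    u + t ∈ L.lattice ↔ v + t ∈ L'.lattice := by
  constructor
  · intro h
    have := MPb1b13a.Disc.add_mem_of_g₂_eq hg hu hv h0 h1 h
    rwa [show u + t + (v - u) = v + t by ring] at this
  · intro h
    have := MPb1b13a.Disc.add_mem_of_g₂_eq hg.symm hv hu h0.symm h1.symm h
    rwa [show v + t + (u - v) = u + t by ring] at this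

theorem wp_inj (L : PeriodPair) {u v : ℂ} (hu : u ∉ L.lattice) (hv : v ∉ L.lattice)
    (h0 : L.weierstrassP u = L.weierstrassP v)
    (h1 : L.derivWeierstrassP u = L.derivWeierstrassP v) : u - v ∈ L.lattice :=
  MPb1b13a.Disc.sub_mem_of_wp_eq_of_wp'_eq L hu hv h0 h1

theorem wp_eq (L : PeriodPair) {u v : ℂ} (hu : u ∉ L.lattice) (hv : v ∉ L.lattice)
    (h0 : L.weierstrassP u = L.weierstrassP v) : u - v ∈ L.lattice ∨ u + v ∈ L.lattice :=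
  (MPb1b13a.Disc.wp_eq_iff L hu hv).mp h0

theorem wq_zero (L : PeriodPair) {u : ℂ} (hu : u ∉ L.lattice) :
    L.derivWeierstrassP u = 0 ↔ 2 * u ∈ L.lattice :=
  MPb1b13a.Disc.wp'_eq_zero_iff L hu
-- END W1

-- BEGIN W2
theorem wp_surj (L : PeriodPair) (x : ℂ) : ∃ u, u ∉ L.lattice ∧ L.weierstrassP u = x :=
  MPb1b13a.Disc.wp_surj L x

theorem wp_surj2 (L : PeriodPair) {x y : ℂ} (h : y ^ 2 = 4 * x ^ 3 - L.g₂ * x - L.g₃) :
    ∃ u, u ∉ L.lattice ∧ L.weierstrassP u = x ∧ L.derivWeierstrassP u = y :=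
  MPb1b13a.Disc.wp_pair_surj L h

theorem wp_homog (L L' : PeriodPair) {μ : ℂ} (hμ : μ ≠ 0)
    (h : ∀ z, z ∈ L'.lattice ↔ μ * z ∈ L.lattice) (z : ℂ) :
    L'.weierstrassP z = μ ^ 2 * L.weierstrassP (μ * z) ∧
      L'.derivWeierstrassP z = μ ^ 3 * L.derivWeierstrassP (μ * z) ∧ L'.g₂ = μ ^ 4 * L.g₂ := by
  have h' : ∀ z, μ * z ∈ L.lattice ↔ z ∈ L'.lattice := fun z => (h z).symm
  refine ⟨?_, ?_, ?_⟩
  · rw [MPb1b13a.Disc.wp_scale hμ h', mul_inv_cancel_left₀ (pow_ne_zero 2 hμ)]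
  · rw [MPb1b13a.Disc.wp'_scale hμ h', mul_inv_cancel_left₀ (pow_ne_zero 3 hμ)]
  · rw [PeriodPair.g₂, PeriodPair.g₂, PeriodPair.G, PeriodPair.G,
      ← (MPb1b13a.Disc.latticeScale hμ h').tsum_eq, mul_left_comm, ← tsum_mul_left (a := μ ^ 4)]
    congr 1
    refine tsum_congr fun l => ?_
    show _ = μ ^ 4 * ((μ * l) ^ 4)⁻¹
    rw [mul_pow, mul_inv, mul_inv_cancel_left₀ (pow_ne_zero 4 hμ)]
-- END W2

-- BEGIN W3
theorem wp_add (L : PeriodPair) {u v m : ℂ} (hu : u ∉ L.lattice) (hv : 2 * v ∉ L.lattice)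
    (hs : u + v ∉ L.lattice) (hd : u - v ∉ L.lattice)
    (hm : m * (L.weierstrassP u - L.weierstrassP v) =
      L.derivWeierstrassP u - L.derivWeierstrassP v) :
    4 * (L.weierstrassP u + L.weierstrassP v + L.weierstrassP (u + v)) = m ^ 2 ∧
      L.derivWeierstrassP (u + v) =
        -(L.derivWeierstrassP u + m * (L.weierstrassP (u + v) - L.weierstrassP u)) := by
  have hv' : v ∉ L.lattice := fun h => hv (by rw [two_mul]; exact L.lattice.add_mem h h)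
  have hne : L.weierstrassP u ≠ L.weierstrassP v := fun h => (wp_eq L hu hv' h).elim hd hs
  have em : (L.derivWeierstrassP u - L.derivWeierstrassP v) /
      (L.weierstrassP u - L.weierstrassP v) = m := by
    rw [← hm, mul_div_cancel_right₀ _ (sub_ne_zero.mpr hne)]
  have a := MPb1b13a.Disc.wp_add L hu hv' hne
  have b := MPb1b13a.Disc.wp'_add L hu hv' hne
  rw [em] at a b
  exact ⟨by linear_combination 4 * a, by linear_combination b⟩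
-- END W3

-- BEGIN F
theorem F_fam : MPb1b13a.Disc.IsFam pp := fun t ht => by simp [pp, dif_pos ht]

theorem F_swap (q : ℂ × ℂ) : Tendsto (fun r : ℂ × ℂ => (r.2, r.1)) (𝓝 q) (𝓝 (q.2, q.1)) :=
  continuous_swap.tendsto q

theorem isOpen_Om : IsOpen Om := isOpen_iff_mem_nhds.2 fun q hq =>
  ((F_swap q).eventually (F_fam.ev_notMem hq.1 (mt (lat_iff hq.1).1 hq.2))).mono
    fun _ hr => ⟨hr.1, mt (lat_iff hr.1).2 hr.2⟩

theorem wp_cont : ContinuousOn (fun q : ℂ × ℂ => wp q.1 q.2) Om := fun _ hq =>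
  ((F_fam.analyticAt_wp hq.1 (mt (lat_iff hq.1).1 hq.2)).continuousAt.comp_of_eq
    (f := fun r : ℂ × ℂ => (r.2, r.1)) continuous_swap.continuousAt rfl).continuousWithinAt

theorem wq_cont : ContinuousOn (fun q : ℂ × ℂ => wq q.1 q.2) Om := fun _ hq =>
  ((F_fam.analyticAt_wp' hq.1 (mt (lat_iff hq.1).1 hq.2)).continuousAt.comp_of_eq
    (f := fun r : ℂ × ℂ => (r.2, r.1)) continuous_swap.continuousAt rfl).continuousWithinAt

theorem wp_fam {V : Set ℂ} (hV : IsOpen V) {w : ℂ → ℂ} (hw : DifferentiableOn ℂ w V)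
    (h : ∀ τ ∈ V, (w τ, τ) ∈ Om) : DifferentiableOn ℂ (fun τ => wp (w τ) τ) V := fun τ hτ =>
  (F_fam.comp_wp (h τ hτ).1 (hw.analyticAt (hV.mem_nhds hτ))
    (mt (lat_iff (h τ hτ).1).1 (h τ hτ).2)).differentiableAt.differentiableWithinAt

theorem wq_fam {V : Set ℂ} (hV : IsOpen V) {w : ℂ → ℂ} (hw : DifferentiableOn ℂ w V)
    (h : ∀ τ ∈ V, (w τ, τ) ∈ Om) : DifferentiableOn ℂ (fun τ => wq (w τ) τ) V := fun τ hτ =>
  (F_fam.comp_wp' (h τ hτ).1 (hw.analyticAt (hV.mem_nhds hτ))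
    (mt (lat_iff (h τ hτ).1).1 (h τ hτ).2)).differentiableAt.differentiableWithinAt
-- END F

-- BEGIN G
/-- a continuous solution of an analytic equation is differentiable -/
theorem implicit_diff (Φ Ψ : ℂ → ℂ → ℂ) (u x : ℂ → ℂ) (τ0 : ℂ)
    (hΦ : ∀ᶠ q : ℂ × ℂ in 𝓝 (u τ0, τ0), HasDerivAt (fun w => Φ w q.2) (Ψ q.1 q.2) q.1)
    (hΨ : ContinuousAt (fun q : ℂ × ℂ => Ψ q.1 q.2) (u τ0, τ0)) (h0 : Ψ (u τ0) τ0 ≠ 0)
    (hτ : DifferentiableAt ℂ (fun τ => Φ (u τ0) τ) τ0) (hu : ContinuousAt u τ0)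
    (hx : DifferentiableAt ℂ x τ0) (he : ∀ᶠ τ in 𝓝 τ0, Φ (u τ) τ = x τ) :
    DifferentiableAt ℂ u τ0 := by
  classical
  obtain ⟨S, hS⟩ : ∃ S : ℂ → ℂ, S = fun τ => if u τ = u τ0 then Ψ (u τ0) τ0 else
    (Φ (u τ) τ - Φ (u τ0) τ) / (u τ - u τ0) := ⟨_, rfl⟩
  have h1 : ∀ τ, Φ (u τ) τ - Φ (u τ0) τ = S τ * (u τ - u τ0) := fun τ => by
    by_cases h : u τ = u τ0
    · simp [h]
    · rw [hS]
      simp only [if_neg h]
      rw [div_mul_cancel₀ _ (sub_ne_zero.2 h)]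
  have h2 : Tendsto S (𝓝 τ0) (𝓝 (Ψ (u τ0) τ0)) := by
    refine Metric.nhds_basis_closedBall.tendsto_right_iff.2 fun e he' => ?_
    obtain ⟨r, hr, h3⟩ := Metric.mem_nhds_iff.1
      (hΦ.and (hΨ.eventually (Metric.closedBall_mem_nhds _ he')))
    filter_upwards [hu.eventually (Metric.ball_mem_nhds _ hr), Metric.ball_mem_nhds τ0 hr]
      with τ a1 a2
    have h4 : ∀ w ∈ Metric.ball (u τ0) r, (w, τ) ∈ Metric.ball (u τ0, τ0) r := fun w hw => by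
      rw [← ball_prod_same]
      exact ⟨hw, a2⟩
    have h5 := (convex_ball (u τ0) r).norm_image_sub_le_of_norm_hasDerivWithin_le
      (f := fun w => Φ w τ - Ψ (u τ0) τ0 * w) (f' := fun w => Ψ w τ - Ψ (u τ0) τ0) (C := e)
      (fun w hw => ((h3 (h4 w hw)).1.sub
        (by simpa using (hasDerivAt_id w).const_mul (Ψ (u τ0) τ0))).hasDerivWithinAt)
      (fun w hw => mem_closedBall_iff_norm.1 (h3 (h4 w hw)).2) (Metric.mem_ball_self hr) a1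
    by_cases h : u τ = u τ0
    · simp [hS, h, he'.le]
    · rw [show Φ (u τ) τ - Ψ (u τ0) τ0 * u τ - (Φ (u τ0) τ - Ψ (u τ0) τ0 * u τ0) =
        (S τ - Ψ (u τ0) τ0) * (u τ - u τ0) by linear_combination h1 τ, norm_mul] at h5
      exact mem_closedBall_iff_norm.2
        (le_of_mul_le_mul_right h5 (norm_pos_iff.2 (sub_ne_zero.2 h)))
  have h3 := hasDerivAt_iff_tendsto_slope.1 (hx.sub hτ).hasDerivAt
  refine (hasDerivAt_iff_tendsto_slope.2 ((h3.div (h2.mono_left nhdsWithin_le_nhds) h0).congr'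
    ?_)).differentiableAt
  filter_upwards [(he.and (h2.eventually_ne h0)).filter_mono nhdsWithin_le_nhds] with τ hτ'
  simp only [Pi.div_apply, slope_def_field, Pi.sub_apply]
  rw [← hτ'.1, ← he.self_of_nhds, sub_self, sub_zero, h1, div_div, mul_comm (τ - τ0),
    mul_div_mul_left _ _ hτ'.2]

theorem hol_sqrt {f : ℂ → ℂ} (hf : Hol f) (h0 : ∀ τ ∈ UH, f τ ≠ 0) :
    ∃ g, Hol g ∧ ∀ τ ∈ UH, g τ ^ 2 = f τ := by
  have ha : ∀ τ ∈ UH, AnalyticAt ℂ f τ := fun τ hτ => hf.analyticAt (isOpen_UH.mem_nhds hτ)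
  obtain ⟨G, hG⟩ := MPb1b13a.Disc.exists_prim (g := fun τ => deriv f τ / f τ)
    fun τ hτ => (ha τ hτ).deriv.div (ha τ hτ) (h0 τ hτ)
  have h1 : ∀ τ ∈ UH, HasDerivAt (fun s => f s * exp (-G s)) 0 τ := fun τ hτ => by
    have h2 := (ha τ hτ).differentiableAt.hasDerivAt.mul
      (hG τ hτ).1.differentiableAt.hasDerivAt.neg.cexp
    rw [(hG τ hτ).2] at h2
    refine h2.congr_deriv ?_
    have := h0 τ hτ
    field_simp
    ring
  obtain ⟨c, hc⟩ := isOpen_UH.exists_is_const_of_deriv_eq_zero convex_UH.isPreconnected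
    (fun τ hτ => (h1 τ hτ).differentiableAt.differentiableWithinAt) fun τ hτ => (h1 τ hτ).deriv
  obtain ⟨r, hr⟩ := IsAlgClosed.exists_pow_nat_eq c two_pos
  refine ⟨fun τ => r * exp (G τ / 2), fun τ hτ => (((hG τ hτ).1.differentiableAt.div_const
    2).cexp.const_mul r).differentiableWithinAt, fun τ hτ => ?_⟩
  rw [mul_pow, hr, ← hc τ hτ, sq, ← exp_add, add_halves, mul_assoc, ← exp_add, neg_add_cancel,
    exp_zero, mul_one]
-- END G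

-- BEGIN L1
theorem L1_w {τ : ℂ} (hτ : τ ∈ UH) : (pp τ).ω₁ = 1 ∧ (pp τ).ω₂ = τ := by
  have h' : 0 < τ.im := hτ
  simp only [pp, dif_pos h', and_self]

theorem L1_e {τ : ℂ} (hτ : τ ∈ UH) :
    (pp τ).weierstrassP ((pp τ).ω₁ / 2) = eB τ ∧ (pp τ).weierstrassP ((pp τ).ω₂ / 2) = eA τ ∧
      (pp τ).weierstrassP (((pp τ).ω₁ + (pp τ).ω₂) / 2) = eC τ := by
  rw [(L1_w hτ).1, (L1_w hτ).2]
  exact ⟨rfl, rfl, rfl⟩

theorem wp_per {τ l : ℂ} (hτ : τ ∈ UH) (hl : Lat τ l) (w : ℂ) :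
    wp (w + l) τ = wp w τ ∧ wq (w + l) τ = wq w τ :=
  ⟨MPb1b13a.Disc.wp_add_mem _ ((lat_iff hτ).mpr hl),
    MPb1b13a.Disc.wp'_add_mem _ ((lat_iff hτ).mpr hl)⟩

theorem wp_neg (w τ : ℂ) : wp (-w) τ = wp w τ ∧ wq (-w) τ = -wq w τ :=
  ⟨(pp τ).weierstrassP_neg w, (pp τ).derivWeierstrassP_neg w⟩

theorem half_not_lat {τ : ℂ} (hτ : τ ∈ UH) :
    ¬ Lat τ (τ / 2) ∧ ¬ Lat τ (1 / 2) ∧ ¬ Lat τ ((1 + τ) / 2) := by
  have h1 := (pp τ).ω₁_div_two_notMem_lattice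
  have h2 := (pp τ).ω₂_div_two_notMem_lattice
  have h3 := MPb1b13a.Disc.half_sum_notMem (pp τ)
  rw [lat_iff hτ] at h1 h2 h3
  rw [(L1_w hτ).1] at h1 h3
  rw [(L1_w hτ).2] at h2 h3
  exact ⟨h2, h1, h3⟩

theorem hol_e : Hol eA ∧ Hol eB ∧ Hol eC :=
  ⟨wp_fam isOpen_UH (w := fun τ => τ / 2) (by fun_prop) fun _ h => ⟨h, (half_not_lat h).1⟩,
    wp_fam isOpen_UH (w := fun _ => 1 / 2) (by fun_prop) fun _ h => ⟨h, (half_not_lat h).2.1⟩,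
    wp_fam isOpen_UH (w := fun τ => (1 + τ) / 2) (by fun_prop)
      fun _ h => ⟨h, (half_not_lat h).2.2⟩⟩

theorem e_ne {τ : ℂ} (hτ : τ ∈ UH) : eA τ ≠ eB τ ∧ eA τ ≠ eC τ ∧ eB τ ≠ eC τ := by
  obtain ⟨h1, h2, h3⟩ := L1_e hτ
  rw [← h1, ← h2, ← h3]
  exact ⟨(MPb1b13a.Disc.e1_ne_e2 _).symm, MPb1b13a.Disc.e2_ne_e3 _, MPb1b13a.Disc.e1_ne_e3 _⟩

theorem e_sum {τ : ℂ} (hτ : τ ∈ UH) : eA τ + eB τ + eC τ = 0 := by
  obtain ⟨h1, h2, h3⟩ := L1_e hτ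
  linear_combination (MPb1b13a.Disc.e_symm (pp τ)).1 - h1 - h2 - h3

theorem L1_cubic {τ : ℂ} (hτ : τ ∈ UH) (x : ℂ) :
    4 * x ^ 3 - (pp τ).g₂ * x - (pp τ).g₃ = 4 * (x - eB τ) * (x - eA τ) * (x - eC τ) := by
  obtain ⟨h1, h2, h3⟩ := L1_e hτ
  rw [← h1, ← h2, ← h3]
  exact (MPb1b13a.Disc.e_symm (pp τ)).2 x

theorem g2_eq {τ : ℂ} (hτ : τ ∈ UH) :
    (pp τ).g₂ = -4 * (eA τ * eB τ + eA τ * eC τ + eB τ * eC τ) ∧
      (pp τ).g₃ = 4 * (eA τ * eB τ * eC τ) :=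
  ⟨by linear_combination L1_cubic hτ 0 - L1_cubic hτ 1 + 4 * e_sum hτ,
    by linear_combination -L1_cubic hτ 0⟩

theorem DD_ne {τ : ℂ} (hτ : τ ∈ UH) : DD τ ≠ 0 := sub_ne_zero.mpr (e_ne hτ).1.symm

theorem lam_ne {τ : ℂ} (hτ : τ ∈ UH) : lam τ ≠ 0 ∧ lam τ ≠ 1 := by
  refine ⟨div_ne_zero (sub_ne_zero.mpr (e_ne hτ).2.1.symm) (DD_ne hτ), fun h => ?_⟩
  rw [lam, div_eq_one_iff_eq (DD_ne hτ), DD] at h
  exact (e_ne hτ).2.2 (by linear_combination -h)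

theorem hol_DD : Hol DD := DifferentiableOn.sub hol_e.2.1 hol_e.1

theorem hol_lam : Hol lam :=
  DifferentiableOn.div (DifferentiableOn.sub hol_e.2.2 hol_e.1) hol_DD fun _ h => DD_ne h

theorem L1_wp {τ : ℂ} (hτ : τ ∈ UH) (w : ℂ) : wp w τ = eA τ + DD τ * XX w τ := by
  rw [XX, mul_div_cancel₀ _ (DD_ne hτ)]; ring

theorem L1_eC {τ : ℂ} (hτ : τ ∈ UH) : eC τ = eA τ + DD τ * lam τ := by
  rw [lam, mul_div_cancel₀ _ (DD_ne hτ)]; ring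

theorem L1_leg {τ : ℂ} (hτ : τ ∈ UH) (x : ℂ) :
    4 * (eA τ + DD τ * x) ^ 3 - (pp τ).g₂ * (eA τ + DD τ * x) - (pp τ).g₃ =
      4 * DD τ ^ 3 * (x * (x - 1) * (x - lam τ)) := by
  rw [L1_cubic hτ, L1_eC hτ, show eB τ = eA τ + DD τ by rw [DD]; ring]
  ring

theorem wq_sq {w τ : ℂ} (hτ : τ ∈ UH) (hw : ¬ Lat τ w) :
    wq w τ ^ 2 = 4 * DD τ ^ 3 * (XX w τ * (XX w τ - 1) * (XX w τ - lam τ)) := by
  rw [← L1_leg hτ, ← L1_wp hτ]
  exact (pp τ).derivWeierstrassP_sq w ((lat_iff hτ).not.mpr hw)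

theorem wq_ne {w τ : ℂ} (hτ : τ ∈ UH) (hw : ¬ Lat τ w) : wq w τ ≠ 0 ↔ ¬ Lat τ (2 * w) :=
  ((wq_zero (pp τ) ((lat_iff hτ).not.mpr hw)).trans (lat_iff hτ)).not

theorem xy_surj {τ x y : ℂ} (hτ : τ ∈ UH)
    (h : y ^ 2 = 4 * DD τ ^ 3 * (x * (x - 1) * (x - lam τ))) :
    ∃ w, ¬ Lat τ w ∧ XX w τ = x ∧ wq w τ = y := by
  rw [← L1_leg hτ] at h
  obtain ⟨u, h1, h2, h3⟩ := wp_surj2 (pp τ) h
  refine ⟨u, (lat_iff hτ).not.mp h1, ?_, h3⟩
  rw [XX, wp, h2, add_sub_cancel_left, mul_div_cancel_left₀ _ (DD_ne hτ)]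

theorem L1_wp_eq {τ u v : ℂ} (hτ : τ ∈ UH) (h : XX u τ = XX v τ) : wp u τ = wp v τ := by
  rw [L1_wp hτ u, L1_wp hτ v, h]

theorem x_eq {τ u v : ℂ} (hτ : τ ∈ UH) (hu : ¬ Lat τ u) (hv : ¬ Lat τ v)
    (h : XX u τ = XX v τ) : Lat τ (u - v) ∨ Lat τ (u + v) := by
  rw [← lat_iff hτ] at hu hv
  rw [← lat_iff hτ, ← lat_iff hτ]
  exact wp_eq (pp τ) hu hv (L1_wp_eq hτ h)

theorem xy_inj {τ u v : ℂ} (hτ : τ ∈ UH) (hu : ¬ Lat τ u) (hv : ¬ Lat τ v)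
    (h : XX u τ = XX v τ) (h' : wq u τ = wq v τ) : Lat τ (u - v) := by
  rw [← lat_iff hτ] at hu hv ⊢
  exact wp_inj (pp τ) hu hv (L1_wp_eq hτ h) h'

theorem xy_add {τ u v m : ℂ} (hτ : τ ∈ UH) (hu : ¬ Lat τ u) (hv : ¬ Lat τ (2 * v))
    (hs : ¬ Lat τ (u + v)) (hd : ¬ Lat τ (u - v))
    (hm : m * (XX u τ - XX v τ) = wq u τ - wq v τ) :
    4 * DD τ ^ 3 * (XX u τ + XX v τ + XX (u + v) τ - 1 - lam τ) = m ^ 2 ∧
      wq (u + v) τ = -(wq u τ + m * (XX (u + v) τ - XX u τ)) := by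
  rw [← lat_iff hτ] at hu hv hs hd
  obtain ⟨k, rfl⟩ : ∃ k, m = k * DD τ := ⟨m / DD τ, (div_mul_cancel₀ _ (DD_ne hτ)).symm⟩
  have e1 := L1_wp hτ u
  have e2 := L1_wp hτ v
  have e3 := L1_wp hτ (u + v)
  have hk : k * (wp u τ - wp v τ) = wq u τ - wq v τ := by
    rw [e1, e2]; linear_combination hm
  obtain ⟨a, b⟩ : 4 * (wp u τ + wp v τ + wp (u + v) τ) = k ^ 2 ∧
      wq (u + v) τ = -(wq u τ + k * (wp (u + v) τ - wp u τ)) := wp_add (pp τ) hu hv hs hd hk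
  rw [e1, e3] at a b
  rw [e2] at a
  have s := e_sum hτ
  rw [L1_eC hτ, show eB τ = eA τ + DD τ by rw [DD]; ring] at s
  exact ⟨by linear_combination DD τ ^ 2 * a - 4 * DD τ ^ 2 * s, by linear_combination b⟩

theorem XX_fam {V : Set ℂ} (hV : IsOpen V) {w : ℂ → ℂ} (hw : DifferentiableOn ℂ w V)
    (h : ∀ τ ∈ V, (w τ, τ) ∈ Om) : DifferentiableOn ℂ (fun τ => XX (w τ) τ) V :=
  DifferentiableOn.div (DifferentiableOn.sub (wp_fam hV hw h)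
    (DifferentiableOn.mono hol_e.1 fun τ hτ => (h τ hτ).1))
    (DifferentiableOn.mono hol_DD fun τ hτ => (h τ hτ).1) fun τ hτ => DD_ne (h τ hτ).1

theorem XX_cont : ContinuousOn (fun q : ℂ × ℂ => XX q.1 q.2) Om :=
  ContinuousOn.div (ContinuousOn.sub wp_cont
    ((DifferentiableOn.continuousOn hol_e.1).comp continuousOn_snd fun _ h => h.1))
    ((DifferentiableOn.continuousOn hol_DD).comp continuousOn_snd fun _ h => h.1)
    fun _ h => DD_ne h.1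

theorem XX_hasDeriv {w τ : ℂ} (hτ : τ ∈ UH) (hw : ¬ Lat τ w) :
    HasDerivAt (fun z => XX z τ) (wq w τ / DD τ) w :=
  ((wp_hasDeriv (pp τ) ((lat_iff hτ).not.mpr hw)).sub_const (eA τ)).div_const (DD τ)
-- END L1

end Pool.Agent.Lib.MP_b1b13a_lc.Dk
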